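import Pool.Agent.H576Z.RIP.Good

namespace Pool.Agent.H576Z.RIP

open Finset Function
open scoped RealInnerProductSpace

namespace Proc

variable {d : ℕ} (X : Proc d)

open Classical in
theorem rip_core {m k c J : ℕ} {γ δ M : ℝ} (hkd : k ≤ d) (hd : 100 ≤ d) (hm : 1 ≤ m) (hmd : m ≤ d)
    (hk : 5000 ≤ k) (hc : 1 ≤ c) (hJ1 : 4 * k ≤ d / 2 ^ J) (hJ2 : d ≤ 8 * k * 2 ^ J)
    (hK : k ^ c * d ≤ d ^ c) (hγ0 : 0 < γ) (hγ1 : γ ≤ 1 / 6000) (hδ0 : 0 ≤ δ) (hM : 1 ≤ M)
    (hδ : 72 * Real.exp (-(M ^ 2 / 8)) ≤ δ) (hγδ : 52000000 * (8 * c * (δ + γ)) ≤ 1 / 2000)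
    (hγM : γ ≤ 1 / (400 * (78732 * M ^ 2) ^ 2)) (hσ : 240 * sg ^ J * (64 * c) ≤ 1 / 2000)
    (hcount : 16 * m * Real.log d ≤ γ * k) :
    ∃ F : (ℕ → EV d) → ℝ, (∀ v, 0 ≤ F v) ∧ (X.P 0).E F ≤ 1 / (4 * (d : ℝ) ^ 2) ∧
      ∀ v ∈ (X.P 0).S, F v < 1 →
        (samp d k hkd).E (fun S => if RR (Umat d v) S m (k / d) then 0 else 1) ≤ 1 / 2 := by
  have hd' : (100 : ℝ) ≤ d := by exact_mod_cast hd
  have hd0 : (0 : ℝ) < d := by linarith
  have hk' : (5000 : ℝ) ≤ k := by exact_mod_cast hk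
  have hc' : (1 : ℝ) ≤ c := by exact_mod_cast hc
  have hsg := sg_pos
  have hJ : 4 * k * 2 ^ J ≤ d := (Nat.le_div_iff_mul_le (by positivity)).1 hJ1
  have hJd : J + 1 ≤ d := by
    have h1 : J < 2 ^ J := Nat.lt_two_pow_self
    nlinarith
  obtain ⟨T, hT1, hT2, hT3⟩ := exists_net d m hd hmd
  obtain ⟨p, hp⟩ : ∃ p, p = ⌈γ * k⌉₊ := ⟨_, rfl⟩
  have hp1 : γ * k ≤ p := hp ▸ Nat.le_ceil _
  have hp2 : 1 ≤ p := hp ▸ Nat.ceil_pos.2 (by positivity)
  have hp3 : 6000 * p ≤ d / 2 ^ J := by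
    refine le_trans ?_ hJ1
    have h1 : (p : ℝ) < γ * k + 1 := hp ▸ Nat.ceil_lt_add_one (by positivity)
    have h2 : γ * k ≤ 1 / 6000 * k := mul_le_mul_of_nonneg_right hγ1 (by positivity)
    have h3 : (6000 * p : ℝ) ≤ 4 * k := by linarith
    exact_mod_cast h3
  have hp4 : 20000 ≤ d / 2 ^ J := by omega
  set μ := Real.sqrt (12 * M ^ 2 / d) with hμ
  have hμ0 : 0 ≤ μ := Real.sqrt_nonneg _
  have hμ2 : μ ^ 2 = 12 * M ^ 2 / d := Real.sq_sqrt (by positivity)
  set M1 := 78732 * M ^ 2 with hM1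
  have hM11 : 1 ≤ M1 := by nlinarith
  let y : (ℕ → EV d) → EV d → Fin d → ℝ := fun v x a => mix (fun q => ⟪v q, x⟫) d a
  let ζ : (ℕ → EV d) → EV d → Fin d → ℝ := fun v x a => d * min |y v x a| (81 * μ) ^ 2
  have hζ0 : ∀ v x a, 0 ≤ ζ v x a := fun v x a => by simp only [ζ]; positivity
  have hζ1 : ∀ v x a, ζ v x a ≤ M1 := fun v x a => by
    have h1 : min |y v x a| (81 * μ) ^ 2 ≤ (81 * μ) ^ 2 :=
      pow_le_pow_left₀ (le_min (abs_nonneg _) (by positivity)) (min_le_right _ _) 2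
    refine (mul_le_mul_of_nonneg_left h1 hd0.le).trans (le_of_eq ?_)
    rw [mul_pow, hμ2, hM1]; field_simp; norm_num
  let G : Finset (Fin d) → Prop := fun S => ∀ j ≤ J, ∀ i, cnt S j i ≤ 8 * c * (j + 1)
  let E1 : EV d → (ℕ → EV d) → Finset (Fin d) → ℝ := fun x v S =>
    if G S ∧ (k : ℝ) / d / 1000 < ∑ a ∈ S, ex (y v x a) (81 * μ) ^ 2 then 1 else 0
  let E2 : EV d → (ℕ → EV d) → Finset (Fin d) → ℝ := fun x v _ =>
    if (1 : ℝ) / 1000 < ∑ a, ex (y v x a) (81 * μ) ^ 2 then 1 else 0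
  let E3 : EV d → (ℕ → EV d) → Finset (Fin d) → ℝ := fun x v S =>
    if (k : ℝ) / d * ∑ a, ζ v x a + k / 10 < ∑ a ∈ S, ζ v x a then 1 else 0
  let E4 : EV d → (ℕ → EV d) → Finset (Fin d) → ℝ := fun x v S =>
    if (k : ℝ) / d * ∑ a, (M1 - ζ v x a) + k / 10 < ∑ a ∈ S, (M1 - ζ v x a) then 1 else 0
  have i0 : ∀ (q : Prop) [Decidable q], (0 : ℝ) ≤ if q then 1 else 0 := by
    intro q _; split_ifs <;> norm_num
  have hE0 : ∀ x v S, 0 ≤ E1 x v S + E2 x v S + E3 x v S + E4 x v S := fun x v S =>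
    add_nonneg (add_nonneg (add_nonneg (i0 _) (i0 _)) (i0 _)) (i0 _)
  have hexp : Real.exp (-(k / (400 * M1 ^ 2))) ≤ Real.exp (-(γ * k)) := by
    rw [Real.exp_le_exp, neg_le_neg_iff]
    have := mul_le_mul_of_nonneg_right hγM (by positivity : (0 : ℝ) ≤ k)
    refine this.trans (le_of_eq ?_); ring
  have b1 : ∀ x ∈ T, ∀ S ∈ (samp d k hkd).S, (X.P 0).E (fun v => E1 x v S) ≤
      2 * (J + 1) * Real.exp (-(γ * k)) := by
    intro x hx S hS
    by_cases hG : G S
    swap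
    · simp only [E1, hG, false_and, if_false, Dist.const]; positivity
    refine le_trans (Dist.mono _ fun v _ => ?_) (X.exc_total x (hT2 x hx).2 S hp2 hp4 hp3 hp1
      (fun j => 8 * c * (j + 1)) (fun _ => k) (fun j => by positivity)
      (fun j hj i => by exact_mod_cast hG j hj i)
      (fun j _ => by rw [← (samp_S d k hkd S).1 hS]; exact_mod_cast cnt_supp S _ _ _)
      (by linarith) hμ0 hμ2.ge hδ (Λ := 8 * c * (δ + γ) * k) (Λ' := 64 * c * k) (by positivity)
      (by positivity) (fun j _ => by push_cast; apply le_of_eq; ring) ?_)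
    · simp only [E1]
      split_ifs with h1 h2 h2
      · exact le_rfl
      · refine absurd (lt_of_le_of_lt ?_ h1.2) h2
        rw [div_div, div_le_div_iff₀ hd0 (by positivity)]
        have a1 := mul_le_mul_of_nonneg_right hγδ (by positivity : (0 : ℝ) ≤ k * d)
        have a2 := mul_le_mul_of_nonneg_right hσ (by positivity : (0 : ℝ) ≤ k * d)
        linarith
      · norm_num
      · exact le_rfl
    · rw [le_div_iff₀ hd0]
      have h1 : (d : ℝ) ≤ 8 * k * 2 ^ J := by exact_mod_cast hJ2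
      have := mul_le_mul_of_nonneg_left h1 (by positivity : (0 : ℝ) ≤ 8 * c * (J + 1))
      linarith
  have b2 : ∀ x ∈ T, ∀ S ∈ (samp d k hkd).S, (X.P 0).E (fun v => E2 x v S) ≤
      2 * (J + 1) * Real.exp (-(γ * k)) := by
    intro x hx S _
    refine le_trans (Dist.mono _ fun v _ => ?_) (X.exc_total x (hT2 x hx).2 univ hp2 hp4 hp3 hp1
      (fun j => 2 ^ j) (fun j => d / 2 ^ j) (fun j => by positivity)
      (fun j _ i => by exact_mod_cast cnt_univ_le d j i) (fun j _ => ?_)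
      (by linarith) hμ0 hμ2.ge hδ (Λ := (2 * δ + γ) * d) (Λ' := d) (by positivity)
      (by positivity) (fun j hj => ?_) ?_)
    · simp only [E2]
      split_ifs with h1 h2 h2
      · exact le_rfl
      · refine absurd (lt_of_le_of_lt ?_ h1) h2
        rw [div_le_div_iff₀ hd0 (by positivity)]
        have a0 : 2 * δ + γ ≤ 8 * c * (δ + γ) := by nlinarith
        have a3 : sg ^ J ≤ sg ^ J * (64 * c) := le_mul_of_one_le_right (by positivity) (by linarith)
        have a1 := mul_le_mul_of_nonneg_right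
          (show 52000000 * (2 * δ + γ) ≤ 1 / 2000 by linarith) hd0.le
        have a2 := mul_le_mul_of_nonneg_right (show 240 * sg ^ J ≤ 1 / 2000 by linarith) hd0.le
        linarith
      · norm_num
      · exact le_rfl
    · refine le_trans ?_ (Nat.cast_div_le (m := d) (n := 2 ^ j)) |>.trans (by push_cast; rfl)
      have := (card_filter_le (Ico (d / 2 ^ (j + 1)) (d / 2 ^ j)) fun q =>
        (cnt (univ : Finset (Fin d)) (j + 1) (q - d / 2 ^ (j + 1)) : ℝ) ≠ 0)
      rw [Nat.card_Ico] at this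
      exact_mod_cast this.trans (Nat.sub_le _ _)
    · have h3 : 2 ^ (j + 1) ≤ 2 ^ J := Nat.pow_le_pow_right (by norm_num) hj
      have h4 : 2 ^ (j + 1) * k ≤ d := by nlinarith
      have h5 : (2 : ℝ) ^ (j + 1) * k ≤ d := by exact_mod_cast h4
      have h6 := mul_le_mul_of_nonneg_left h5 hγ0.le
      have e : (2 : ℝ) ^ (j + 1) * (δ * (d / 2 ^ j) + γ * k) =
          2 * δ * d + γ * (2 ^ (j + 1) * k) := by field_simp; ring
      rw [e]
      have h7 : (2 * δ + γ) * d ≤ (2 * δ + γ) * d * (j + 2) :=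
        le_mul_of_one_le_right (by positivity) (by linarith [Nat.cast_nonneg (α := ℝ) j])
      linarith
    · rw [le_div_iff₀ hd0]
      have : (0 : ℝ) ≤ d * J * 2 ^ J := by positivity
      linarith
  have b3 : ∀ x v, (samp d k hkd).E (E3 x v) ≤ Real.exp (-(γ * k)) := fun x v =>
    (samp_hoeff hkd (by omega) (ζ v x) hM11 (hζ0 v x) (hζ1 v x)).trans hexp
  have b4 : ∀ x v, (samp d k hkd).E (E4 x v) ≤ Real.exp (-(γ * k)) := fun x v =>
    (samp_hoeff hkd (by omega) (fun a => M1 - ζ v x a) hM11 (fun a => by linarith [hζ1 v x a])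
      (fun a => by linarith [hζ0 v x a])).trans hexp
  refine ⟨fun v => 4 * (samp d k hkd).E
    (fun S => ∑ x ∈ T, (E1 x v S + E2 x v S + E3 x v S + E4 x v S)), fun v => mul_nonneg
      (by norm_num) (Dist.pos _ _ fun S _ => sum_nonneg fun x _ => hE0 x v S), ?_, ?_⟩
  · rw [Dist.mul_left]
    simp only [Dist.sum, Dist.add]
    have h1 : ∀ x ∈ T, (X.P 0).E (fun v => (samp d k hkd).E (E1 x v)) +
        (X.P 0).E (fun v => (samp d k hkd).E (E2 x v)) +
        (X.P 0).E (fun v => (samp d k hkd).E (E3 x v)) +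
        (X.P 0).E (fun v => (samp d k hkd).E (E4 x v)) ≤ 10 * d * Real.exp (-(γ * k)) := by
      intro x hx
      have c1 := (samp_swap (X.P 0) hkd (E1 x)).trans_le (Dist.le_const _ (b1 x hx))
      have c2 := (samp_swap (X.P 0) hkd (E2 x)).trans_le (Dist.le_const _ (b2 x hx))
      have c3 := Dist.le_const (X.P 0) fun v _ => b3 x v
      have c4 := Dist.le_const (X.P 0) fun v _ => b4 x v
      have h3 : (J : ℝ) + 1 ≤ d := by exact_mod_cast hJd
      have h4 := mul_le_mul_of_nonneg_right h3 (Real.exp_pos (-(γ * k))).le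
      have h5 := mul_le_mul_of_nonneg_right hd' (Real.exp_pos (-(γ * k))).le
      have := Real.exp_pos (-(γ * k))
      linarith
    have h2 := sum_le_sum h1
    rw [sum_const, nsmul_eq_mul] at h2
    have h3 : Real.exp (-(γ * k)) ≤ ((d : ℝ) ^ (16 * m))⁻¹ := by
      rw [Real.exp_neg]
      refine inv_anti₀ (by positivity) ?_
      rw [← Real.exp_log (pow_pos hd0 (16 * m)), Real.exp_le_exp, Real.log_pow]
      push_cast; exact hcount
    have h4 : (#T : ℝ) * (10 * d * Real.exp (-(γ * k))) ≤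
        (d : ℝ) ^ (5 * m) * (10 * d * ((d : ℝ) ^ (16 * m))⁻¹) := by gcongr
    have h5 : (d : ℝ) ^ (5 * m) * (10 * d * ((d : ℝ) ^ (16 * m))⁻¹) ≤ 1 / (16 * (d : ℝ) ^ 2) := by
      have e : (d : ℝ) ^ (16 * m) = d ^ (5 * m) * d ^ (11 * m) := by rw [← pow_add]; congr 1; ring
      have h6 : (d : ℝ) ^ 5 ≤ d ^ (11 * m) := pow_le_pow_right₀ (by linarith) (by omega)
      rw [e, le_div_iff₀ (by positivity)]
      have e2 : (d : ℝ) ^ (5 * m) * (10 * d * ((d : ℝ) ^ (5 * m) * d ^ (11 * m))⁻¹) * (16 * d ^ 2) =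
          160 * d ^ 3 / d ^ (11 * m) := by field_simp; norm_num
      rw [e2, div_le_one (by positivity)]
      refine le_trans ?_ h6
      have : (160 : ℝ) ≤ d ^ 2 := by nlinarith
      calc _ ≤ (d : ℝ) ^ 2 * d ^ 3 := by gcongr
        _ = _ := by ring
    have e3 : 1 / (4 * (d : ℝ) ^ 2) = 4 * (1 / (16 * (d : ℝ) ^ 2)) := by field_simp; norm_num
    rw [e3]
    refine mul_le_mul_of_nonneg_left ?_ (by norm_num)
    exact h2.trans (h4.trans h5)
  · intro v hv hF
    have hON := X.onS 0 (Nat.zero_le d) v hv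
    have h1 := good_prob hkd hd (by omega) hJ1 hK
    have h2 : (samp d k hkd).E (fun S => if RR (Umat d v) S m (k / d) then 0 else 1) ≤
        (samp d k hkd).E (fun S => (if ∀ j ≤ J, ∀ i, cnt S j i ≤ 8 * c * (j + 1) then 0 else 1) +
          ∑ x ∈ T, (E1 x v S + E2 x v S + E3 x v S + E4 x v S)) := by
      refine Dist.mono _ fun S hS => ?_
      have s0 : 0 ≤ ∑ x ∈ T, (E1 x v S + E2 x v S + E3 x v S + E4 x v S) :=
        sum_nonneg fun x _ => hE0 x v S
      by_cases hG : ∀ j ≤ J, ∀ i, cnt S j i ≤ 8 * c * (j + 1)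
      swap
      · rw [if_neg hG]; split_ifs <;> linarith
      rw [if_pos hG, zero_add]
      split_ifs with hR
      · exact s0
      by_contra hcon
      push Not at hcon
      refine hR (RR_of_net hd _ (fun x => by simp only [Umat_mul]; exact Umat_iso hON x) S
        (by gcongr; linarith) T hT3 fun x hx => ?_)
      simp only [Umat_mul]
      have h3 := (single_le_sum (f := fun x => E1 x v S + E2 x v S + E3 x v S + E4 x v S)
        (fun x _ => hE0 x v S) hx).trans_lt hcon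
      have z1 : 0 ≤ E1 x v S := i0 _
      have z2 : 0 ≤ E2 x v S := i0 _
      have z3 : 0 ≤ E3 x v S := i0 _
      have z4 : 0 ≤ E4 x v S := i0 _
      have hiso := Umat_iso hON x
      refine net_point (by omega) (y v x) S ((samp_S d k hkd S).1 hS) (τ := 81 * μ) (M1 := M1)
        (by positivity) (hiso ▸ (hT2 x hx).1) (hiso ▸ (hT2 x hx).2) ?_ ?_ ?_ ?_
      · by_contra h
        have : E1 x v S = 1 := if_pos ⟨hG, not_le.1 h⟩
        linarith
      · by_contra h
        have : E2 x v S = 1 := if_pos (not_le.1 h)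
        linarith
      · by_contra h
        have : E3 x v S = 1 := if_pos (not_le.1 h)
        linarith
      · by_contra h
        have : E4 x v S = 1 := if_pos (not_le.1 h)
        linarith
    rw [Dist.add] at h2
    linarith

end Proc

end Pool.Agent.H576Z.RIP
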