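import Pool.Agent.H576Z.RIP.Dist

namespace Pool.Agent.H576Z.RIP

open Finset
open scoped RealInnerProductSpace

variable {W : Type*} [NormedAddCommGroup W] [InnerProductSpace ℝ W] [FiniteDimensional ℝ W]

/-- Spectral damping: directions in which the weighted frame form is at most one. -/
theorem damp {Y : Type*} [Fintype Y] {n : ℕ} (hn : Module.finrank ℝ W = n) (f : Y → W)
    (w : Y → ℝ) (hw : ∀ y, 0 ≤ w y) :
    ∃ c : Fin n → W, (∀ i, ‖c i‖ ^ 2 ≤ 1) ∧ (∀ θ, ∑ i, ⟪c i, θ⟫ ^ 2 ≤ ‖θ‖ ^ 2) ∧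
      (∀ θ, ‖θ‖ ^ 2 - ∑ y, w y * ⟪f y, θ⟫ ^ 2 ≤ ∑ i, ⟪c i, θ⟫ ^ 2) ∧
      ∀ y, w y * ∑ i, ⟪c i, f y⟫ ^ 2 ≤ 1 := by
  classical
  let A : W →ₗ[ℝ] W :=
    { toFun := fun θ => ∑ y, (w y * ⟪f y, θ⟫) • f y
      map_add' := fun a b => by
        rw [← sum_add_distrib]; congr 1; funext y; rw [inner_add_right, mul_add, add_smul]
      map_smul' := fun r a => by
        simp only [RingHom.id_apply]
        rw [smul_sum]; congr 1; funext y; rw [inner_smul_right, smul_smul]; congr 1; ring }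
  have hA : ∀ a b, ⟪A a, b⟫ = ∑ y, w y * (⟪f y, a⟫ * ⟪f y, b⟫) := by
    intro a b
    show ⟪∑ y, (w y * ⟪f y, a⟫) • f y, b⟫ = _
    rw [sum_inner]; congr 1; funext y; rw [real_inner_smul_left]; ring
  have hs : A.IsSymmetric := by
    intro a b
    rw [real_inner_comm (A b) a, hA, hA]; congr 1; funext y; ring
  let e := hs.eigenvectorBasis hn
  let α := hs.eigenvalues hn
  have he : ∀ i, A (e i) = α i • e i := fun i => hs.apply_eigenvectorBasis hn i
  have hQ : ∀ θ, ∑ y, w y * ⟪f y, θ⟫ ^ 2 = ∑ i, α i * ⟪e i, θ⟫ ^ 2 := by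
    intro θ
    have h1 : ⟪A θ, θ⟫ = ∑ y, w y * ⟪f y, θ⟫ ^ 2 := by
      rw [hA]; congr 1; funext y; ring
    rw [← h1, ← e.sum_inner_mul_inner (A θ) θ]
    congr 1; funext i
    rw [hs θ (e i), he, inner_smul_right, real_inner_comm (e i) θ]; ring
  have hP : ∀ θ, ‖θ‖ ^ 2 = ∑ i, ⟪e i, θ⟫ ^ 2 := by
    intro θ
    rw [← real_inner_self_eq_norm_sq, ← e.sum_inner_mul_inner θ θ]
    congr 1; funext i; rw [real_inner_comm (e i) θ]; ring
  have hα : ∀ i, 0 ≤ α i := by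
    intro i
    have h1 : ⟪A (e i), e i⟫ = α i := by
      rw [he, real_inner_smul_left, real_inner_self_eq_norm_sq, e.orthonormal.1 i]; ring
    rw [← h1, hA]
    exact sum_nonneg fun y _ => mul_nonneg (hw y) (mul_self_nonneg _)
  refine ⟨fun i => if α i ≤ 1 then e i else 0, ?_, ?_, ?_, ?_⟩
  · intro i
    by_cases h : α i ≤ 1 <;> simp [h, e.orthonormal.1 i]
  · intro θ
    rw [hP]
    refine sum_le_sum fun i _ => ?_
    by_cases h : α i ≤ 1 <;> simp [h, sq_nonneg]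
  · intro θ
    rw [hP, hQ, ← sum_sub_distrib]
    refine sum_le_sum fun i _ => ?_
    have := hα i
    have h2 := sq_nonneg ⟪e i, θ⟫
    by_cases h : α i ≤ 1
    · simp only [h, if_true]; nlinarith
    · simp only [h, if_false, inner_zero_left]; push Not at h; nlinarith
  · intro y
    set v := ∑ i, ⟪(if α i ≤ 1 then e i else 0), f y⟫ ^ 2 with hv
    let φ : W := ∑ i, ⟪(if α i ≤ 1 then e i else 0), f y⟫ • e i
    have hφ : ∀ i, ⟪e i, φ⟫ = ⟪(if α i ≤ 1 then e i else 0), f y⟫ := by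
      intro i
      exact e.orthonormal.inner_right_fintype _ i
    have h1 : ⟪f y, φ⟫ = v := by
      rw [← e.sum_inner_mul_inner (f y) φ, hv]
      congr 1; funext i
      rw [hφ, real_inner_comm (e i) (f y)]
      by_cases h : α i ≤ 1 <;> simp [h, sq]
    have h2 : ∑ y, w y * ⟪f y, φ⟫ ^ 2 ≤ v := by
      rw [hQ, hv]
      refine sum_le_sum fun i _ => ?_
      rw [hφ]
      by_cases h : α i ≤ 1
      · have h2 := sq_nonneg ⟪(if α i ≤ 1 then e i else 0), f y⟫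
        nlinarith
      · simp [h]
    have h3 : w y * ⟪f y, φ⟫ ^ 2 ≤ ∑ y, w y * ⟪f y, φ⟫ ^ 2 :=
      single_le_sum (f := fun y => w y * ⟪f y, φ⟫ ^ 2)
        (fun y _ => mul_nonneg (hw y) (sq_nonneg _)) (mem_univ y)
    rw [h1] at h3
    have hv0 : 0 ≤ v := sum_nonneg fun i _ => sq_nonneg _
    rcases hv0.eq_or_lt with h0 | h0
    · rw [← h0]; simp
    · have : w y * v * v ≤ 1 * v := by nlinarith
      exact le_of_mul_le_mul_right this h0

theorem barrier_ineq (r : ℝ) (hr : r ^ 2 ≤ 1 / 100) :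
    ((1 - r)⁻¹ ^ 4 + (1 + r)⁻¹ ^ 4) / 2 ≤ 1 + 20 * r ^ 2 := by
  have h1 : r ≤ 1 / 10 := by nlinarith
  have h2 : -(1 / 10) ≤ r := by nlinarith
  have ha : 0 < 1 - r := by linarith
  have hb : 0 < 1 + r := by linarith
  have hab : (1 - r) * (1 + r) = 1 - r ^ 2 := by ring
  have key : (1 - r)⁻¹ ^ 4 + (1 + r)⁻¹ ^ 4 =
      (2 + 12 * r ^ 2 + 2 * (r ^ 2) ^ 2) / (1 - r ^ 2) ^ 4 := by
    rw [← hab]; field_simp; ring
  rw [key]
  set x := r ^ 2 with hx
  have hx0 : 0 ≤ x := sq_nonneg r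
  have hp : 0 < (1 - x) ^ 4 := by have : 0 < 1 - x := by linarith
                                  positivity
  rw [div_div, div_le_iff₀ (by positivity)]
  have h4 : 1 - 4 * x ≤ (1 - x) ^ 4 := by
    have := one_add_mul_le_pow (a := -x) (by linarith) 4
    simpa [sub_eq_add_neg] using this
  nlinarith

theorem cosh_ineq (a : ℝ) (ha : a ^ 2 ≤ 1) :
    (Real.exp a + Real.exp (-a)) / 2 ≤ 1 + a ^ 2 := by
  have h1 := Real.cosh_le_exp_half_sq a
  rw [Real.cosh_eq] at h1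
  have h2 : |Real.exp (a ^ 2 / 2) - 1| ≤ 2 * |a ^ 2 / 2| :=
    Real.abs_exp_sub_one_le (by rw [abs_of_nonneg (by positivity)]; linarith)
  rw [abs_of_nonneg (by positivity : 0 ≤ a ^ 2 / 2)] at h2
  have := (abs_le.1 h2).2
  linarith

end Pool.Agent.H576Z.RIP
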