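import Mathlib

namespace Pool.Agent.H576Z.RIP

open Finset

open Classical in
/-- The submatrix of `U` formed by the rows in `S` has the `m`-RIP: after multiplying it by a
positive scalar `c`, it distorts the Euclidean norm of every complex vector with at most `m`
nonzero coordinates by a factor between `1` and `2`. -/
def HasRIP {d : ℕ} (U : Matrix (Fin d) (Fin d) ℂ) (S : Finset (Fin d)) (m : ℕ) : Prop :=
  ∃ c : ℝ, 0 < c ∧ ∀ x : Fin d → ℂ, #(univ.filter fun j => x j ≠ 0) ≤ m →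
    Real.sqrt (∑ j, ‖x j‖ ^ 2) ≤ c * Real.sqrt (∑ a ∈ S, ‖∑ j, U a j * x j‖ ^ 2) ∧
      c * Real.sqrt (∑ a ∈ S, ‖∑ j, U a j * x j‖ ^ 2) ≤ 2 * Real.sqrt (∑ j, ‖x j‖ ^ 2)

end Pool.Agent.H576Z.RIP
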