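import Mathlib

/-! Finitely additive expectation functionals, used as a light probability framework. -/

namespace Pool.Agent.H576Z.RIP

open Finset

/-- A positive normalised linear functional on real functions, with a support set. -/
structure Dist (α : Type*) where
  E : (α → ℝ) →ₗ[ℝ] ℝ
  S : Set α
  pos : ∀ f : α → ℝ, (∀ a ∈ S, 0 ≤ f a) → 0 ≤ E f
  one : E (fun _ => 1) = 1

namespace Dist

variable {α β : Type*} (D : Dist α)

theorem mono {f g : α → ℝ} (h : ∀ a ∈ D.S, f a ≤ g a) : D.E f ≤ D.E g := by
  have := D.pos (g - f) (fun a ha => by simpa using h a ha)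
  rw [map_sub] at this; linarith

theorem congr {f g : α → ℝ} (h : ∀ a ∈ D.S, f a = g a) : D.E f = D.E g :=
  le_antisymm (D.mono fun a ha => (h a ha).le) (D.mono fun a ha => (h a ha).ge)

theorem add (f g : α → ℝ) : D.E (fun a => f a + g a) = D.E f + D.E g := map_add D.E f g

theorem sub (f g : α → ℝ) : D.E (fun a => f a - g a) = D.E f - D.E g := map_sub D.E f g

theorem mul_left (c : ℝ) (f : α → ℝ) : D.E (fun a => c * f a) = c * D.E f :=
  map_smul D.E c f

theorem mul_right (c : ℝ) (f : α → ℝ) : D.E (fun a => f a * c) = D.E f * c := by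
  rw [mul_comm, ← D.mul_left]; congr 1; funext a; ring

theorem const (c : ℝ) : D.E (fun _ => c) = c := by
  have := D.mul_left c (fun _ => 1)
  simp only [mul_one, D.one] at this; exact this

theorem sum {ι : Type*} (s : Finset ι) (f : ι → α → ℝ) :
    D.E (fun a => ∑ i ∈ s, f i a) = ∑ i ∈ s, D.E (f i) := by
  rw [← map_sum]; congr 1; funext a; simp

theorem le_const {f : α → ℝ} {c : ℝ} (h : ∀ a ∈ D.S, f a ≤ c) : D.E f ≤ c := by
  have := D.mono (g := fun _ => c) h
  rwa [D.const] at this

theorem exists_lt {f : α → ℝ} {c : ℝ} (h : D.E f < c) : ∃ a ∈ D.S, f a < c := by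
  by_contra hc
  push Not at hc
  have := D.mono (f := fun _ => c) hc
  rw [D.const] at this; linarith

/-- Point mass. -/
def pure (a : α) : Dist α where
  E := LinearMap.proj a
  S := {a}
  pos f h := h a rfl
  one := rfl

@[simp] theorem pure_E (a : α) (f : α → ℝ) : (pure a).E f = f a := rfl
@[simp] theorem pure_S (a : α) : (pure a).S = {a} := rfl

/-- Composition with a kernel and a map. -/
def bind (K : α → Dist β) {γ : Type*} (φ : α → β → γ) : Dist γ where
  E :=
    { toFun := fun f => D.E (fun a => (K a).E (fun b => f (φ a b)))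
      map_add' := fun f g => by
        rw [← D.add]; congr 1; funext a; exact (K a).add _ _
      map_smul' := fun c f => by
        simp only [RingHom.id_apply, smul_eq_mul]
        rw [← D.mul_left]; congr 1; funext a; exact (K a).mul_left _ _ }
  S := {c | ∃ a ∈ D.S, ∃ b ∈ (K a).S, c = φ a b}
  pos f h := D.pos _ fun a ha => (K a).pos _ fun b hb => h _ ⟨a, ha, b, hb, rfl⟩
  one := by
    show D.E (fun a => (K a).E (fun _ => 1)) = 1
    simp only [Dist.one]

theorem bind_E (K : α → Dist β) {γ : Type*} (φ : α → β → γ) (f : γ → ℝ) :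
    (D.bind K φ).E f = D.E (fun a => (K a).E (fun b => f (φ a b))) := rfl

theorem bind_S (K : α → Dist β) {γ : Type*} (φ : α → β → γ) (c : γ) :
    c ∈ (D.bind K φ).S ↔ ∃ a ∈ D.S, ∃ b ∈ (K a).S, c = φ a b := Iff.rfl

open Classical in
/-- Conditioning on an event of positive mass, followed by a map. -/
noncomputable def cond (p : α → Prop) (hp : 0 < D.E (fun a => if p a then 1 else 0))
    (φ : α → β) : Dist β where
  E :=
    { toFun := fun f => D.E (fun a => if p a then f (φ a) else 0) /
        D.E (fun a => if p a then 1 else 0)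
      map_add' := fun f g => by
        rw [← add_div, ← D.add]; congr 2; funext a; split_ifs <;> simp
      map_smul' := fun c f => by
        simp only [RingHom.id_apply, smul_eq_mul]
        rw [← mul_div_assoc, ← D.mul_left]; congr 2; funext a; split_ifs <;> simp }
  S := {b | ∃ a ∈ D.S, p a ∧ b = φ a}
  pos f h := div_nonneg (D.pos _ fun a ha => by
    split_ifs with hpa
    · exact h _ ⟨a, ha, hpa, rfl⟩
    · exact le_rfl) hp.le
  one := div_self hp.ne'

open Classical in
theorem cond_E (p : α → Prop) (hp : 0 < D.E (fun a => if p a then 1 else 0))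
    (φ : α → β) (f : β → ℝ) : (D.cond p hp φ).E f =
      D.E (fun a => if p a then f (φ a) else 0) / D.E (fun a => if p a then 1 else 0) := rfl

open Classical in
theorem cond_S (p : α → Prop) (hp : 0 < D.E (fun a => if p a then 1 else 0))
    (φ : α → β) (b : β) : b ∈ (D.cond p hp φ).S ↔ ∃ a ∈ D.S, p a ∧ b = φ a := Iff.rfl

/-- Uniform choice of an index and a sign. -/
noncomputable def pm (n : ℕ) (hn : 0 < n) : Dist (Fin n × ℝ) where
  E :=
    { toFun := fun f => (∑ i : Fin n, (f (i, 1) + f (i, -1)) / 2) / n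
      map_add' := fun f g => by
        rw [← add_div, ← sum_add_distrib]; congr 2; funext i; simp only [Pi.add_apply]; ring
      map_smul' := fun c f => by
        simp only [RingHom.id_apply, smul_eq_mul, Pi.smul_apply]
        rw [← mul_div_assoc, mul_sum]; congr 2; funext i; ring }
  S := {x | x.2 = 1 ∨ x.2 = -1}
  pos f h := div_nonneg (sum_nonneg fun i _ => by
    have h1 := h (i, 1) (Or.inl rfl)
    have h2 := h (i, -1) (Or.inr rfl)
    positivity) (Nat.cast_nonneg n)
  one := by
    have : (n : ℝ) ≠ 0 := by positivity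
    show (∑ _i : Fin n, ((1 : ℝ) + 1) / 2) / n = 1
    simp [this]

theorem pm_E (n : ℕ) (hn : 0 < n) (f : Fin n × ℝ → ℝ) :
    (pm n hn).E f = (∑ i : Fin n, (f (i, 1) + f (i, -1)) / 2) / n := rfl

theorem pm_S (n : ℕ) (hn : 0 < n) (x : Fin n × ℝ) :
    x ∈ (pm n hn).S ↔ x.2 = 1 ∨ x.2 = -1 := Iff.rfl

end Dist

end Pool.Agent.H576Z.RIP
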