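import Pool.Agent.H576Z.RIP.Core
import Pool.Agent.H576Z.RIP.Defs

namespace Pool.Agent.H576Z.RIP

open Finset Function

def Adm (d m k : ℕ) : Prop := ∃ (c J : ℕ) (γ δ M : ℝ), 2 ^ 50 ≤ d ∧ 1 ≤ m ∧ m ≤ d ∧
  5000 ≤ k ∧ 1 ≤ c ∧ 4 * k ≤ d / 2 ^ J ∧ d ≤ 8 * k * 2 ^ J ∧ k ^ c * d ≤ d ^ c ∧ 0 < γ ∧
  γ ≤ 1 / 6000 ∧ 0 ≤ δ ∧ 1 ≤ M ∧ 72 * Real.exp (-(M ^ 2 / 8)) ≤ δ ∧
  52000000 * (8 * c * (δ + γ)) ≤ 1 / 2000 ∧ γ ≤ 1 / (400 * (78732 * M ^ 2) ^ 2) ∧
  240 * sg ^ J * (64 * c) ≤ 1 / 2000 ∧ 16 * m * Real.log d ≤ γ * k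

open Classical in
theorem per_d (d : ℕ) : ∃ U : Matrix (Fin d) (Fin d) ℝ,
    (∀ x : EV d, ∑ a, (∑ y, U a y * x y) ^ 2 = ‖x‖ ^ 2) ∧
    (∀ a y, |U a y| ≤ 2 ^ 25 / Real.sqrt d) ∧
    ∀ m k (hk : k ≤ d), Adm d m k →
      (samp d k hk).E (fun S => if RR U S m (k / d) then 0 else 1) ≤ 1 / 2 := by
  by_cases hd : 2 ^ 50 ≤ d
  swap
  · refine ⟨1, fun x => ?_, fun a y => ?_, fun m k hk h => ?_⟩
    · rw [EuclideanSpace.real_norm_sq_eq]
      simp [Matrix.one_apply]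
    · have hd0 : (0 : ℝ) < d := by exact_mod_cast a.pos
      have h1 : |(1 : Matrix (Fin d) (Fin d) ℝ) a y| ≤ 1 := by
        rw [Matrix.one_apply]; split_ifs <;> simp
      refine h1.trans ?_
      rw [le_div_iff₀ (Real.sqrt_pos.2 hd0), one_mul, Real.sqrt_le_left (by positivity)]
      have : (d : ℝ) ≤ 2 ^ 50 := by exact_mod_cast (not_le.1 hd).le
      linarith [show ((2 : ℝ) ^ 25) ^ 2 = 2 ^ 50 by norm_num]
    · obtain ⟨c, J, γ, δ, M, h, -⟩ := h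
      exact absurd h hd
  obtain ⟨X⟩ := exists_proc d
  obtain ⟨F0, f1, f2, f3⟩ := X.sup_bound hd
  have hd0 : (0 : ℝ) < d := by exact_mod_cast (lt_of_lt_of_le (by positivity) hd : 0 < d)
  have key : ∀ m k : ℕ, ∃ F : (ℕ → EV d) → ℝ, (∀ v, 0 ≤ F v) ∧
      (X.P 0).E F ≤ 1 / (4 * (d : ℝ) ^ 2) ∧ ∀ v ∈ (X.P 0).S, F v < 1 → ∀ hk : k ≤ d, Adm d m k →
        (samp d k hk).E (fun S => if RR (Umat d v) S m (k / d) then 0 else 1) ≤ 1 / 2 := by
    intro m k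
    by_cases h : k ≤ d ∧ Adm d m k
    · obtain ⟨hk, c, J, γ, δ, M, -, a1, a2, a3, a4, a5, a6, a7, a8, a9, a10, a11, a12, a13, a14,
        a15, a16⟩ := h
      obtain ⟨F, g1, g2, g3⟩ := X.rip_core hk (le_trans (by norm_num) hd) a1 a2 a3 a4 a5 a6 a7 a8
        a9 a10 a11 a12 a13 a14 a15 a16
      exact ⟨F, g1, g2, fun v hv hF _ _ => g3 v hv hF⟩
    · exact ⟨fun _ => 0, fun _ => le_rfl, by rw [Dist.const]; positivity,
        fun v _ _ hk hA => absurd ⟨hk, hA⟩ h⟩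
  choose F g1 g2 g3 using key
  have h1 : (X.P 0).E (fun v => F0 v + ∑ m ∈ Icc 1 d, ∑ k ∈ Icc 1 d, F m k v) < 1 := by
    rw [Dist.add, Dist.sum]
    have h2 : ∀ m ∈ Icc 1 d, (X.P 0).E (fun v => ∑ k ∈ Icc 1 d, F m k v) ≤
        d * (1 / (4 * (d : ℝ) ^ 2)) := by
      intro m _
      rw [Dist.sum]
      refine (sum_le_sum fun k _ => g2 m k).trans ?_
      simp
    have h3 := sum_le_sum h2
    simp only [sum_const, Nat.card_Icc, add_tsub_cancel_right, nsmul_eq_mul] at h3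
    have e : (d : ℝ) * (d * (1 / (4 * (d : ℝ) ^ 2))) = 1 / 4 := by field_simp
    linarith
  obtain ⟨v, hv, h2⟩ := Dist.exists_lt _ h1
  have s0 : 0 ≤ ∑ m ∈ Icc 1 d, ∑ k ∈ Icc 1 d, F m k v :=
    sum_nonneg fun m _ => sum_nonneg fun k _ => g1 m k v
  have := f1 v
  refine ⟨Umat d v, fun x => ?_, f3 v hv (by linarith), fun m k hk hA => g3 m k v hv ?_ hk hA⟩
  · simp only [Umat_mul]; exact Umat_iso (X.onS 0 (Nat.zero_le d) v hv) x
  · obtain ⟨c, J, γ, δ, M, -, a1, a2, a3, -⟩ := hA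
    have h4 := single_le_sum (f := fun k => F m k v) (fun k _ => g1 m k v)
      (mem_Icc.2 ⟨(by omega : 1 ≤ k), hk⟩)
    have h5 := single_le_sum (f := fun m => ∑ k ∈ Icc 1 d, F m k v)
      (fun m _ => sum_nonneg fun k _ => g1 m k v) (mem_Icc.2 ⟨a1, a2⟩)
    linarith

theorem pow_trick {k c d t : ℕ} (hK : k ^ c * d ≤ d ^ c) (hc : 1 ≤ c) (ht : t ^ c ≤ d) :
    k * t ≤ d := by
  have h1 : (k * t) ^ c ≤ d ^ c := by
    rw [mul_pow]; exact (Nat.mul_le_mul_left _ ht).trans hK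
  exact (Nat.pow_le_pow_iff_left (by omega)).1 h1

theorem exists_adm {ε : ℝ} (h0 : 0 < ε) : ∃ (C : ℝ) (d0 : ℕ), 0 ≤ C ∧ ∀ d m : ℕ, d0 ≤ d → 1 ≤ m →
    (m : ℝ) ≤ (d : ℝ) ^ (1 - ε) → ∃ k ≤ d, (k : ℝ) ≤ C * m * Real.log d ∧ Adm d m k := by
  obtain ⟨c, hc⟩ : ∃ c, c = ⌈2 / ε⌉₊ := ⟨_, rfl⟩
  have hc1 : 2 / ε ≤ c := hc ▸ Nat.le_ceil _
  have hc2 : 1 ≤ c := hc ▸ Nat.ceil_pos.2 (by positivity)
  have hc3 : (1 : ℝ) ≤ c := by exact_mod_cast hc2
  obtain ⟨δ, hδ⟩ : ∃ δ : ℝ, δ = 1 / (2000 * 52000000 * 16 * c) := ⟨_, rfl⟩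
  have hδ0 : 0 < δ := by rw [hδ]; positivity
  have hδ1 : δ ≤ 1 / 6000 := by
    rw [hδ]; exact one_div_le_one_div_of_le (by norm_num) (by linarith)
  obtain ⟨M, hM⟩ : ∃ M : ℝ, M = 576 / δ + 1 := ⟨_, rfl⟩
  have hM1 : 1 ≤ M := by rw [hM]; have : 0 < 576 / δ := by positivity
                         linarith
  have hM2 : 72 * Real.exp (-(M ^ 2 / 8)) ≤ δ := by
    have h1 := Real.add_one_le_exp (M ^ 2 / 8)
    have h2 : 72 / δ ≤ Real.exp (M ^ 2 / 8) := by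
      have : 576 / δ = 8 * (72 / δ) := by ring
      nlinarith
    rw [Real.exp_neg, ← div_eq_mul_inv, div_le_iff₀ (Real.exp_pos _)]
    rw [div_le_iff₀ hδ0] at h2; linarith
  obtain ⟨γ, hγ⟩ : ∃ γ : ℝ, γ = min δ (1 / (400 * (78732 * M ^ 2) ^ 2)) := ⟨_, rfl⟩
  have hγ0 : 0 < γ := by rw [hγ]; exact lt_min hδ0 (by positivity)
  have hγ1 : γ ≤ δ := hγ ▸ min_le_left _ _
  have hγ2 : γ ≤ 1 / (400 * (78732 * M ^ 2) ^ 2) := hγ ▸ min_le_right _ _
  obtain ⟨J0, hJ0⟩ := exists_pow_lt_of_lt_one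
    (show (0 : ℝ) < 1 / (2000 * 240 * 64 * c) by positivity) sg_lt
  have hC : 0 < 16 / γ + 2 := by positivity
  have hev := ((isLittleO_log_rpow_atTop (show 0 < ε / 2 by positivity)).bound
    (show 0 < 1 / (16 / γ + 2) by positivity))
  obtain ⟨d1, hd1⟩ := Filter.eventually_atTop.1 (tendsto_natCast_atTop_atTop.eventually hev)
  refine ⟨16 / γ + 2, max (max d1 (2 ^ 50)) ((2 ^ (J0 + 2)) ^ c), hC.le, fun d m hd hm hmd => ?_⟩
  have e1 : d1 ≤ d := le_trans (le_trans (le_max_left _ _) (le_max_left _ _)) hd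
  have e2 : 2 ^ 50 ≤ d := le_trans (le_trans (le_max_right _ _) (le_max_left _ _)) hd
  have e3 : (2 ^ (J0 + 2)) ^ c ≤ d := le_trans (le_max_right _ _) hd
  have hd2 : (2 : ℝ) ≤ d := by exact_mod_cast (le_trans (by norm_num) e2 : 2 ≤ d)
  have hd0 : (0 : ℝ) < d := by linarith
  have hm' : (1 : ℝ) ≤ m := by exact_mod_cast hm
  have hlog : 1 / 2 ≤ Real.log d :=
    le_trans (by linarith [Real.log_two_gt_d9]) (Real.log_le_log (by norm_num) hd2)
  have hml : 1 / 2 ≤ m * Real.log d := by nlinarith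
  obtain ⟨k, hk⟩ : ∃ k, k = ⌈16 / γ * (m * Real.log d)⌉₊ := ⟨_, rfl⟩
  have k1 : 16 / γ * (m * Real.log d) ≤ k := hk ▸ Nat.le_ceil _
  have k2 : (k : ℝ) < 16 / γ * (m * Real.log d) + 1 := hk ▸ Nat.ceil_lt_add_one (by positivity)
  have k3 : (k : ℝ) ≤ (16 / γ + 2) * m * Real.log d := by linarith
  have k4 : 5000 ≤ k := by
    have h1 : 96000 ≤ 16 / γ := by rw [le_div_iff₀ hγ0]; linarith
    have h2 : (96000 : ℝ) * (1 / 2) ≤ 16 / γ * (m * Real.log d) :=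
      mul_le_mul h1 hml (by norm_num) (by positivity)
    have : (5000 : ℝ) ≤ k := by linarith
    exact_mod_cast this
  have k5 : (k : ℝ) ≤ (d : ℝ) ^ (1 - ε / 2) := by
    have h1 := hd1 d e1
    rw [Real.norm_eq_abs, Real.norm_eq_abs, abs_of_nonneg (by linarith),
      abs_of_nonneg (by positivity), one_div, ← div_eq_inv_mul, le_div_iff₀ hC] at h1
    have e : (d : ℝ) ^ (1 - ε / 2) = (d : ℝ) ^ (1 - ε) * (d : ℝ) ^ (ε / 2) := by
      rw [← Real.rpow_add hd0]; congr 1; ring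
    rw [e]
    calc _ ≤ m * (Real.log d * (16 / γ + 2)) := by linarith
      _ ≤ _ := mul_le_mul hmd h1 (by positivity) (by positivity)
  have k6 : k ^ c * d ≤ d ^ c := by
    have h1 : (k : ℝ) ^ c * d ≤ (d : ℝ) ^ c := by
      calc (k : ℝ) ^ c * d ≤ ((d : ℝ) ^ (1 - ε / 2)) ^ c * (d : ℝ) ^ (1 : ℝ) := by
            rw [Real.rpow_one]; gcongr
        _ = (d : ℝ) ^ ((1 - ε / 2) * c + 1) := by
            rw [← Real.rpow_natCast, ← Real.rpow_mul hd0.le, ← Real.rpow_add hd0]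
        _ ≤ (d : ℝ) ^ (c : ℝ) := by
            refine Real.rpow_le_rpow_of_exponent_le (by linarith) ?_
            rw [div_le_iff₀ h0] at hc1; linarith
        _ = _ := Real.rpow_natCast _ _
    exact_mod_cast h1
  have k7 : k * 2 ^ (J0 + 2) ≤ d := pow_trick k6 hc2 e3
  have k8 : 2 ^ J0 ≤ d / (4 * k) := by
    rw [Nat.le_div_iff_mul_le (by omega)]
    rw [pow_add] at k7; nlinarith
  have b0 : 0 < d / (4 * k) := lt_of_lt_of_le (by positivity) k8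
  obtain ⟨J, hJ⟩ : ∃ J, J = Nat.log 2 (d / (4 * k)) := ⟨_, rfl⟩
  have b1 : 2 ^ J ≤ d / (4 * k) := hJ ▸ Nat.pow_log_le_self 2 b0.ne'
  have b2 : d / (4 * k) < 2 ^ (J + 1) := hJ ▸ Nat.lt_pow_succ_log_self (by norm_num) _
  have b3 : 4 * k ≤ d / 2 ^ J := by
    rw [Nat.le_div_iff_mul_le (by positivity), mul_comm]
    exact (Nat.le_div_iff_mul_le (by omega)).1 b1
  have b4 : d < 2 ^ (J + 1) * (4 * k) := (Nat.div_lt_iff_lt_mul (by omega)).1 b2
  have b5 : J0 ≤ J := hJ ▸ (Nat.le_log_iff_pow_le (by norm_num) b0.ne').2 k8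
  have hkd : k ≤ d := by have := Nat.div_le_self d (2 ^ J); omega
  have hmd' : m ≤ d := by
    have : (d : ℝ) ^ (1 - ε) ≤ (d : ℝ) ^ (1 : ℝ) :=
      Real.rpow_le_rpow_of_exponent_le (by linarith) (by linarith)
    rw [Real.rpow_one] at this
    exact_mod_cast hmd.trans this
  refine ⟨k, hkd, k3, c, J, γ, δ, M, e2, hm, hmd', k4, hc2, b3, ?_, k6, hγ0, hγ1.trans hδ1,
    hδ0.le, hM1, hM2, ?_, hγ2, ?_, ?_⟩
  · rw [pow_succ] at b4; nlinarith
  · have h1 : 52000000 * (8 * c * (δ + γ)) ≤ 52000000 * (8 * c * (δ + δ)) := by gcongr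
    refine h1.trans (le_of_eq ?_)
    rw [hδ]; field_simp; norm_num
  · have h1 : sg ^ J ≤ 1 / (2000 * 240 * 64 * c) :=
      (pow_le_pow_of_le_one sg_pos.le sg_lt.le b5).trans hJ0.le
    calc _ ≤ 240 * (1 / (2000 * 240 * 64 * c)) * (64 * (c : ℝ)) := by gcongr
      _ = _ := by field_simp
  · rw [div_mul_eq_mul_div, div_le_iff₀ hγ0] at k1; linarith

theorem split_re_im {d : ℕ} (U : Matrix (Fin d) (Fin d) ℝ) (S : Finset (Fin d)) (x : Fin d → ℂ) :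
    ∑ a ∈ S, ‖∑ j, (U a j : ℂ) * x j‖ ^ 2 =
      ∑ a ∈ S, (∑ j, U a j * (x j).re) ^ 2 + ∑ a ∈ S, (∑ j, U a j * (x j).im) ^ 2 := by
  rw [← sum_add_distrib]
  refine sum_congr rfl fun a _ => ?_
  rw [Complex.sq_norm, Complex.normSq_apply]
  simp [sq]

theorem hasRIP_of_RR {d m : ℕ} (U : Matrix (Fin d) (Fin d) ℝ) (S : Finset (Fin d)) {κ : ℝ}
    (hκ : 0 < κ) (h : RR U S m κ) : HasRIP (U.map (fun r : ℝ => (r : ℂ))) S m := by
  refine ⟨Real.sqrt (2 / κ), by positivity, fun x hx => ?_⟩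
  have h1 := h (WithLp.toLp 2 fun j => (x j).re) (le_trans (card_le_card fun j hj => by
    simp only [mem_filter, mem_univ, true_and] at hj ⊢
    intro h0; exact hj (by simp [h0])) hx)
  have h2 := h (WithLp.toLp 2 fun j => (x j).im) (le_trans (card_le_card fun j hj => by
    simp only [mem_filter, mem_univ, true_and] at hj ⊢
    intro h0; exact hj (by simp [h0])) hx)
  rw [EuclideanSpace.real_norm_sq_eq] at h1 h2
  have e : ∑ j, ‖x j‖ ^ 2 = ∑ j, (x j).re ^ 2 + ∑ j, (x j).im ^ 2 := by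
    rw [← sum_add_distrib]
    refine sum_congr rfl fun a _ => ?_
    rw [Complex.sq_norm, Complex.normSq_apply]; ring
  simp only [Matrix.map_apply]
  rw [split_re_im, e, ← Real.sqrt_mul (by positivity)]
  set A := ∑ j, (x j).re ^ 2
  set B := ∑ j, (x j).im ^ 2
  set P := ∑ a ∈ S, (∑ j, U a j * (x j).re) ^ 2
  set Q := ∑ a ∈ S, (∑ j, U a j * (x j).im) ^ 2
  constructor
  · refine Real.sqrt_le_sqrt ?_
    rw [div_mul_eq_mul_div, le_div_iff₀ hκ]; linarith [h1.1, h2.1]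
  · have e2 : 2 * Real.sqrt (A + B) = Real.sqrt (4 * (A + B)) := by
      rw [Real.sqrt_mul (by norm_num), show (4 : ℝ) = 2 ^ 2 by norm_num, Real.sqrt_sq (by norm_num)]
    rw [e2]
    refine Real.sqrt_le_sqrt ?_
    rw [div_mul_eq_mul_div, div_le_iff₀ hκ]; linarith [h1.2, h2.2]

theorem unitary_of_iso {d : ℕ} (U : Matrix (Fin d) (Fin d) ℝ)
    (hU : ∀ x : EV d, ∑ a, (∑ y, U a y * x y) ^ 2 = ‖x‖ ^ 2) :
    U.map (fun r : ℝ => (r : ℂ)) ∈ Matrix.unitaryGroup (Fin d) ℂ := by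
  have h1 : ∀ i, ∑ a, U a i ^ 2 = 1 := by
    intro i
    have := hU (ee d i)
    simpa [ee, Pi.single_apply] using this
  have h2 : ∀ i j, ∑ a, U a i * U a j = if i = j then 1 else 0 := by
    intro i j
    split_ifs with h
    · subst h; simpa [sq] using h1 i
    · have h3 := hU (ee d i + ee d j)
      have h4 : ‖ee d i + ee d j‖ ^ 2 = 2 := by
        rw [norm_add_sq_real]
        simp [ee, EuclideanSpace.inner_single_left, h]; norm_num
      have h5 : ∀ a, ∑ y, U a y * (ee d i + ee d j) y = U a i + U a j := by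
        intro a
        simp [ee, Pi.single_apply, mul_add, sum_add_distrib]
      simp only [h5, h4, add_sq, sum_add_distrib, h1, mul_assoc, ← mul_sum] at h3
      linarith
  rw [Matrix.mem_unitaryGroup_iff']
  ext i j
  simp only [Matrix.mul_apply, Matrix.star_apply, Matrix.map_apply, Matrix.one_apply,
    Complex.star_def, Complex.conj_ofReal]
  rw [← Complex.ofReal_one, ← Complex.ofReal_zero, ← apply_ite, ← h2]
  push_cast; rfl

open Classical in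
theorem main : ∃ (K : ℝ) (U : ∀ d : ℕ, Matrix (Fin d) (Fin d) ℂ),
    (∀ d, U d ∈ Matrix.unitaryGroup (Fin d) ℂ) ∧ (∀ d i j, ‖U d i j‖ ≤ K / Real.sqrt d) ∧
    ∀ ε : ℝ, 0 < ε → ε < 1 → ∃ C : ℝ, ∀ d m : ℕ, 2 ≤ d → 1 ≤ m → (m : ℝ) ≤ (d : ℝ) ^ (1 - ε) →
      ∃ k : ℕ, k ≤ d ∧ (k : ℝ) ≤ C * m * Real.log d ∧
        d.choose k ≤ 2 * #((powersetCard k (univ : Finset (Fin d))).filter
          fun S => HasRIP (U d) S m) := by
  choose U u1 u2 u3 using per_d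
  refine ⟨2 ^ 25, fun d => (U d).map (fun r : ℝ => (r : ℂ)), fun d => unitary_of_iso _ (u1 d),
    fun d i j => by simpa using u2 d i j, fun ε h0 _ => ?_⟩
  obtain ⟨C, d0, hC, h⟩ := exists_adm h0
  refine ⟨C + 2 * d0, fun d m hd hm hmd => ?_⟩
  have hd2 : (2 : ℝ) ≤ d := by exact_mod_cast hd
  have hm' : (1 : ℝ) ≤ m := by exact_mod_cast hm
  have hlog : 1 / 2 ≤ Real.log d :=
    le_trans (by linarith [Real.log_two_gt_d9]) (Real.log_le_log (by norm_num) hd2)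
  have hml : 1 / 2 ≤ m * Real.log d := by nlinarith
  have hd00 : (0 : ℝ) ≤ d0 := Nat.cast_nonneg _
  by_cases hbig : d0 ≤ d
  · obtain ⟨k, hk, k1, hA⟩ := h d m hbig hm hmd
    have h1 := u3 d m k hk hA
    obtain ⟨c, J, γ, δ, M, -, -, -, k2, -⟩ := hA
    refine ⟨k, hk, by nlinarith, ?_⟩
    have hc : (0 : ℝ) < d.choose k := by exact_mod_cast Nat.choose_pos hk
    have hκ : (0 : ℝ) < k / d := by
      have : (0 : ℝ) < k := by exact_mod_cast (by omega : 0 < k)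
      positivity
    rw [samp_E, div_le_iff₀ hc] at h1
    have h2 : ∑ S ∈ powersetCard k (univ : Finset (Fin d)), (1 - if HasRIP
        ((U d).map (fun r : ℝ => (r : ℂ))) S m then (1 : ℝ) else 0) ≤
        ∑ S ∈ powersetCard k (univ : Finset (Fin d)),
          if RR (U d) S m (k / d) then (0 : ℝ) else 1 := sum_le_sum fun S _ => by
      by_cases hR : RR (U d) S m (k / d)
      · rw [if_pos hR, if_pos (hasRIP_of_RR _ S hκ hR)]; norm_num
      · rw [if_neg hR]; split_ifs <;> norm_num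
    rw [sum_sub_distrib, sum_boole, sum_const, card_powersetCard, card_univ, Fintype.card_fin,
      nsmul_eq_mul, mul_one] at h2
    have h3 : (d.choose k : ℝ) ≤ 2 * #((powersetCard k (univ : Finset (Fin d))).filter
        fun S => HasRIP ((U d).map (fun r : ℝ => (r : ℂ))) S m) := by linarith
    exact_mod_cast h3
  · refine ⟨d, le_rfl, ?_, ?_⟩
    · have : (d : ℝ) ≤ d0 := by exact_mod_cast (not_le.1 hbig).le
      nlinarith
    · have h1 : HasRIP ((U d).map (fun r : ℝ => (r : ℂ))) univ m :=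
        hasRIP_of_RR _ univ one_pos fun x _ => by
          rw [u1 d x]; constructor <;> nlinarith [sq_nonneg ‖x‖]
      have h2 : 0 < #((powersetCard d (univ : Finset (Fin d))).filter
          fun S => HasRIP ((U d).map (fun r : ℝ => (r : ℂ))) S m) :=
        card_pos.2 ⟨univ, mem_filter.2 ⟨mem_powersetCard.2 ⟨subset_rfl, by simp⟩, h1⟩⟩
      rw [Nat.choose_self]
      exact le_trans h2 (Nat.le_mul_of_pos_left _ (by norm_num))

end Pool.Agent.H576Z.RIP
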