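import Pool.Agent.H576Z.RIP.Step

namespace Pool.Agent.H576Z.RIP

open Finset
open scoped RealInnerProductSpace

variable {W : Type*} [NormedAddCommGroup W] [InnerProductSpace ℝ W] [FiniteDimensional ℝ W]

theorem gen_aux {Y : Type*} [Fintype Y] {n : ℕ} (hn : Module.finrank ℝ W = n) (hn0 : 0 < n)
    (f : Y → W) (hB : ∀ θ : W, ∑ y, ⟪f y, θ⟫ ^ 2 ≤ ‖θ‖ ^ 2)
    {L h : ℝ} (hL : 0 < L) (hf : ∀ y, 24000000 * ‖f y‖ ^ 2 ≤ L ^ 4)
    (h0 : 0 < h) (hh : h * n ^ 3 ≤ 1 / 5) (t : ℕ) (ht : t * h ≤ 1) :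
    ∃ D : Dist W, (∀ g ∈ D.S, ∀ y, |⟪f y, g⟫| < L) ∧
      (∀ y, D.E (fun g => bw L ⟪f y, g⟫) ≤ (1 + h) ^ t * (2 / 60000)) ∧
      (∀ θ : W, ‖θ‖ ≤ n → D.E (fun g => Real.exp ⟪θ, g⟫) ≤ Real.exp (t * h * ‖θ‖ ^ 2)) ∧
      (∀ θ : W, t * h * (1 - 1 / 10000) * ‖θ‖ ^ 2 ≤ D.E (fun g => ⟪θ, g⟫ ^ 2)) ∧
      D.E (fun g => ‖g‖ ^ 2) ≤ t * h * n ∧
      D.E (fun g => (‖g‖ ^ 2) ^ 2) ≤ (t * h * n) ^ 2 + 4 * (t * h * n) := by
  classical
  induction t with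
  | zero =>
    refine ⟨Dist.pure 0, ?_, ?_, ?_, ?_, ?_, ?_⟩
    · intro g hg y
      rw [Dist.pure_S, Set.mem_singleton_iff] at hg
      simp [hg, hL]
    · intro y; simp [bw]; norm_num
    · intro θ _; simp
    · intro θ; simp
    · simp
    · simp
  | succ t ih =>
    have hnR : (0 : ℝ) < n := by exact_mod_cast hn0
    push_cast at ht ⊢
    have ht' : t * h ≤ 1 := by linarith
    obtain ⟨D, d1, d2, d3, d4, d5, d6⟩ := ih ht'
    have hstep := fun g hg => step hn hn0 f hL hf h0 hh g hg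
    haveI : Nonempty (Dist W) := ⟨Dist.pure 0⟩
    choose! K k1 k2 k3 k4 k5 k6 using hstep
    have hpow : (1 + h) ^ t ≤ 3 := by
      have h1 : (1 + h) ^ t ≤ Real.exp h ^ t :=
        pow_le_pow_left₀ (by positivity) (by linarith [Real.add_one_le_exp h]) t
      rw [← Real.exp_nat_mul] at h1
      have h2 : Real.exp (t * h) ≤ Real.exp 1 := Real.exp_le_exp.2 ht'
      have h3 := Real.exp_one_lt_d9
      linarith
    refine ⟨D.bind K (fun _ g' => g'), ?_, ?_, ?_, ?_, ?_, ?_⟩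
    · intro g' hg'
      obtain ⟨g, hg, g'', hg'', rfl⟩ := (Dist.bind_S _ _ _ _).1 hg'
      exact k1 g (d1 g hg) _ hg''
    · intro y
      rw [Dist.bind_E]
      refine (D.mono fun g hg => k2 g (d1 g hg) y).trans ?_
      rw [D.mul_left, pow_succ]
      have := mul_le_mul_of_nonneg_left (d2 y) (by positivity : 0 ≤ 1 + h)
      linarith
    · intro θ hθ
      rw [Dist.bind_E]
      refine (D.mono fun g hg => k3 g (d1 g hg) θ hθ).trans ?_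
      rw [D.mul_right]
      have := mul_le_mul_of_nonneg_right (d3 θ hθ) (Real.exp_pos (h * ‖θ‖ ^ 2)).le
      rw [← Real.exp_add] at this
      convert this using 2; ring
    · intro θ
      rw [Dist.bind_E]
      refine le_trans ?_ (D.mono fun g hg => k4 g (d1 g hg) θ)
      rw [D.add, D.mul_left, D.sub, D.const, D.sum]
      have h1 : ∑ y, D.E (fun g => bw L ⟪f y, g⟫ * ⟪f y, θ⟫ ^ 2) ≤
          ∑ y, (1 / 10000) * ⟪f y, θ⟫ ^ 2 := by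
        refine sum_le_sum fun y _ => ?_
        rw [D.mul_right]
        refine mul_le_mul_of_nonneg_right ?_ (sq_nonneg _)
        have := d2 y
        linarith
      rw [← mul_sum] at h1
      have h2 := hB θ
      have h3 := d4 θ
      have h4 : h * ((1 - 1 / 10000) * ‖θ‖ ^ 2) ≤ h * (‖θ‖ ^ 2 -
          ∑ y, D.E (fun g => bw L ⟪f y, g⟫ * ⟪f y, θ⟫ ^ 2)) :=
        mul_le_mul_of_nonneg_left (by linarith) h0.le
      linarith
    · rw [Dist.bind_E]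
      refine (D.mono fun g hg => k5 g (d1 g hg)).trans ?_
      rw [D.add, D.const]; linarith
    · rw [Dist.bind_E]
      refine (D.mono fun g hg => k6 g (d1 g hg)).trans ?_
      have e : (fun g : W => (‖g‖ ^ 2 + h * n) ^ 2 + 4 * h * ‖g‖ ^ 2) = fun g =>
          (‖g‖ ^ 2) ^ 2 + ((2 * h * n + 4 * h) * ‖g‖ ^ 2 + (h * n) ^ 2) := by
        funext g; ring
      rw [e, D.add, D.add, D.mul_left, D.const]
      have h1 := mul_le_mul_of_nonneg_left d5 (by positivity : 0 ≤ 2 * h * n + 4 * h)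
      have h2 : 4 * h * (t * h * n) ≤ 4 * h * n := by
        have := mul_le_mul_of_nonneg_left ht' (by positivity : 0 ≤ 4 * h * n)
        linarith
      nlinarith

theorem gen {Y : Type*} [Fintype Y] {n : ℕ} (hn : Module.finrank ℝ W = n) (hn0 : 0 < n)
    (f : Y → W) (hB : ∀ θ : W, ∑ y, ⟪f y, θ⟫ ^ 2 ≤ ‖θ‖ ^ 2)
    {L : ℝ} (hL : 0 < L) (hf : ∀ y, 24000000 * ‖f y‖ ^ 2 ≤ L ^ 4) :
    ∃ D : Dist W, (∀ g ∈ D.S, ∀ y, |⟪f y, g⟫| < L) ∧
      (∀ θ : W, ‖θ‖ ≤ n → D.E (fun g => Real.exp ⟪θ, g⟫) ≤ Real.exp (‖θ‖ ^ 2)) ∧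
      (∀ θ : W, (1 - 1 / 10000) * ‖θ‖ ^ 2 ≤ D.E (fun g => ⟪θ, g⟫ ^ 2)) ∧
      D.E (fun g => (‖g‖ ^ 2 - n) ^ 2) ≤ 4 * n + 2 / 10000 * n ^ 2 := by
  have hnR : (0 : ℝ) < n := by exact_mod_cast hn0
  have e : ((5 * n ^ 3 : ℕ) : ℝ) * (1 / (5 * n ^ 3)) = 1 := by push_cast; field_simp
  obtain ⟨D, d1, -, d3, d4, -, d6⟩ := gen_aux hn hn0 f hB hL hf (h := 1 / (5 * n ^ 3))
    (by positivity) (by apply le_of_eq; field_simp) (5 * n ^ 3) e.le
  rw [e] at d3 d4 d6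
  simp only [one_mul] at d3 d4 d6
  refine ⟨D, d1, d3, d4, ?_⟩
  let b := (stdOrthonormalBasis ℝ W).reindex (finCongr hn)
  have hP : ∀ g : W, ‖g‖ ^ 2 = ∑ i, ⟪b i, g⟫ ^ 2 := by
    intro g
    rw [← real_inner_self_eq_norm_sq, ← b.sum_inner_mul_inner g g]
    congr 1; funext i; rw [real_inner_comm (b i) g]; ring
  have h1 : (1 - 1 / 10000) * (n : ℝ) ≤ D.E (fun g => ‖g‖ ^ 2) := by
    simp only [hP]
    rw [D.sum]
    calc _ = ∑ i : Fin n, (1 - 1 / 10000) * ‖b i‖ ^ 2 := by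
          simp [b.orthonormal.1]; ring
      _ ≤ _ := sum_le_sum fun i _ => d4 _
  have e2 : (fun g : W => (‖g‖ ^ 2 - n) ^ 2) = fun g =>
      (‖g‖ ^ 2) ^ 2 + ((-2 * n) * ‖g‖ ^ 2 + (n : ℝ) ^ 2) := by
    funext g; ring
  rw [e2, D.add, D.add, D.mul_left, D.const]
  nlinarith

end Pool.Agent.H576Z.RIP
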