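import Pool.Agent.H576Z.RIP.Net

namespace Pool.Agent.H576Z.RIP

open Finset Function

theorem cnt_univ_le (d j i : ℕ) : cnt (univ : Finset (Fin d)) j i ≤ 2 ^ j := by
  unfold cnt
  refine le_trans ?_ (card_range (2 ^ j)).le
  refine card_le_card_of_injOn (fun a => a.val % 2 ^ j) ?_ ?_
  · intro a _
    exact mem_coe.2 (mem_range.2 (Nat.mod_lt _ (by positivity)))
  · intro a ha b hb he
    simp only [coe_filter, Set.mem_setOf_eq] at ha hb he
    apply Fin.ext
    rw [← Nat.div_add_mod a.val (2 ^ j), ← Nat.div_add_mod b.val (2 ^ j), ha.2, hb.2, he]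

theorem cnt_supp {d : ℕ} (S : Finset (Fin d)) (j n1 n2 : ℕ) :
    #((Ico n1 n2).filter fun q => (cnt S j (q - n1) : ℝ) ≠ 0) ≤ #S := by
  refine le_trans (card_le_card (t := S.image fun a => n1 + a.val / 2 ^ j) ?_) card_image_le
  intro q hq
  rw [mem_filter, mem_Ico, Nat.cast_ne_zero, cnt, card_ne_zero] at hq
  obtain ⟨a, ha⟩ := hq.2
  rw [mem_filter] at ha
  exact mem_image.2 ⟨a, ha.1, by omega⟩

theorem mu_pow_le {d k c j : ℕ} (hd : 0 < d) (h1 : (k : ℝ) / d * 2 ^ j ≤ 1 / 2)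
    (hK : k ^ c * d ≤ d ^ c) : ((k : ℝ) / d * 2 ^ j) ^ (8 * c * (j + 1)) ≤ (1 / (d : ℝ)) ^ 4 := by
  have hd' : (0 : ℝ) < d := by exact_mod_cast hd
  have hK' : ((k : ℝ) / d) ^ c ≤ 1 / d := by
    rw [div_pow, div_le_div_iff₀ (by positivity) hd', one_mul]; exact_mod_cast hK
  have h0 : (0 : ℝ) ≤ k / d * 2 ^ j := by positivity
  by_cases h : ((2 : ℝ) ^ j) ^ (2 * c) ≤ d
  · have h2 : ((k : ℝ) / d * 2 ^ j) ^ (2 * c) ≤ 1 / d := by
      rw [mul_pow, mul_comm 2 c, pow_mul]
      have := pow_le_pow_left₀ (by positivity) hK' 2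
      rw [mul_comm 2 c] at h
      calc _ ≤ (1 / d) ^ 2 * (d : ℝ) := mul_le_mul this h (by positivity) (by positivity)
        _ = _ := by field_simp
    calc _ ≤ ((k : ℝ) / d * 2 ^ j) ^ (2 * c * 4) :=
          pow_le_pow_of_le_one h0 (by linarith) (by nlinarith)
      _ ≤ _ := by rw [pow_mul]; exact pow_le_pow_left₀ (by positivity) h2 4
  · push Not at h
    calc _ ≤ ((k : ℝ) / d * 2 ^ j) ^ (j * (2 * c) * 4) :=
          pow_le_pow_of_le_one h0 (by linarith) (by nlinarith)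
      _ ≤ (1 / 2 : ℝ) ^ (j * (2 * c) * 4) := pow_le_pow_left₀ h0 h1 _
      _ = (1 / ((2 : ℝ) ^ j) ^ (2 * c)) ^ 4 := by rw [pow_mul, pow_mul, one_div_pow, one_div_pow]
      _ ≤ _ := pow_le_pow_left₀ (by positivity) (one_div_le_one_div_of_le hd' h.le) 4

open Classical in
theorem good_prob {d k c J : ℕ} (hk : k ≤ d) (hd : 100 ≤ d) (hk0 : 0 < k)
    (hJ1 : 4 * k ≤ d / 2 ^ J) (hK : k ^ c * d ≤ d ^ c) :
    (samp d k hk).E (fun S => if ∀ j ≤ J, ∀ i, cnt S j i ≤ 8 * c * (j + 1) then 0 else 1) ≤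
      1 / 4 := by
  have hd' : (100 : ℝ) ≤ d := by exact_mod_cast hd
  have hd0 : (0 : ℝ) < d := by linarith
  have hJ : 4 * k * 2 ^ J ≤ d := (Nat.le_div_iff_mul_le (by positivity)).1 hJ1
  have hJd : J + 1 ≤ d := by
    have h1 : J < 2 ^ J := Nat.lt_two_pow_self
    nlinarith
  let A : ℕ → ℕ → Finset (Fin d) → ℝ := fun j i S => if 8 * c * (j + 1) <
    #(S.filter fun a => a ∈ (univ.filter fun a : Fin d => a.val / 2 ^ j = i)) then 1 else 0
  have hA0 : ∀ j i S, 0 ≤ A j i S := fun j i S => by simp only [A]; split_ifs <;> norm_num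
  have h1 : (samp d k hk).E (fun S => if ∀ j ≤ J, ∀ i, cnt S j i ≤ 8 * c * (j + 1) then 0 else 1) ≤
      (samp d k hk).E (fun S => ∑ j ∈ range (J + 1), ∑ i ∈ range d, A j i S) := by
    refine Dist.mono _ fun S _ => ?_
    split_ifs with h
    · exact sum_nonneg fun j _ => sum_nonneg fun i _ => hA0 j i S
    · push Not at h
      obtain ⟨j, hj, i, hi⟩ := h
      have hid : i < d := by
        have : 0 < cnt S j i := by omega
        obtain ⟨a, ha⟩ := card_pos.1 this
        have h2 := (mem_filter.1 ha).2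
        have h3 := Nat.div_le_self a.val (2 ^ j)
        have := a.2
        omega
      have h4 := single_le_sum (f := fun i => A j i S) (fun i _ => hA0 j i S) (mem_range.2 hid)
      have h5 := single_le_sum (f := fun j => ∑ i ∈ range d, A j i S)
        (fun j _ => sum_nonneg fun i _ => hA0 j i S) (mem_range.2 (Nat.lt_succ_of_le hj))
      have h6 : A j i S = 1 := if_pos (by simpa [cnt] using hi)
      linarith
  refine h1.trans ?_
  rw [Dist.sum]
  have h2 : ∀ j ∈ range (J + 1), (samp d k hk).E (fun S => ∑ i ∈ range d, A j i S) ≤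
      d * (3 * (1 / (d : ℝ)) ^ 4) := by
    intro j hj
    have hj' : j ≤ J := Nat.lt_succ_iff.1 (mem_range.1 hj)
    have hμ : (k : ℝ) / d * 2 ^ j ≤ 1 / 2 := by
      rw [div_mul_eq_mul_div, div_le_div_iff₀ hd0 (by norm_num)]
      have h3 : 2 ^ j ≤ 2 ^ J := Nat.pow_le_pow_right (by norm_num) hj'
      have h4 : k * 2 ^ j * 2 ≤ d := by nlinarith
      rw [one_mul]; exact_mod_cast h4
    rw [Dist.sum]
    refine (sum_le_sum fun i _ => (samp_cnt hk (by omega) hk0 _ (s := 2 ^ j) (by positivity)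
      (by exact_mod_cast cnt_univ_le d j i) (by linarith) _).trans
      (mul_le_mul_of_nonneg_left (mu_pow_le (by omega) hμ hK) (by norm_num))).trans ?_
    rw [sum_const, card_range, nsmul_eq_mul]
  refine (sum_le_sum h2).trans ?_
  rw [sum_const, card_range, nsmul_eq_mul]
  have h3 : ((J + 1 : ℕ) : ℝ) ≤ d := by exact_mod_cast hJd
  calc _ ≤ d * (d * (3 * (1 / (d : ℝ)) ^ 4)) := by gcongr
    _ = 3 / (d * d) := by field_simp
    _ ≤ _ := by rw [div_le_div_iff₀ (by positivity) (by norm_num)]; nlinarith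

theorem samp_swap {α : Type*} (D : Dist α) {d k : ℕ} (hk : k ≤ d) (f : α → Finset (Fin d) → ℝ) :
    D.E (fun v => (samp d k hk).E (f v)) = (samp d k hk).E (fun S => D.E (fun v => f v S)) := by
  simp only [samp_E, div_eq_mul_inv]
  rw [Dist.mul_right, Dist.sum]

end Pool.Agent.H576Z.RIP
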