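import Pool.Agent.H576Z.RIP.Unit

namespace Pool.Agent.H576Z.RIP

open Finset
open scoped RealInnerProductSpace

abbrev EV (d : ℕ) := EuclideanSpace ℝ (Fin d)

/-- Squared length of the part of `θ` orthogonal to the vectors already chosen. -/
noncomputable def Rm (d : ℕ) (v : ℕ → EV d) (n : ℕ) (θ : EV d) : ℝ :=
  ‖θ‖ ^ 2 - ∑ q ∈ Ico n d, ⟪v q, θ⟫ ^ 2

/-- The vectors with index in `[n, d)` are orthonormal. -/
def ON (d : ℕ) (v : ℕ → EV d) (n : ℕ) : Prop :=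
  ∀ q ∈ Ico n d, ∀ q' ∈ Ico n d, ⟪v q, v q'⟫ = if q = q' then 1 else 0

noncomputable def ee (d : ℕ) (y : Fin d) : EV d := EuclideanSpace.single y 1

structure KSpec (d n : ℕ) (v : ℕ → EV d) (D : Dist (EV d)) : Prop where
  unit : ∀ u ∈ D.S, ‖u‖ = 1 ∧ ∀ q ∈ Ico n d, ⟪v q, u⟫ = 0
  low : 20000 ≤ n → ∀ θ, Rm d v n θ / (5 * n) ≤ D.E (fun u => ⟪u, θ⟫ ^ 2)
  four : 20000 ≤ n → ∀ θ, D.E (fun u => (⟪u, θ⟫ ^ 2) ^ 2) ≤ 1200 * (Rm d v n θ) ^ 2 / n ^ 2
  exc : 20000 ≤ n → ∀ (θ : EV d) (ρ M μ : ℝ), 0 < ρ → Rm d v n θ ≤ ρ → 0 ≤ M → 0 ≤ μ →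
    2 * ρ * M ^ 2 / n ≤ μ ^ 2 →
    D.E (fun u => Real.exp (n / (16 * ρ) * ex ⟪u, θ⟫ μ ^ 2)) ≤ 1 + 72 * Real.exp (-(M ^ 2 / 8))
  bdd : 20000 ≤ n → ∀ L : ℝ, 0 < L → (∀ y, 24000000 * Rm d v n (ee d y) ≤ L ^ 4) →
    ∀ u ∈ D.S, ∀ y, ⟪u, ee d y⟫ ^ 2 ≤ 2 * L ^ 2 / n

noncomputable def prj (d : ℕ) (v : ℕ → EV d) (n : ℕ) (θ : EV d) : EV d :=
  θ - ∑ q ∈ Ico n d, ⟪v q, θ⟫ • v q

theorem inner_prj {d n : ℕ} {v : ℕ → EV d} (h : ON d v n) (θ : EV d) {q : ℕ} (hq : q ∈ Ico n d) :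
    ⟪v q, prj d v n θ⟫ = 0 := by
  unfold prj
  rw [inner_sub_right, inner_sum]
  have : ∑ q' ∈ Ico n d, ⟪v q, ⟪v q', θ⟫ • v q'⟫ = ∑ q' ∈ Ico n d,
      if q = q' then ⟪v q', θ⟫ else 0 := by
    refine sum_congr rfl fun q' hq' => ?_
    rw [inner_smul_right, h q hq q' hq']; split_ifs <;> simp
  rw [this, sum_ite_eq, if_pos hq, sub_self]

theorem prj_inner {d n : ℕ} (v : ℕ → EV d) (θ u : EV d) (hu : ∀ q ∈ Ico n d, ⟪v q, u⟫ = 0) :
    ⟪prj d v n θ, u⟫ = ⟪u, θ⟫ := by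
  unfold prj
  rw [inner_sub_left, sum_inner, sum_eq_zero, sub_zero, real_inner_comm]
  intro q hq
  rw [real_inner_smul_left, hu q hq, mul_zero]

theorem norm_prj {d n : ℕ} {v : ℕ → EV d} (h : ON d v n) (θ : EV d) :
    ‖prj d v n θ‖ ^ 2 = Rm d v n θ := by
  rw [← real_inner_self_eq_norm_sq, prj_inner v θ _ (fun q hq => inner_prj h θ hq)]
  unfold prj Rm
  rw [inner_sub_left, sum_inner, real_inner_self_eq_norm_sq]
  congr 1
  refine sum_congr rfl fun q _ => ?_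
  rw [real_inner_smul_left]; ring

theorem Rm_nonneg {d n : ℕ} {v : ℕ → EV d} (h : ON d v n) (θ : EV d) : 0 ≤ Rm d v n θ := by
  rw [← norm_prj h]; positivity

theorem parseval_ee {d : ℕ} (θ : EV d) : ∑ y, ⟪θ, ee d y⟫ ^ 2 = ‖θ‖ ^ 2 := by
  rw [EuclideanSpace.real_norm_sq_eq]
  congr 1; funext y
  simp [ee, EuclideanSpace.inner_single_right]

theorem finrank_compl {d n : ℕ} {v : ℕ → EV d} (h : ON d v n) (hn : n ≤ d) :
    Module.finrank ℝ (Submodule.span ℝ (Set.range fun q : Ico n d => v q))ᗮ = n := by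
  have ho : Orthonormal ℝ (fun q : Ico n d => v q) := by
    rw [orthonormal_iff_ite]
    intro i j
    rw [h i i.2 j j.2]
    by_cases hij : i = j
    · subst hij; simp
    · rw [if_neg hij, if_neg (fun h => hij (Subtype.ext h))]
  have h1 := finrank_span_eq_card ho.linearIndependent
  have h2 := Submodule.finrank_add_finrank_orthogonal
    (Submodule.span ℝ (Set.range fun q : Ico n d => v q))
  rw [h1, finrank_euclideanSpace_fin] at h2
  simp only [Fintype.card_coe, Nat.card_Ico] at h2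
  omega

theorem mem_compl {d n : ℕ} (v : ℕ → EV d) (u : EV d) :
    u ∈ (Submodule.span ℝ (Set.range fun q : Ico n d => v q))ᗮ ↔
      ∀ q ∈ Ico n d, ⟪v q, u⟫ = 0 := by
  rw [Submodule.mem_orthogonal]
  constructor
  · intro h q hq
    exact h _ (Submodule.subset_span ⟨⟨q, hq⟩, rfl⟩)
  · intro h w hw
    induction hw using Submodule.span_induction with
    | mem x hx => obtain ⟨q, rfl⟩ := hx; exact h q q.2
    | zero => simp
    | add x y _ _ hx hy => rw [inner_add_left, hx, hy, add_zero]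
    | smul a x _ hx => rw [real_inner_smul_left, hx, mul_zero]

theorem Rm_zero {d : ℕ} {v : ℕ → EV d} (h : ON d v 0) (θ : EV d) : Rm d v 0 θ = 0 := by
  have h1 := finrank_compl h (Nat.zero_le d)
  rw [Submodule.finrank_eq_zero] at h1
  have h2 := (mem_compl v (prj d v 0 θ)).2 fun q hq => inner_prj h θ hq
  rw [h1, Submodule.mem_bot] at h2
  rw [← norm_prj h, h2]; simp

theorem exists_kernel {d n : ℕ} {v : ℕ → EV d} (h : ON d v n) (hn1 : 1 ≤ n) (hn : n ≤ d) :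
    ∃ D : Dist (EV d), KSpec d n v D := by
  classical
  set V := (Submodule.span ℝ (Set.range fun q : Ico n d => v q))ᗮ with hV
  have hfin : Module.finrank ℝ V = n := finrank_compl h hn
  have hmem : ∀ u : V, ∀ q ∈ Ico n d, ⟪v q, (u : EV d)⟫ = 0 := fun u => (mem_compl v u).1 u.2
  by_cases hbig : 20000 ≤ n
  swap
  · have : Nontrivial V := Module.nontrivial_of_finrank_pos (R := ℝ) (by omega)
    obtain ⟨u, hu⟩ := exists_norm_eq V (zero_le_one' ℝ)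
    refine ⟨Dist.pure (u : EV d), ?_, fun h => absurd h hbig, fun h => absurd h hbig,
      fun h => absurd h hbig, fun h => absurd h hbig⟩
    intro w hw
    rw [Dist.pure_S, Set.mem_singleton_iff] at hw
    subst hw
    exact ⟨hu, hmem u⟩
  let π : EV d → V := fun θ => ⟨prj d v n θ, (mem_compl v _).2 fun q hq => inner_prj h θ hq⟩
  have hπ1 : ∀ θ (u : V), ⟪π θ, u⟫ = ⟪(u : EV d), θ⟫ := fun θ u => prj_inner v θ u (hmem u)
  have hπ2 : ∀ θ, ‖π θ‖ ^ 2 = Rm d v n θ := fun θ => norm_prj h θ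
  have hB : ∀ θ : V, ∑ y, ⟪π (ee d y), θ⟫ ^ 2 ≤ ‖θ‖ ^ 2 := by
    intro θ
    simp only [hπ1]
    exact (parseval_ee (θ : EV d)).le
  have : Nonempty (Fin d) := ⟨⟨0, by omega⟩⟩
  obtain ⟨y0, -, hy0⟩ := exists_max_image univ (fun y => Rm d v n (ee d y)) univ_nonempty
  obtain ⟨L0, hL0, hL1, hL2⟩ : ∃ L0 : ℝ, 0 < L0 ∧ (∀ y, 24000000 * ‖π (ee d y)‖ ^ 2 ≤ L0 ^ 4) ∧
      ∀ L : ℝ, 0 < L → (∀ y, 24000000 * Rm d v n (ee d y) ≤ L ^ 4) →
        L0 ≤ L ∨ ∀ y, π (ee d y) = 0 := by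
    rcases (Rm_nonneg h (ee d y0)).eq_or_lt with h0 | h0
    · have hz : ∀ y, π (ee d y) = 0 := by
        intro y
        have h1 := hy0 y (mem_univ y)
        rw [← h0, ← hπ2] at h1
        have : ‖π (ee d y)‖ = 0 := by nlinarith [norm_nonneg (π (ee d y))]
        exact norm_eq_zero.1 this
      exact ⟨1, one_pos, fun y => by rw [hz y]; simp, fun L _ _ => Or.inr hz⟩
    · have e : Real.sqrt (Real.sqrt (24000000 * Rm d v n (ee d y0))) ^ 4 =
          24000000 * Rm d v n (ee d y0) := by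
        rw [show (4 : ℕ) = 2 * 2 from rfl, pow_mul, Real.sq_sqrt (Real.sqrt_nonneg _),
          Real.sq_sqrt (by positivity)]
      refine ⟨Real.sqrt (Real.sqrt (24000000 * Rm d v n (ee d y0))), by positivity, fun y => ?_,
        fun L hL hL' => Or.inl ?_⟩
      · rw [e, hπ2]; have := hy0 y (mem_univ y); linarith
      · have := hL' y0
        rw [← e] at this
        exact le_of_pow_le_pow_left₀ (by norm_num) hL.le this
  obtain ⟨D, d1, d2, d3, d4⟩ := unitGen hfin hbig (fun y => π (ee d y)) hB hL0 hL1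
  have hE : ∀ F : EV d → ℝ, (D.bind (fun _ => Dist.pure ()) (fun u _ => (u : EV d))).E F =
      D.E (fun u => F u) := fun F => rfl
  refine ⟨D.bind (fun _ => Dist.pure ()) (fun u _ => (u : EV d)), ?_, ?_, ?_, ?_, ?_⟩
  · intro w hw
    obtain ⟨u, hu, -, -, rfl⟩ := (Dist.bind_S _ _ _ _).1 hw
    exact ⟨(d1 u hu).1, hmem u⟩
  · intro _ θ
    have := d2 (π θ)
    simp only [hπ1, hπ2] at this
    rw [hE]; exact this
  · intro _ θ
    have := d3 (π θ)
    simp only [hπ1, hπ2] at this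
    rw [hE]; exact this
  · intro _ θ ρ M μ h1 h2 h3 h4 h5
    have := d4 (π θ) ρ M μ h1 (by rw [hπ2]; exact h2) h3 h4 h5
    simp only [hπ1] at this
    rw [hE]; exact this
  · intro _ L hL hL' w hw y
    obtain ⟨u, hu, -, -, rfl⟩ := (Dist.bind_S _ _ _ _).1 hw
    have h1 := (d1 u hu).2 y
    rw [← hπ1]
    rcases hL2 L hL hL' with h2 | h2
    · refine h1.trans ?_
      have : (0 : ℝ) < n := by positivity
      gcongr
    · rw [h2 y]; simp; positivity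

end Pool.Agent.H576Z.RIP
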