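import Pool.Agent.H576Z.RIP.Tails

namespace Pool.Agent.H576Z.RIP

open Finset

/-- Haar type mixing of a finite sequence. -/
noncomputable def mix (z : ℕ → ℝ) (n a : ℕ) : ℝ :=
  if _h : a / 2 < n / 2 then
    (z (n / 2 + a / 2) + (if a % 2 = 0 then 1 else -1) * mix z (n / 2) (a / 2)) / Real.sqrt 2
  else z (n / 2 + a / 2)
termination_by n
decreasing_by omega

theorem mix_pos (z : ℕ → ℝ) {n a : ℕ} (h : a / 2 < n / 2) : mix z n a =
    (z (n / 2 + a / 2) + (if a % 2 = 0 then 1 else -1) * mix z (n / 2) (a / 2)) / Real.sqrt 2 := by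
  rw [mix, dif_pos h]

theorem mix_neg (z : ℕ → ℝ) {n a : ℕ} (h : ¬ a / 2 < n / 2) : mix z n a = z (n / 2 + a / 2) := by
  rw [mix, dif_neg h]

theorem mix_sum {ι : Type*} (s : Finset ι) (x : ι → ℝ) (z : ι → ℕ → ℝ) (n a : ℕ) :
    mix (fun q => ∑ y ∈ s, z y q * x y) n a = ∑ y ∈ s, mix (z y) n a * x y := by
  induction n using Nat.strong_induction_on generalizing a with
  | _ n ih =>
    by_cases h : a / 2 < n / 2
    · rw [mix_pos _ h, ih (n / 2) (by omega), mul_sum, ← sum_add_distrib, sum_div]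
      refine sum_congr rfl fun y _ => ?_
      rw [mix_pos _ h]; ring
    · rw [mix_neg _ h]
      exact sum_congr rfl fun y _ => by rw [mix_neg _ h]

theorem sum_range_pair (F : ℕ → ℝ) (m : ℕ) :
    ∑ a ∈ range (2 * m), F a = ∑ i ∈ range m, (F (2 * i) + F (2 * i + 1)) := by
  induction m with
  | zero => simp
  | succ m ih => rw [Nat.mul_succ, sum_range_succ, sum_range_succ, ih, sum_range_succ]; ring

theorem mix_parseval (z : ℕ → ℝ) (n : ℕ) :
    ∑ a ∈ range n, mix z n a ^ 2 = ∑ q ∈ range n, z q ^ 2 := by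
  induction n using Nat.strong_induction_on with
  | _ n ih =>
    rcases Nat.eq_zero_or_pos n with rfl | hn
    · simp
    have hs : Real.sqrt 2 ^ 2 = 2 := Real.sq_sqrt (by norm_num)
    have key : ∑ a ∈ range (2 * (n / 2)), mix z n a ^ 2 = ∑ q ∈ range (2 * (n / 2)), z q ^ 2 := by
      rw [sum_range_pair, two_mul (n / 2), sum_range_add, ← ih (n / 2) (by omega),
        ← sum_add_distrib]
      refine sum_congr rfl fun i hi => ?_
      rw [mem_range] at hi
      have e1 : 2 * i / 2 = i := by omega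
      have e2 : (2 * i + 1) / 2 = i := by omega
      rw [mix_pos z (by omega : 2 * i / 2 < n / 2), mix_pos z (by omega : (2 * i + 1) / 2 < n / 2),
        e1, e2, if_pos (by omega), if_neg (by omega), div_pow, div_pow, hs]
      ring
    rcases Nat.mod_two_eq_zero_or_one n with h | h
    · have e : 2 * (n / 2) = n := by omega
      rwa [e] at key
    · have e : n = 2 * (n / 2) + 1 := by omega
      have e2 : range n = range (2 * (n / 2) + 1) := by rw [← e]
      rw [e2, sum_range_succ, sum_range_succ, key, mix_neg z (by omega)]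
      congr 3; omega

theorem ex_le_abs (y : ℝ) {M : ℝ} (hM : 0 ≤ M) : ex y M ^ 2 ≤ y ^ 2 := by
  rw [← sq_abs y]
  exact pow_le_pow_left₀ (ex_nonneg _ _) (max_le (by linarith) (abs_nonneg y)) 2

theorem mix_step (z : ℕ → ℝ) (n a : ℕ) {μ : ℝ} (hμ : 0 ≤ μ) :
    ex (mix z n a) (81 * μ) ^ 2 ≤ 41 * ex (z (n / 2 + a / 2)) μ ^ 2 + 41 / 80 *
      (if a / 2 < n / 2 then ex (mix z (n / 2) (a / 2)) (81 * (μ * (Real.sqrt 2 * sg))) ^ 2
        else 0) := by
  by_cases h : a / 2 < n / 2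
  · rw [if_pos h, mix_pos z h]
    set A := z (n / 2 + a / 2)
    set B := mix z (n / 2) (a / 2)
    have hs : Real.sqrt 2 ^ 2 = 2 := Real.sq_sqrt (by norm_num)
    have hs1 : 1 ≤ Real.sqrt 2 := Real.one_le_sqrt.2 (by norm_num)
    have hs0 : 0 < Real.sqrt 2 := by linarith
    have h1 : |(A + (if a % 2 = 0 then 1 else -1) * B) / Real.sqrt 2| ≤
        |A| + |B| / Real.sqrt 2 := by
      rw [abs_div, abs_of_pos hs0, div_le_iff₀ hs0, add_mul, div_mul_cancel₀ _ hs0.ne']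
      refine (abs_add_le _ _).trans ?_
      have : |(if a % 2 = 0 then (1 : ℝ) else -1) * B| = |B| := by split_ifs <;> simp
      rw [this]
      nlinarith [abs_nonneg A]
    have h2 : ex ((A + (if a % 2 = 0 then 1 else -1) * B) / Real.sqrt 2) (81 * μ) ≤
        ex A μ + ex B (81 * (μ * (Real.sqrt 2 * sg))) / Real.sqrt 2 := by
      have a1 : |A| - μ ≤ ex A μ := le_max_left _ _
      have a2 : |B| - 81 * (μ * (Real.sqrt 2 * sg)) ≤ ex B (81 * (μ * (Real.sqrt 2 * sg))) :=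
        le_max_left _ _
      have a3 := div_le_div_of_nonneg_right a2 hs0.le
      have e : (|B| - 81 * (μ * (Real.sqrt 2 * sg))) / Real.sqrt 2 = |B| / Real.sqrt 2 - 80 * μ := by
        unfold sg; field_simp
      rw [e] at a3
      refine max_le (by linarith) ?_
      have := ex_nonneg A μ
      have := ex_nonneg B (81 * (μ * (Real.sqrt 2 * sg)))
      positivity
    have h3 := pow_le_pow_left₀ (ex_nonneg _ _) h2 2
    refine h3.trans ?_
    set P := ex A μ
    set Q := ex B (81 * (μ * (Real.sqrt 2 * sg)))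
    have e : Q ^ 2 = 2 * (Q / Real.sqrt 2) ^ 2 := by rw [div_pow, hs]; ring
    rw [e]
    nlinarith [sq_nonneg (40 * P - Q / Real.sqrt 2)]
  · rw [if_neg h, mix_neg z h]
    have h1 : ex (z (n / 2 + a / 2)) (81 * μ) ≤ ex (z (n / 2 + a / 2)) μ :=
      ex_anti _ (by linarith)
    have h2 := pow_le_pow_left₀ (ex_nonneg _ _) h1 2
    nlinarith [sq_nonneg (ex (z (n / 2 + a / 2)) μ)]

theorem mix_point (z : ℕ → ℝ) {d a : ℕ} (ha : a < d) {μ : ℝ} (hμ : 0 ≤ μ) (J : ℕ) :
    ex (mix z d a) (81 * μ) ^ 2 ≤ 41 * ∑ j ∈ range J, (41 / 80) ^ j *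
      (if d / 2 ^ (j + 1) + a / 2 ^ (j + 1) < d / 2 ^ j then
        ex (z (d / 2 ^ (j + 1) + a / 2 ^ (j + 1))) (μ * (Real.sqrt 2 * sg) ^ j) ^ 2 else 0) +
      (41 / 80) ^ J * (if a / 2 ^ J < d / 2 ^ J then
        ex (mix z (d / 2 ^ J) (a / 2 ^ J)) (81 * (μ * (Real.sqrt 2 * sg) ^ J)) ^ 2 else 0) := by
  induction J with
  | zero => simp [ha]
  | succ J ih =>
    refine ih.trans ?_
    rw [sum_range_succ, mul_add, add_assoc]
    refine add_le_add_right ?_ _
    have hs := sg_pos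
    by_cases h : a / 2 ^ J < d / 2 ^ J
    · have h1 := mix_step z (d / 2 ^ J) (a / 2 ^ J) (μ := μ * (Real.sqrt 2 * sg) ^ J)
        (by positivity)
      rw [if_pos h, div_pow_succ d, div_pow_succ a, if_pos (by omega)]
      have h2 := mul_le_mul_of_nonneg_left h1 (by positivity : (0 : ℝ) ≤ (41 / 80) ^ J)
      refine h2.trans (le_of_eq ?_)
      rw [pow_succ (Real.sqrt 2 * sg), pow_succ (41 / 80 : ℝ), mul_assoc μ]
      ring
    · rw [if_neg h, mul_zero]
      have : ∀ (p : Prop) [Decidable p] (x : ℝ), 0 ≤ if p then x ^ 2 else 0 := by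
        intro p _ x; split_ifs <;> positivity
      have h1 := this (d / 2 ^ (J + 1) + a / 2 ^ (J + 1) < d / 2 ^ J)
        (ex (z (d / 2 ^ (J + 1) + a / 2 ^ (J + 1))) (μ * (Real.sqrt 2 * sg) ^ J))
      have h2 := this (a / 2 ^ (J + 1) < d / 2 ^ (J + 1))
        (ex (mix z (d / 2 ^ (J + 1)) (a / 2 ^ (J + 1))) (81 * (μ * (Real.sqrt 2 * sg) ^ (J + 1))))
      positivity

/-- Number of elements of `S` in a dyadic block. -/
def cnt {d : ℕ} (S : Finset (Fin d)) (j i : ℕ) : ℕ := #(S.filter fun a => a.val / 2 ^ j = i)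

theorem fiber_sum {d : ℕ} (S : Finset (Fin d)) (j n1 n2 : ℕ) (G : ℕ → ℝ) :
    ∑ a ∈ S, (if n1 + a.val / 2 ^ j < n2 then G (n1 + a.val / 2 ^ j) else 0) =
      ∑ q ∈ Ico n1 n2, (cnt S j (q - n1) : ℝ) * G q := by
  have : ∀ q ∈ Ico n1 n2, (cnt S j (q - n1) : ℝ) * G q =
      ∑ a ∈ S, if n1 + a.val / 2 ^ j = q then G q else 0 := by
    intro q hq
    rw [mem_Ico] at hq
    rw [cnt, ← sum_filter, sum_const, nsmul_eq_mul]
    congr 3
    ext a; simp only [mem_filter]; constructor <;> rintro ⟨h1, h2⟩ <;> exact ⟨h1, by omega⟩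
  rw [sum_congr rfl this, sum_comm]
  refine sum_congr rfl fun a _ => ?_
  rw [sum_ite_eq]
  simp only [mem_Ico, Nat.le_add_right, true_and]

theorem mix_total (z : ℕ → ℝ) {d : ℕ} (S : Finset (Fin d)) {μ : ℝ} (hμ : 0 ≤ μ) (J : ℕ) {B : ℝ}
    (hB : ∀ i, (cnt S J i : ℝ) ≤ B) :
    ∑ a ∈ S, ex (mix z d a) (81 * μ) ^ 2 ≤ 41 * ∑ j ∈ range J, (41 / 80) ^ j *
      (∑ q ∈ Ico (d / 2 ^ (j + 1)) (d / 2 ^ j), (cnt S (j + 1) (q - d / 2 ^ (j + 1)) : ℝ) *
        ex (z q) (μ * (Real.sqrt 2 * sg) ^ j) ^ 2) +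
      (41 / 80) ^ J * (B * ∑ q ∈ range (d / 2 ^ J), z q ^ 2) := by
  refine (sum_le_sum fun a _ => mix_point z a.2 hμ J).trans ?_
  rw [sum_add_distrib, ← mul_sum, ← mul_sum, sum_comm]
  refine add_le_add (le_of_eq ?_) (mul_le_mul_of_nonneg_left ?_ (by positivity))
  · congr 1
    refine sum_congr rfl fun j _ => ?_
    rw [← mul_sum, fiber_sum S (j + 1) _ _ (fun q => ex (z q) (μ * (Real.sqrt 2 * sg) ^ j) ^ 2)]
  · have := fiber_sum S J 0 (d / 2 ^ J) (fun i =>
      ex (mix z (d / 2 ^ J) i) (81 * (μ * (Real.sqrt 2 * sg) ^ J)) ^ 2)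
    simp only [zero_add, Nat.sub_zero] at this
    rw [this, ← mix_parseval, mul_sum, ← range_eq_Ico]
    refine sum_le_sum fun i _ => ?_
    have hs := sg_pos
    exact mul_le_mul (hB i) (ex_le_abs _ (by positivity)) (sq_nonneg _)
      (le_trans (Nat.cast_nonneg _) (hB i))

end Pool.Agent.H576Z.RIP
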