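import Pool.Agent.H576Z.RIP.Sup

namespace Pool.Agent.H576Z.RIP

open Finset Function
open scoped RealInnerProductSpace

theorem round_zero (a : ℝ) (ha : |a| ≤ 1) (N : ℕ) (hN : 0 < N) :
    ∃ i : Fin (2 * N + 1), |a - ((i : ℕ) - (N : ℝ)) / N| ≤ 1 / N ∧
      |((i : ℕ) - (N : ℝ)) / N| ≤ |a| := by
  have hN' : (0 : ℝ) < N := by exact_mod_cast hN
  have h1 : ⌊|a| * N⌋₊ ≤ N := Nat.floor_le_of_le (by nlinarith)
  have h2 : (⌊|a| * N⌋₊ : ℝ) ≤ |a| * N := Nat.floor_le (by positivity)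
  have h3 : |a| * N < ⌊|a| * N⌋₊ + 1 := Nat.lt_floor_add_one _
  set z := ⌊|a| * N⌋₊
  have hz : (0 : ℝ) ≤ z := Nat.cast_nonneg z
  have e1 : (z : ℝ) / N ≤ |a| := by rw [div_le_iff₀ hN']; exact h2
  have e2 : |a| - z / N ≤ 1 / N := by
    rw [sub_le_iff_le_add, ← add_div, le_div_iff₀ hN']; linarith
  have e3 : (0 : ℝ) ≤ z / N := by positivity
  rcases le_total 0 a with h | h
  · refine ⟨⟨N + z, by omega⟩, ?_, ?_⟩
    · rw [abs_of_nonneg h] at e1 e2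
      simp only [Nat.cast_add, add_sub_cancel_left]
      rw [abs_of_nonneg (by linarith)]; exact e2
    · simp only [Nat.cast_add, add_sub_cancel_left]
      rw [abs_of_nonneg e3]; exact e1
  · have e : (((N - z : ℕ) : ℝ) - N) / N = -(z / N) := by rw [Nat.cast_sub h1]; ring
    refine ⟨⟨N - z, by omega⟩, ?_, ?_⟩
    · rw [abs_of_nonpos h] at e1 e2
      simp only [e]
      rw [abs_of_nonpos (by linarith)]; linarith
    · simp only [e]
      rw [abs_neg, abs_of_nonneg e3]; exact e1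

theorem exists_net (d m : ℕ) (hd : 100 ≤ d) (hm : m ≤ d) : ∃ T : Finset (EV d),
    (#T : ℝ) ≤ (d : ℝ) ^ (5 * m) ∧ (∀ x ∈ T, 9 / 10 ≤ ‖x‖ ^ 2 ∧ ‖x‖ ^ 2 ≤ 1) ∧
    ∀ x : EV d, ‖x‖ = 1 → #(univ.filter fun y => x y ≠ 0) ≤ m →
      ∃ x' ∈ T, ‖x - x'‖ ^ 2 ≤ 1 / (d : ℝ) ^ 3 := by
  classical
  let φ : (Fin m → Fin d × Fin (2 * d ^ 2 + 1)) → EV d := fun g =>
    ∑ l, ((((g l).2 : ℕ) - ((d ^ 2 : ℕ) : ℝ)) / ((d ^ 2 : ℕ) : ℝ)) • ee d (g l).1
  refine ⟨(univ.image φ).filter fun x => 9 / 10 ≤ ‖x‖ ^ 2 ∧ ‖x‖ ^ 2 ≤ 1, ?_,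
    fun x hx => (mem_filter.1 hx).2, ?_⟩
  · have h1 : #((univ.image φ).filter fun x => 9 / 10 ≤ ‖x‖ ^ 2 ∧ ‖x‖ ^ 2 ≤ 1) ≤ d ^ (5 * m) := by
      refine (card_filter_le _ _).trans (card_image_le.trans ?_)
      rw [card_univ, Fintype.card_fun, Fintype.card_prod, Fintype.card_fin, Fintype.card_fin,
        Fintype.card_fin, pow_mul]
      refine Nat.pow_le_pow_left ?_ m
      have h2 : 2 * d ^ 2 + 1 ≤ d ^ 4 := by
        have : d ^ 4 = d ^ 2 * d ^ 2 := by ring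
        have h3 : 3 ≤ d ^ 2 := by nlinarith
        nlinarith
      calc d * (2 * d ^ 2 + 1) ≤ d * d ^ 4 := Nat.mul_le_mul_left d h2
        _ = d ^ 5 := by ring
    exact_mod_cast h1
  · intro x hx hs
    have hd' : (100 : ℝ) ≤ d := by exact_mod_cast hd
    obtain ⟨T', hT1, -, hT2⟩ := exists_subsuperset_card_eq (subset_univ _) hs
      (by rw [card_univ, Fintype.card_fin]; exact hm)
    have hxy : ∀ y, |x y| ≤ 1 := fun y => by
      have := PiLp.norm_apply_le x y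
      rwa [hx, Real.norm_eq_abs] at this
    choose r hr1 hr2 using fun y => round_zero (x y) (hxy y) (d ^ 2) (by positivity)
    let e := T'.orderEmbOfFin hT2
    let g : Fin m → Fin d × Fin (2 * d ^ 2 + 1) := fun l => (e l, r (e l))
    have hg : ∀ y, φ g y = (((r y : ℕ) : ℝ) - ((d ^ 2 : ℕ) : ℝ)) / ((d ^ 2 : ℕ) : ℝ) := by
      intro y
      have h1 : φ g y = ∑ l, if e l = y then
          (((r y : ℕ) : ℝ) - ((d ^ 2 : ℕ) : ℝ)) / ((d ^ 2 : ℕ) : ℝ) else 0 := by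
        simp only [φ, g, ee, WithLp.ofLp_sum, Finset.sum_apply, PiLp.smul_apply,
          WithLp.ofLp_smul, Pi.smul_apply, smul_eq_mul]
        refine sum_congr rfl fun l _ => ?_
        by_cases h : e l = y
        · subst h; simp
        · simp [h, Ne.symm h]
      rw [h1]
      by_cases hy : y ∈ T'
      · obtain ⟨l, rfl⟩ : ∃ l, e l = y := by
          have : y ∈ Set.range e := by rw [range_orderEmbOfFin]; exact hy
          exact this
        rw [sum_eq_single l]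
        · simp
        · intro l' _ hl; rw [if_neg (fun h => hl (e.injective h))]
        · simp
      · have h0 : x y = 0 := by
          by_contra h
          exact hy (hT1 (mem_filter.2 ⟨mem_univ y, h⟩))
        have h2 := hr2 y
        rw [h0, abs_zero, abs_nonpos_iff] at h2
        rw [h2]; simp
    have hdist : ‖x - φ g‖ ^ 2 ≤ 1 / (d : ℝ) ^ 3 := by
      rw [EuclideanSpace.real_norm_sq_eq]
      have : ∀ y, ((x - φ g) y) ^ 2 ≤ (1 / (d : ℝ) ^ 2) ^ 2 := by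
        intro y
        rw [PiLp.sub_apply, hg, ← sq_abs]
        refine pow_le_pow_left₀ (abs_nonneg _) ?_ 2
        have := hr1 y
        rwa [show (1 : ℝ) / ((d ^ 2 : ℕ) : ℝ) = 1 / (d : ℝ) ^ 2 by push_cast; rfl] at this
      refine (sum_le_sum fun y _ => this y).trans (le_of_eq ?_)
      rw [sum_const, card_univ, Fintype.card_fin, nsmul_eq_mul]
      field_simp
    refine ⟨φ g, mem_filter.2 ⟨mem_image_of_mem _ (mem_univ g), ?_, ?_⟩, hdist⟩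
    · have h1 : ‖x‖ ≤ ‖φ g‖ + ‖x - φ g‖ := by
        have := norm_add_le (φ g) (x - φ g)
        rwa [add_sub_cancel] at this
      have h2 : 1 / (d : ℝ) ^ 3 ≤ (1 / 100) ^ 2 := by
        rw [div_le_iff₀ (by positivity)]
        have : (100 : ℝ) ^ 3 ≤ d ^ 3 := pow_le_pow_left₀ (by norm_num) hd' 3
        linarith
      have h3 : ‖x - φ g‖ ≤ 1 / 100 :=
        le_trans (le_abs_self _) (abs_le_of_sq_le_sq (hdist.trans h2) (by norm_num))
      nlinarith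
    · rw [← one_pow 2, ← hx, EuclideanSpace.real_norm_sq_eq, EuclideanSpace.real_norm_sq_eq]
      refine sum_le_sum fun y _ => ?_
      rw [hg, ← sq_abs, ← sq_abs (x y)]
      exact pow_le_pow_left₀ (abs_nonneg _) (hr2 y) 2

/-- Real two-sided bound on sparse vectors. -/
def RR {d : ℕ} (U : Matrix (Fin d) (Fin d) ℝ) (S : Finset (Fin d)) (m : ℕ) (κ : ℝ) : Prop :=
  ∀ x : EV d, #(univ.filter fun y => x y ≠ 0) ≤ m →
    κ / 2 * ‖x‖ ^ 2 ≤ ∑ a ∈ S, (∑ y, U a y * x y) ^ 2 ∧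
      ∑ a ∈ S, (∑ y, U a y * x y) ^ 2 ≤ 2 * κ * ‖x‖ ^ 2

theorem RR_of_net {d m : ℕ} (hd : 100 ≤ d) (U : Matrix (Fin d) (Fin d) ℝ)
    (hU : ∀ x : EV d, ∑ a, (∑ y, U a y * x y) ^ 2 = ‖x‖ ^ 2) (S : Finset (Fin d)) {κ : ℝ}
    (hκ : 1 / (d : ℝ) ≤ κ) (T : Finset (EV d))
    (hT : ∀ x : EV d, ‖x‖ = 1 → #(univ.filter fun y => x y ≠ 0) ≤ m →
      ∃ x' ∈ T, ‖x - x'‖ ^ 2 ≤ 1 / (d : ℝ) ^ 3)
    (h : ∀ x ∈ T, 708 / 1000 * κ ≤ ∑ a ∈ S, (∑ y, U a y * x y) ^ 2 ∧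
      ∑ a ∈ S, (∑ y, U a y * x y) ^ 2 ≤ 1221 / 1000 * κ) : RR U S m κ := by
  have hd' : (100 : ℝ) ≤ d := by exact_mod_cast hd
  have hκ0 : 0 < κ := lt_of_lt_of_le (by positivity) hκ
  have unit : ∀ x : EV d, ‖x‖ = 1 → #(univ.filter fun y => x y ≠ 0) ≤ m →
      κ / 2 ≤ ∑ a ∈ S, (∑ y, U a y * x y) ^ 2 ∧ ∑ a ∈ S, (∑ y, U a y * x y) ^ 2 ≤ 2 * κ := by
    intro x hx hs
    obtain ⟨x', hx', hdist⟩ := hT x hx hs
    obtain ⟨h1, h2⟩ := h x' hx'
    have h3 : ∑ a ∈ S, (∑ y, U a y * (x - x') y) ^ 2 ≤ κ / 1000 := by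
      refine (sum_le_sum_of_subset_of_nonneg (subset_univ S) fun _ _ _ => sq_nonneg _).trans ?_
      rw [hU]
      refine hdist.trans ?_
      have h4 : 1 / (d : ℝ) ^ 3 ≤ 1 / d / 1000 := by
        rw [div_div]
        refine one_div_le_one_div_of_le (by positivity) ?_
        have : (1000 : ℝ) ≤ d ^ 2 := by nlinarith
        nlinarith
      linarith
    have e : ∀ a, ∑ y, U a y * (x - x') y = ∑ y, U a y * x y - ∑ y, U a y * x' y := by
      intro a; rw [← sum_sub_distrib]; exact sum_congr rfl fun y _ => by rw [PiLp.sub_apply]; ring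
    simp only [e] at h3
    have h4 : ∑ a ∈ S, (∑ y, U a y * x y) ^ 2 ≤ ∑ a ∈ S, (11 / 10 * (∑ y, U a y * x' y) ^ 2 +
        11 * (∑ y, U a y * x y - ∑ y, U a y * x' y) ^ 2) := sum_le_sum fun a _ => by
      nlinarith [sq_nonneg (∑ y, U a y * x' y - 10 * (∑ y, U a y * x y - ∑ y, U a y * x' y))]
    have h5 : ∑ a ∈ S, (∑ y, U a y * x' y) ^ 2 ≤ ∑ a ∈ S, (11 / 10 * (∑ y, U a y * x y) ^ 2 +
        11 * (∑ y, U a y * x y - ∑ y, U a y * x' y) ^ 2) := sum_le_sum fun a _ => by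
      nlinarith [sq_nonneg (∑ y, U a y * x y + 10 * (∑ y, U a y * x y - ∑ y, U a y * x' y))]
    rw [sum_add_distrib, ← mul_sum, ← mul_sum] at h4 h5
    constructor <;> linarith
  intro x hs
  rcases eq_or_ne x 0 with rfl | hx
  · simp
  have hp : 0 < ‖x‖ := norm_pos_iff.2 hx
  obtain ⟨h1, h2⟩ := unit (‖x‖⁻¹ • x) (by rw [norm_smul, norm_inv, norm_norm]; field_simp) (by
    refine le_trans (card_le_card fun y hy => ?_) hs
    simp only [mem_filter, mem_univ, true_and, PiLp.smul_apply, smul_eq_mul] at hy ⊢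
    exact right_ne_zero_of_mul hy)
  have e : ∑ a ∈ S, (∑ y, U a y * x y) ^ 2 =
      (∑ a ∈ S, (∑ y, U a y * (‖x‖⁻¹ • x) y) ^ 2) * ‖x‖ ^ 2 := by
    rw [sum_mul]
    refine sum_congr rfl fun a _ => ?_
    rw [← mul_pow, sum_mul]
    congr 1
    refine sum_congr rfl fun y _ => ?_
    simp only [PiLp.smul_apply, smul_eq_mul]; field_simp
  rw [e]
  constructor
  · exact mul_le_mul_of_nonneg_right h1 (by positivity)
  · exact mul_le_mul_of_nonneg_right h2 (by positivity)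

theorem net_point {d k : ℕ} (hd : 0 < d) (y : Fin d → ℝ) (S : Finset (Fin d)) (hS : #S = k)
    {τ M1 : ℝ} (hτ : 0 ≤ τ) (hy1 : 9 / 10 ≤ ∑ a, y a ^ 2) (hy2 : ∑ a, y a ^ 2 ≤ 1)
    (e1 : ∑ a ∈ S, ex (y a) τ ^ 2 ≤ k / d / 1000) (e2 : ∑ a, ex (y a) τ ^ 2 ≤ 1 / 1000)
    (e3 : ∑ a ∈ S, d * min |y a| τ ^ 2 ≤ (k : ℝ) / d * ∑ a, d * min |y a| τ ^ 2 + k / 10)
    (e4 : ∑ a ∈ S, (M1 - d * min |y a| τ ^ 2) ≤
      (k : ℝ) / d * ∑ a, (M1 - d * min |y a| τ ^ 2) + k / 10) :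
    708 / 1000 * ((k : ℝ) / d) ≤ ∑ a ∈ S, y a ^ 2 ∧
      ∑ a ∈ S, y a ^ 2 ≤ 1221 / 1000 * ((k : ℝ) / d) := by
  have hd' : (0 : ℝ) < d := by exact_mod_cast hd
  have p1 : ∀ a, min |y a| τ ^ 2 ≤ y a ^ 2 := fun a => by
    rw [← sq_abs (y a)]
    exact pow_le_pow_left₀ (le_min (abs_nonneg _) hτ) (min_le_left _ _) 2
  have p2 : ∀ a, y a ^ 2 ≤ 11 / 10 * min |y a| τ ^ 2 + 11 * ex (y a) τ ^ 2 := fun a => by
    have : |y a| = min |y a| τ + ex (y a) τ := by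
      unfold ex
      rcases le_total |y a| τ with h | h
      · rw [min_eq_left h, max_eq_right (by linarith), add_zero]
      · rw [min_eq_right h, max_eq_left (by linarith)]; ring
    rw [← sq_abs (y a)]
    set A := min |y a| τ
    set B := ex (y a) τ
    rw [this]
    nlinarith [sq_nonneg (A - 10 * B)]
  rw [sum_sub_distrib, sum_sub_distrib, sum_const, sum_const, hS, card_univ, Fintype.card_fin,
    nsmul_eq_mul, nsmul_eq_mul] at e4
  rw [← mul_sum, ← mul_sum] at e3 e4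
  set κ := (k : ℝ) / d with hκ
  have hk : (k : ℝ) = κ * d := by rw [hκ]; field_simp
  have hκ0 : 0 ≤ κ := by positivity
  set A := ∑ a ∈ S, min |y a| τ ^ 2
  set B := ∑ a, min |y a| τ ^ 2
  have q1 : A ≤ ∑ a ∈ S, y a ^ 2 := sum_le_sum fun a _ => p1 a
  have q2 : B ≤ ∑ a, y a ^ 2 := sum_le_sum fun a _ => p1 a
  have q3 : ∑ a ∈ S, y a ^ 2 ≤ 11 / 10 * A + 11 * ∑ a ∈ S, ex (y a) τ ^ 2 := by
    rw [mul_sum, mul_sum, ← sum_add_distrib]; exact sum_le_sum fun a _ => p2 a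
  have q4 : ∑ a, y a ^ 2 ≤ 11 / 10 * B + 11 * ∑ a, ex (y a) τ ^ 2 := by
    rw [mul_sum, mul_sum, ← sum_add_distrib]; exact sum_le_sum fun a _ => p2 a
  rw [hk] at e3 e4
  have r1 : A ≤ κ * B + κ / 10 := le_of_mul_le_mul_left (by linarith) hd'
  have r2 : κ * B - κ / 10 ≤ A := le_of_mul_le_mul_left (by linarith) hd'
  have r3 : κ * B ≤ κ * 1 := mul_le_mul_of_nonneg_left (by linarith) hκ0
  have r4 : κ * (808 / 1000) ≤ κ * B := mul_le_mul_of_nonneg_left (by linarith) hκ0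
  constructor <;> linarith

end Pool.Agent.H576Z.RIP
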