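import Pool.Agent.H576Z.RIP.Kernel

namespace Pool.Agent.H576Z.RIP

open Finset Function
open scoped RealInnerProductSpace

structure Proc (d : ℕ) where
  P : ℕ → Dist (ℕ → EV d)
  K : ℕ → (ℕ → EV d) → Dist (EV d)
  onS : ∀ n ≤ d, ∀ v ∈ (P n).S, ON d v n
  spec : ∀ n < d, ∀ v ∈ (P (n + 1)).S, KSpec d (n + 1) v (K n v)
  step : ∀ n < d, ∀ F, (P n).E F =
    (P (n + 1)).E (fun v => (K n v).E (fun u => F (update v n u)))
  bddS : ∀ v ∈ (P 0).S, ∀ n < d, ∃ w ∈ (P (n + 1)).S, v n ∈ (K n w).S ∧ ∀ q, n < q → w q = v q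

theorem ON_update {d n : ℕ} {v : ℕ → EV d} (hn : n < d) (h : ON d v (n + 1)) {u : EV d}
    (hu : ‖u‖ = 1 ∧ ∀ q ∈ Ico (n + 1) d, ⟪v q, u⟫ = 0) : ON d (update v n u) n := by
  intro q hq q' hq'
  rw [mem_Ico] at hq hq'
  by_cases h1 : q = n <;> by_cases h2 : q' = n
  · subst h1; subst h2; simp [hu.1]
  · subst h1
    rw [update_self, update_of_ne h2, real_inner_comm, hu.2 q' (mem_Ico.2 ⟨by omega, hq'.2⟩),
      if_neg (Ne.symm h2)]
  · subst h2
    rw [update_self, update_of_ne h1, hu.2 q (mem_Ico.2 ⟨by omega, hq.2⟩), if_neg h1]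
  · rw [update_of_ne h1, update_of_ne h2]
    exact h q (mem_Ico.2 ⟨by omega, hq.2⟩) q' (mem_Ico.2 ⟨by omega, hq'.2⟩)

theorem exists_proc (d : ℕ) : Nonempty (Proc d) := by
  classical
  have : Nonempty (Dist (EV d)) := ⟨Dist.pure 0⟩
  have hk : ∀ (n : ℕ) (v : ℕ → EV d), (n < d ∧ ON d v (n + 1)) →
      ∃ D : Dist (EV d), KSpec d (n + 1) v D :=
    fun n v h => exists_kernel h.2 (by omega) h.1
  choose! K hK using hk
  let D : ℕ → Dist (ℕ → EV d) := fun t => Nat.rec (Dist.pure fun _ => 0)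
    (fun t Dt => Dt.bind (K (d - 1 - t)) (fun v u => update v (d - 1 - t) u)) t
  have hD : ∀ n < d, D (d - n) = (D (d - (n + 1))).bind (K n) (fun v u => update v n u) := by
    intro n hn
    have e : d - n = (d - (n + 1)) + 1 := by omega
    have e2 : d - 1 - (d - (n + 1)) = n := by omega
    rw [e]
    show (D (d - (n + 1))).bind (K (d - 1 - (d - (n + 1)))) _ = _
    rw [e2]
  have hon : ∀ t n, n + t = d → ∀ v ∈ (D (d - n)).S, ON d v n := by
    intro t
    induction t with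
    | zero =>
      intro n hn v _ q hq
      rw [mem_Ico] at hq; omega
    | succ t ih =>
      intro n hn v hv
      rw [hD n (by omega)] at hv
      obtain ⟨w, hw, u, hu, rfl⟩ := (Dist.bind_S _ _ _ _).1 hv
      have h1 := ih (n + 1) (by omega) w hw
      exact ON_update (by omega) h1 ((hK n w ⟨by omega, h1⟩).unit u hu)
  have hon' : ∀ n ≤ d, ∀ v ∈ (D (d - n)).S, ON d v n := fun n hn => hon (d - n) n (by omega)
  have hb : ∀ n < d, ∀ m ≤ n, ∀ v ∈ (D (d - m)).S,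
      ∃ w ∈ (D (d - (n + 1))).S, v n ∈ (K n w).S ∧ ∀ q, n < q → w q = v q := by
    intro n hn m hm
    induction hm using Nat.decreasingInduction with
    | self =>
      intro v hv
      rw [hD n hn] at hv
      obtain ⟨w, hw, u, hu, rfl⟩ := (Dist.bind_S _ _ _ _).1 hv
      exact ⟨w, hw, by rwa [update_self], fun q hq => by rw [update_of_ne (by omega)]⟩
    | of_succ k hk ih =>
      intro v hv
      rw [hD k (by omega)] at hv
      obtain ⟨w, hw, u, hu, rfl⟩ := (Dist.bind_S _ _ _ _).1 hv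
      obtain ⟨w', hw', h1, h2⟩ := ih w hw
      exact ⟨w', hw', by rwa [update_of_ne (by omega)],
        fun q hq => by rw [update_of_ne (by omega), h2 q hq]⟩
  exact ⟨⟨fun n => D (d - n), K, hon', fun n hn v hv => hK n v ⟨hn, hon' (n + 1) hn v hv⟩,
    fun n hn F => by rw [hD n hn]; rfl, fun v hv n hn => hb n hn 0 (Nat.zero_le n) v hv⟩⟩

theorem Rm_update_lt {d n m : ℕ} (v : ℕ → EV d) (u θ : EV d) (h : n < m) :
    Rm d (update v n u) m θ = Rm d v m θ := by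
  unfold Rm; congr 1
  refine sum_congr rfl fun q hq => ?_
  rw [update_of_ne (by have := (mem_Ico.1 hq).1; omega)]

theorem Rm_succ {d n : ℕ} (v : ℕ → EV d) (θ : EV d) (h : n < d) :
    Rm d v n θ = Rm d v (n + 1) θ - ⟪v n, θ⟫ ^ 2 := by
  unfold Rm
  rw [sum_eq_sum_Ico_succ_bot h]; ring

theorem Rm_update_self {d n : ℕ} (v : ℕ → EV d) (u θ : EV d) (h : n < d) :
    Rm d (update v n u) n θ = Rm d v (n + 1) θ - ⟪u, θ⟫ ^ 2 := by
  rw [Rm_succ _ _ h, Rm_update_lt _ _ _ (Nat.lt_succ_self n), update_self]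

theorem Rm_mono {d n m : ℕ} (v : ℕ → EV d) (θ : EV d) (h : n ≤ m) :
    Rm d v n θ ≤ Rm d v m θ := by
  unfold Rm
  have : ∑ q ∈ Ico m d, ⟪v q, θ⟫ ^ 2 ≤ ∑ q ∈ Ico n d, ⟪v q, θ⟫ ^ 2 :=
    sum_le_sum_of_subset_of_nonneg (Ico_subset_Ico_left h) fun _ _ _ => sq_nonneg _
  linarith

theorem exp_neg_le_quad {a : ℝ} (ha0 : 0 ≤ a) : Real.exp (-a) ≤ 1 - a + a ^ 2 / 2 := by
  have h7 := Real.quadratic_le_exp_of_nonneg ha0
  rw [Real.exp_neg, inv_le_iff_one_le_mul₀ (Real.exp_pos a)]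
  have h8 : 0 ≤ 1 - a + a ^ 2 / 2 := by nlinarith [sq_nonneg (a - 1)]
  have h9 := mul_le_mul_of_nonneg_left h7 h8
  nlinarith [sq_nonneg (a ^ 2)]

namespace Proc

variable {d : ℕ} (X : Proc d)

theorem chain (Φ : ℕ → (ℕ → EV d) → ℝ) (c : ℕ → ℝ) (hc : ∀ n, 0 ≤ c n) {n1 n2 : ℕ}
    (h12 : n1 ≤ n2) (h2 : n2 ≤ d)
    (h : ∀ n, n1 ≤ n → n < n2 → ∀ v ∈ (X.P (n + 1)).S,
      (X.K n v).E (fun u => Φ n (update v n u)) ≤ c n * Φ (n + 1) v) :
    (X.P n1).E (Φ n1) ≤ (∏ n ∈ Ico n1 n2, c n) * (X.P n2).E (Φ n2) := by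
  induction h12 using Nat.decreasingInduction with
  | self => simp
  | of_succ k hk ih =>
    have ih' := ih fun n hn => h n (by omega)
    rw [X.step k (by omega), prod_eq_prod_Ico_succ_bot hk, mul_assoc]
    refine le_trans ?_ (mul_le_mul_of_nonneg_left ih' (hc k))
    rw [← Dist.mul_left]
    exact Dist.mono _ fun v hv => h k le_rfl hk v hv

theorem frozen (F : (ℕ → EV d) → ℝ) {n : ℕ} (hn : n ≤ d)
    (h : ∀ q < n, ∀ v u, F (update v q u) = F v) : (X.P 0).E F ≤ (X.P n).E F := by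
  have := X.chain (fun _ => F) (fun _ => 1) (fun _ => zero_le_one) (Nat.zero_le n) hn
    (fun q _ hq v _ => by simp only [h q hq, Dist.const, one_mul, le_refl])
  simpa using this

theorem decay_step (θ : EV d) {p n : ℕ} (hn : n < d) (hp : 1 ≤ p) (h1 : 20000 ≤ n + 1)
    (h2 : 6000 * p ≤ n + 1) (v : ℕ → EV d) (hv : v ∈ (X.P (n + 1)).S) :
    (X.K n v).E (fun u => Rm d (update v n u) n θ ^ p) ≤
      Real.exp (-(p / (10 * (n + 1 : ℕ)))) * Rm d v (n + 1) θ ^ p := by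
  have hs := X.spec n hn v hv
  have hon := X.onS (n + 1) hn v hv
  set R := Rm d v (n + 1) θ with hR
  set N : ℝ := ((n + 1 : ℕ) : ℝ) with hN
  have hN0 : (20000 : ℝ) ≤ N := by rw [hN]; exact_mod_cast h1
  have hNp : 6000 * (p : ℝ) ≤ N := by rw [hN]; exact_mod_cast h2
  have hnn : ∀ u ∈ (X.K n v).S, 0 ≤ R - ⟪u, θ⟫ ^ 2 := fun u hu => by
    rw [hR, ← Rm_update_self v u θ hn]
    exact Rm_nonneg (ON_update hn hon (hs.unit u hu)) θ
  simp only [Rm_update_self v _ θ hn, ← hR]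
  rcases (Rm_nonneg hon θ).eq_or_lt with h0 | h0
  · refine (Dist.le_const _ (c := 0) fun u hu => ?_).trans (by rw [← hR] at h0; positivity)
    have h3 := hnn u hu
    rw [← hR] at h0
    have : R - ⟪u, θ⟫ ^ 2 = 0 := le_antisymm (by rw [← h0, zero_sub, neg_nonpos]; positivity) h3
    rw [this, zero_pow (by omega)]
  rw [← hR] at h0
  have h3 : (X.K n v).E (fun u => (R - ⟪u, θ⟫ ^ 2) ^ p) ≤ (X.K n v).E (fun u =>
      R ^ p * (1 + ((-(p / R)) * ⟪u, θ⟫ ^ 2 + (p ^ 2 / (2 * R ^ 2)) * (⟪u, θ⟫ ^ 2) ^ 2))) := by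
    refine Dist.mono _ fun u hu => ?_
    set x := ⟪u, θ⟫ ^ 2 with hx
    have hx0 : 0 ≤ x := sq_nonneg _
    have e : R - x = R * (1 - x / R) := by field_simp
    have h4 : 0 ≤ 1 - x / R := by
      have := hnn u hu
      rw [sub_nonneg, div_le_one h0]; linarith
    rw [e, mul_pow]
    refine mul_le_mul_of_nonneg_left ?_ (by positivity)
    have h5 : (1 - x / R) ^ p ≤ Real.exp (-(p * (x / R))) := by
      rw [← mul_neg, Real.exp_nat_mul]
      exact pow_le_pow_left₀ h4 (by linarith [Real.add_one_le_exp (-(x / R))]) p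
    refine h5.trans ?_
    set a := p * (x / R) with ha
    have ha0 : 0 ≤ a := by positivity
    have h6 : Real.exp (-a) ≤ 1 - a + a ^ 2 / 2 := exp_neg_le_quad ha0
    refine h6.trans (le_of_eq ?_)
    rw [ha]; field_simp; ring
  refine h3.trans ?_
  rw [Dist.mul_left, Dist.add, Dist.add, Dist.mul_left, Dist.mul_left, Dist.const, mul_comm]
  refine mul_le_mul_of_nonneg_right ?_ (by positivity)
  have h4 := hs.low h1 θ
  have h5 := hs.four h1 θ
  rw [← hR, ← hN] at h4 h5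
  have hp0 : (0 : ℝ) < p := by exact_mod_cast hp
  have h6 : (-(p / R)) * (X.K n v).E (fun u => ⟪u, θ⟫ ^ 2) ≤ -(p / (5 * N)) := by
    have := mul_le_mul_of_nonneg_left h4 (by positivity : 0 ≤ p / R)
    have e : p / R * (R / (5 * N)) = p / (5 * N) := by field_simp
    linarith
  have h7 : (p ^ 2 / (2 * R ^ 2)) * (X.K n v).E (fun u => (⟪u, θ⟫ ^ 2) ^ 2) ≤ p / (10 * N) := by
    have := mul_le_mul_of_nonneg_left h5 (by positivity : 0 ≤ (p : ℝ) ^ 2 / (2 * R ^ 2))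
    refine this.trans ?_
    have e : (p : ℝ) ^ 2 / (2 * R ^ 2) * (1200 * R ^ 2 / N ^ 2) = p / (10 * N) * (6000 * p / N) := by
      field_simp; ring
    rw [e]
    refine mul_le_of_le_one_right (by positivity) ?_
    rw [div_le_one (by linarith)]; exact hNp
  have h8 := Real.add_one_le_exp (-(p / (10 * N)))
  have e : (p : ℝ) / (5 * N) = 2 * (p / (10 * N)) := by field_simp; ring
  linarith

end Proc

end Pool.Agent.H576Z.RIP
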