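import Pool.Agent.H576Z.RIP.Mix

namespace Pool.Agent.H576Z.RIP

open Finset

/-- Uniform distribution on the `k`-element subsets. -/
noncomputable def samp (d k : ℕ) (hk : k ≤ d) : Dist (Finset (Fin d)) where
  E :=
    { toFun := fun f => (∑ S ∈ powersetCard k (univ : Finset (Fin d)), f S) / d.choose k
      map_add' := fun f g => by rw [← add_div, ← sum_add_distrib]; rfl
      map_smul' := fun c f => by
        simp only [RingHom.id_apply, smul_eq_mul, Pi.smul_apply]
        rw [← mul_div_assoc, mul_sum] }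
  S := {S | #S = k}
  pos f h := div_nonneg (sum_nonneg fun S hS => h S (mem_powersetCard.1 hS).2) (Nat.cast_nonneg _)
  one := by
    have : (d.choose k : ℝ) ≠ 0 := by exact_mod_cast (Nat.choose_pos hk).ne'
    show (∑ _S ∈ powersetCard k (univ : Finset (Fin d)), (1 : ℝ)) / d.choose k = 1
    simp [this]

theorem samp_E (d k : ℕ) (hk : k ≤ d) (f : Finset (Fin d) → ℝ) : (samp d k hk).E f =
    (∑ S ∈ powersetCard k (univ : Finset (Fin d)), f S) / d.choose k := rfl

theorem samp_S (d k : ℕ) (hk : k ≤ d) (S : Finset (Fin d)) : S ∈ (samp d k hk).S ↔ #S = k :=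
  Iff.rfl

theorem choose_sub_le {d k : ℕ} (hk : k ≤ d) (hd : 0 < d) (t : ℕ) (ht : t ≤ k) :
    (((d - t).choose (k - t) : ℕ) : ℝ) ≤ d.choose k * ((k : ℝ) / d) ^ t := by
  induction t with
  | zero => simp
  | succ t ih =>
    have h1 := ih (by omega)
    have h2 := Nat.add_one_mul_choose_eq (d - (t + 1)) (k - (t + 1))
    have e1 : d - (t + 1) + 1 = d - t := by omega
    have e2 : k - (t + 1) + 1 = k - t := by omega
    rw [e1, e2] at h2
    have h3 : ((d - t : ℕ) : ℝ) * ((d - (t + 1)).choose (k - (t + 1)) : ℕ) =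
        ((d - t).choose (k - t) : ℕ) * ((k - t : ℕ) : ℝ) := by exact_mod_cast h2
    rw [Nat.cast_sub (by omega), Nat.cast_sub (by omega)] at h3
    have hd' : (0 : ℝ) < d := by exact_mod_cast hd
    have hkd : (k : ℝ) ≤ d := by exact_mod_cast hk
    have htk : (t : ℝ) + 1 ≤ k := by exact_mod_cast ht
    have ht0 : (0 : ℝ) ≤ t := Nat.cast_nonneg t
    have h4 : ((k : ℝ) - t) ≤ (d - t) * (k / d) := by
      rw [mul_div_assoc', le_div_iff₀ hd']; nlinarith
    have h5 : (0 : ℝ) < d - t := by linarith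
    refine le_of_mul_le_mul_left ?_ h5
    rw [h3, pow_succ]
    calc _ ≤ (d.choose k * ((k : ℝ) / d) ^ t) * ((d - t) * (k / d)) :=
          mul_le_mul h1 h4 (by linarith) (by positivity)
      _ = _ := by ring

theorem card_superset_le {d k : ℕ} (hk : k ≤ d) (hd : 0 < d) (T : Finset (Fin d)) :
    (#((powersetCard k (univ : Finset (Fin d))).filter fun S => T ⊆ S) : ℝ) ≤
      d.choose k * ((k : ℝ) / d) ^ #T := by
  by_cases h : #T ≤ k
  · refine le_trans ?_ (choose_sub_le hk hd _ h)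
    have : #((powersetCard k (univ : Finset (Fin d))).filter fun S => T ⊆ S) ≤
        #(powersetCard (k - #T) (univ \ T)) := by
      refine card_le_card_of_injOn (fun S => S \ T) ?_ ?_
      · intro S hS
        simp only [coe_filter, mem_powersetCard, Set.mem_setOf_eq, mem_coe] at hS ⊢
        exact ⟨sdiff_subset_sdiff hS.1.1 subset_rfl, by rw [card_sdiff_of_subset hS.2, hS.1.2]⟩
      · intro S hS S' hS' he
        simp only [coe_filter, mem_powersetCard, Set.mem_setOf_eq] at hS hS' he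
        rw [← sdiff_union_of_subset hS.2, ← sdiff_union_of_subset hS'.2, he]
    rw [card_powersetCard, card_sdiff_of_subset (subset_univ T), card_univ, Fintype.card_fin] at this
    exact_mod_cast this
  · have : ((powersetCard k (univ : Finset (Fin d))).filter fun S => T ⊆ S) = ∅ := by
      rw [filter_eq_empty_iff]
      intro S hS hT
      have := card_le_card hT
      rw [(mem_powersetCard.1 hS).2] at this; omega
    rw [this]; simp; positivity

theorem samp_prod {d k : ℕ} (hk : k ≤ d) (hd : 0 < d) (r : Fin d → ℝ) (hr : ∀ a, 0 ≤ r a) :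
    (samp d k hk).E (fun S => ∏ a ∈ S, (1 + r a)) ≤ Real.exp ((k : ℝ) / d * ∑ a, r a) := by
  have hc : (0 : ℝ) < d.choose k := by exact_mod_cast Nat.choose_pos hk
  rw [samp_E, div_le_iff₀ hc]
  have h1 : ∀ S ∈ powersetCard k (univ : Finset (Fin d)), ∏ a ∈ S, (1 + r a) =
      ∑ T ∈ powerset (univ : Finset (Fin d)), if T ⊆ S then ∏ a ∈ T, r a else 0 := by
    intro S _
    rw [prod_one_add, ← sum_filter]
    refine sum_congr ?_ fun _ _ => rfl
    ext T; simp
  rw [sum_congr rfl h1, sum_comm]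
  have h2 : ∀ T ∈ powerset (univ : Finset (Fin d)),
      ∑ S ∈ powersetCard k (univ : Finset (Fin d)), (if T ⊆ S then ∏ a ∈ T, r a else 0) ≤
        d.choose k * ∏ a ∈ T, ((k : ℝ) / d * r a) := by
    intro T _
    rw [← sum_filter, sum_const, nsmul_eq_mul, prod_mul_distrib, prod_const, ← mul_assoc]
    exact mul_le_mul_of_nonneg_right (card_superset_le hk hd T) (prod_nonneg fun a _ => hr a)
  refine (sum_le_sum h2).trans ?_
  rw [← mul_sum, ← prod_one_add, mul_comm]
  refine mul_le_mul_of_nonneg_right ?_ hc.le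
  rw [mul_sum, Real.exp_sum]
  refine prod_le_prod (fun a _ => by have := hr a; positivity) fun a _ => ?_
  linarith [Real.add_one_le_exp ((k : ℝ) / d * r a)]

theorem exp_le_quad {x : ℝ} (h0 : 0 ≤ x) (h1 : x ≤ 1) : Real.exp x - 1 ≤ x + x ^ 2 := by
  have := Real.abs_exp_sub_one_sub_id_le (x := x) (by rw [abs_of_nonneg h0]; exact h1)
  linarith [(abs_le.1 this).2]

open Classical in
theorem samp_hoeff {d k : ℕ} (hk : k ≤ d) (hd : 0 < d) (ζ : Fin d → ℝ) {M : ℝ} (hM : 1 ≤ M)
    (h0 : ∀ a, 0 ≤ ζ a) (h1 : ∀ a, ζ a ≤ M) :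
    (samp d k hk).E (fun S => if (k : ℝ) / d * ∑ a, ζ a + k / 10 < ∑ a ∈ S, ζ a then 1 else 0) ≤
      Real.exp (-(k / (400 * M ^ 2))) := by
  set s : ℝ := 1 / (20 * M ^ 2) with hs
  have hs0 : 0 < s := by positivity
  have hsM : s * M ≤ 1 := by
    rw [hs, div_mul_eq_mul_div, div_le_one (by positivity)]; nlinarith
  have hd' : (0 : ℝ) < d := by exact_mod_cast hd
  have h2 := samp_prod hk hd (fun a => Real.exp (s * ζ a) - 1)
    (fun a => by have := Real.one_le_exp (mul_nonneg hs0.le (h0 a)); linarith)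
  simp only [add_sub_cancel] at h2
  have h3 : ∑ a, (Real.exp (s * ζ a) - 1) ≤ s * ∑ a, ζ a + d * (s * M) ^ 2 := by
    have : (d : ℝ) * (s * M) ^ 2 = ∑ _a : Fin d, (s * M) ^ 2 := by simp
    rw [this, mul_sum, ← sum_add_distrib]
    refine sum_le_sum fun a _ => ?_
    have h4 := mul_le_mul_of_nonneg_left (h1 a) hs0.le
    have h5 := mul_nonneg hs0.le (h0 a)
    have h6 := exp_le_quad h5 (h4.trans hsM)
    have h7 := pow_le_pow_left₀ h5 h4 2
    linarith
  have h4 : (samp d k hk).E (fun S => if (k : ℝ) / d * ∑ a, ζ a + k / 10 < ∑ a ∈ S, ζ a then 1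
      else 0) ≤ (samp d k hk).E (fun S => Real.exp (-(s * ((k : ℝ) / d * ∑ a, ζ a + k / 10))) *
        ∏ a ∈ S, Real.exp (s * ζ a)) := by
    refine Dist.mono _ fun S _ => ?_
    rw [← Real.exp_sum, ← Real.exp_add, ← mul_sum]
    split_ifs with h
    · refine Real.one_le_exp ?_
      have := mul_le_mul_of_nonneg_left h.le hs0.le
      linarith
    · positivity
  refine h4.trans ?_
  rw [Dist.mul_left]
  refine (mul_le_mul_of_nonneg_left h2 (Real.exp_pos _).le).trans ?_
  rw [← Real.exp_add, Real.exp_le_exp]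
  have h5 := mul_le_mul_of_nonneg_left h3 (by positivity : (0 : ℝ) ≤ k / d)
  have e : (k : ℝ) / d * (s * ∑ a, ζ a + d * (s * M) ^ 2) =
      s * (k / d * ∑ a, ζ a) + k / (400 * M ^ 2) := by
    rw [hs]; field_simp; ring
  have e2 : s * (k / 10) = 2 * (k / (400 * M ^ 2)) := by rw [hs]; field_simp; ring
  linarith

open Classical in
theorem samp_cnt {d k : ℕ} (hk : k ≤ d) (hd : 0 < d) (hk0 : 0 < k) (F : Finset (Fin d)) {s : ℝ}
    (hs0 : 0 < s) (hF : (#F : ℝ) ≤ s) (hμ : (k : ℝ) / d * s ≤ 1) (B : ℕ) :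
    (samp d k hk).E (fun S => if B < #(S.filter fun a => a ∈ F) then 1 else 0) ≤
      3 * ((k : ℝ) / d * s) ^ B := by
  set μ := (k : ℝ) / d * s with hμd
  have hd' : (0 : ℝ) < d := by exact_mod_cast hd
  have hk' : (0 : ℝ) < k := by exact_mod_cast hk0
  have hμ0 : 0 < μ := by positivity
  have hτ : 1 ≤ μ⁻¹ := (one_le_inv₀ hμ0).2 hμ
  have h2 := samp_prod hk hd (fun a => if a ∈ F then μ⁻¹ - 1 else 0)
    (fun a => by split_ifs <;> linarith)
  have h3 : (k : ℝ) / d * ∑ a, (if a ∈ F then μ⁻¹ - 1 else 0) ≤ 1 := by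
    rw [← sum_filter, sum_const, nsmul_eq_mul, filter_mem_eq_inter, univ_inter]
    have h4 : (#F : ℝ) * (μ⁻¹ - 1) ≤ s * μ⁻¹ :=
      mul_le_mul hF (by linarith) (by linarith) hs0.le
    refine (mul_le_mul_of_nonneg_left h4 (by positivity)).trans (le_of_eq ?_)
    rw [← mul_assoc, ← hμd, mul_inv_cancel₀ hμ0.ne']
  have h4 : (samp d k hk).E (fun S => if B < #(S.filter fun a => a ∈ F) then 1 else 0) ≤
      (samp d k hk).E (fun S => μ ^ B * ∏ a ∈ S, (1 + if a ∈ F then μ⁻¹ - 1 else 0)) := by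
    refine Dist.mono _ fun S _ => ?_
    have e : ∏ a ∈ S, (1 + if a ∈ F then μ⁻¹ - 1 else 0) = μ⁻¹ ^ #(S.filter fun a => a ∈ F) := by
      rw [← prod_const, prod_filter]
      refine prod_congr rfl fun a _ => ?_
      split_ifs <;> ring
    rw [e]
    split_ifs with h
    · have h5 : μ⁻¹ ^ B ≤ μ⁻¹ ^ #(S.filter fun a => a ∈ F) := pow_le_pow_right₀ hτ h.le
      refine le_trans (le_of_eq ?_) (mul_le_mul_of_nonneg_left h5 (by positivity))
      rw [← mul_pow, mul_inv_cancel₀ hμ0.ne', one_pow]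
    · positivity
  refine h4.trans ?_
  rw [Dist.mul_left, mul_comm]
  refine mul_le_mul_of_nonneg_right (h2.trans ?_) (by positivity)
  have := Real.exp_le_exp.2 h3
  linarith [Real.exp_one_lt_d9]

end Pool.Agent.H576Z.RIP
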