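import Pool.Agent.H576Z.RIP.Damp

namespace Pool.Agent.H576Z.RIP

open Finset
open scoped RealInnerProductSpace

variable {W : Type*} [NormedAddCommGroup W] [InnerProductSpace ℝ W] [FiniteDimensional ℝ W]

/-- Barrier weight. -/
noncomputable def bw (L s : ℝ) : ℝ := (1 / 60000) * ((1 - s / L)⁻¹ ^ 4 + (1 + s / L)⁻¹ ^ 4)

theorem bw_nonneg (L s : ℝ) : 0 ≤ bw L s := by unfold bw; positivity

theorem barrier_one (z δ : ℝ) (hz : 0 < z) (hδ : δ ^ 2 ≤ z ^ 2 / 100) :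
    ((z - δ)⁻¹ ^ 4 + (z + δ)⁻¹ ^ 4) / 2 ≤ z⁻¹ ^ 4 + 20 * z⁻¹ ^ 4 * (δ ^ 2 / z ^ 2) := by
  have h := barrier_ineq (δ / z) (by rw [div_pow, div_le_iff₀ (by positivity)]; linarith)
  have e1 : (z - δ)⁻¹ = z⁻¹ * (1 - δ / z)⁻¹ := by
    rw [← mul_inv]; congr 1; field_simp
  have e2 : (z + δ)⁻¹ = z⁻¹ * (1 + δ / z)⁻¹ := by
    rw [← mul_inv]; congr 1; field_simp
  rw [e1, e2, mul_pow, mul_pow]
  rw [div_pow] at h
  have hp : 0 ≤ z⁻¹ ^ 4 := by positivity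
  nlinarith

theorem var_bound {L lam v z w : ℝ} (hL : 0 < L) (hz : 0 < z) (hv : 0 ≤ v) (h1 : v ≤ lam)
    (h2 : 24000000 * lam ≤ L ^ 4) (h3 : w * v ≤ 1) (h4 : (1 / 60000) * z⁻¹ ^ 4 ≤ w) :
    v ≤ L ^ 2 * z ^ 2 / 20 := by
  have h5 : (1 / 60000) * z⁻¹ ^ 4 * v ≤ 1 := le_trans (mul_le_mul_of_nonneg_right h4 hv) h3
  have h6 : v ≤ 60000 * z ^ 4 := by
    have e : z⁻¹ ^ 4 * z ^ 4 = 1 := by rw [← mul_pow, inv_mul_cancel₀ hz.ne', one_pow]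
    have hz4 : 0 < z ^ 4 := by positivity
    nlinarith
  have h7 : v ^ 2 ≤ (L ^ 2 * z ^ 2 / 20) ^ 2 := by
    have hz4 : 0 < z ^ 4 := by positivity
    have : v * v ≤ lam * (60000 * z ^ 4) := mul_le_mul h1 h6 hv (hv.trans h1)
    nlinarith
  exact le_of_sq_le_sq_of_nonneg h7 (by positivity)
where le_of_sq_le_sq_of_nonneg {a b : ℝ} (h : a ^ 2 ≤ b ^ 2) (hb : 0 ≤ b) : a ≤ b :=
  le_trans (le_abs_self a) (abs_le_of_sq_le_sq h hb)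

theorem step {Y : Type*} [Fintype Y] {n : ℕ} (hn : Module.finrank ℝ W = n) (hn0 : 0 < n)
    (f : Y → W) {L h : ℝ} (hL : 0 < L) (hf : ∀ y, 24000000 * ‖f y‖ ^ 2 ≤ L ^ 4)
    (h0 : 0 < h) (hh : h * n ^ 3 ≤ 1 / 5) (g : W) (hg : ∀ y, |⟪f y, g⟫| < L) :
    ∃ K : Dist W, (∀ g' ∈ K.S, ∀ y, |⟪f y, g'⟫| < L) ∧
      (∀ y, K.E (fun g' => bw L ⟪f y, g'⟫) ≤ (1 + h) * bw L ⟪f y, g⟫) ∧
      (∀ θ : W, ‖θ‖ ≤ n → K.E (fun g' => Real.exp ⟪θ, g'⟫) ≤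
        Real.exp ⟪θ, g⟫ * Real.exp (h * ‖θ‖ ^ 2)) ∧
      (∀ θ : W, ⟪θ, g⟫ ^ 2 + h * (‖θ‖ ^ 2 - ∑ y, bw L ⟪f y, g⟫ * ⟪f y, θ⟫ ^ 2) ≤
        K.E (fun g' => ⟪θ, g'⟫ ^ 2)) ∧
      K.E (fun g' => ‖g'‖ ^ 2) ≤ ‖g‖ ^ 2 + h * n ∧
      K.E (fun g' => (‖g'‖ ^ 2) ^ 2) ≤ (‖g‖ ^ 2 + h * n) ^ 2 + 4 * h * ‖g‖ ^ 2 := by
  obtain ⟨c, hc1, hc2, hc3, hc4⟩ := damp hn f (fun y => bw L ⟪f y, g⟫) (fun y => bw_nonneg _ _)
  have hnR : (1 : ℝ) ≤ n := by exact_mod_cast hn0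
  have hnp : (0 : ℝ) < n := by linarith
  have hhn : h * n ≤ 1 / 5 := by
    have : (n : ℝ) ≤ n ^ 3 := by nlinarith [mul_self_nonneg ((n : ℝ) - 1), mul_self_nonneg (n : ℝ)]
    nlinarith
  set ρ := Real.sqrt (h * n) with hρ
  have hρ2 : ρ ^ 2 = h * n := Real.sq_sqrt (by positivity)
  let K : Dist W := (Dist.pm n hn0).bind (fun _ => Dist.pure ()) (fun x _ => g + (x.2 * ρ) • c x.1)
  have hKE : ∀ F : W → ℝ, K.E F =
      (∑ i : Fin n, (F (g + ρ • c i) + F (g - ρ • c i)) / 2) / n := by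
    intro F
    rw [Dist.bind_E]
    simp only [Dist.pure_E, Dist.pm_E, one_mul, neg_mul, neg_smul, sub_eq_add_neg]
  have hle : ∀ (F : W → ℝ) (A B : ℝ) (b : Fin n → ℝ),
      (∀ i, (F (g + ρ • c i) + F (g - ρ • c i)) / 2 ≤ A + b i) → ∑ i, b i ≤ n * B →
      K.E F ≤ A + B := by
    intro F A B b h1 h2
    rw [hKE, div_le_iff₀ hnp]
    calc _ ≤ ∑ i : Fin n, (A + b i) := sum_le_sum fun i _ => h1 i
      _ = n * A + ∑ i, b i := by rw [sum_add_distrib]; simp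
      _ ≤ _ := by linarith
  have hip : ∀ (θ : W) i, ⟪θ, g + ρ • c i⟫ = ⟪θ, g⟫ + ρ * ⟪c i, θ⟫ := by
    intro θ i; rw [inner_add_right, inner_smul_right, real_inner_comm (c i) θ]
  have him : ∀ (θ : W) i, ⟪θ, g - ρ • c i⟫ = ⟪θ, g⟫ - ρ * ⟪c i, θ⟫ := by
    intro θ i; rw [inner_sub_right, inner_smul_right, real_inner_comm (c i) θ]
  -- variance bounds
  have hz1 : ∀ y, 0 < 1 - ⟪f y, g⟫ / L := fun y => by
    have := (abs_lt.1 (hg y)).2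
    rw [sub_pos, div_lt_one hL]; exact this
  have hz2 : ∀ y, 0 < 1 + ⟪f y, g⟫ / L := fun y => by
    have := (abs_lt.1 (hg y)).1
    have h3 : -1 < ⟪f y, g⟫ / L := by rw [lt_div_iff₀ hL]; linarith
    linarith
  have hv0 : ∀ θ : W, 0 ≤ ∑ i, ⟪c i, θ⟫ ^ 2 := fun θ => sum_nonneg fun i _ => sq_nonneg _
  have hv1 : ∀ y, ∑ i, ⟪c i, f y⟫ ^ 2 ≤ L ^ 2 * (1 - ⟪f y, g⟫ / L) ^ 2 / 20 := fun y =>
    var_bound hL (hz1 y) (hv0 _) (hc2 _) (hf y) (hc4 y) (by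
      unfold bw
      have : 0 ≤ (1 + ⟪f y, g⟫ / L)⁻¹ ^ 4 := by positivity
      linarith)
  have hv2 : ∀ y, ∑ i, ⟪c i, f y⟫ ^ 2 ≤ L ^ 2 * (1 + ⟪f y, g⟫ / L) ^ 2 / 20 := fun y =>
    var_bound hL (hz2 y) (hv0 _) (hc2 _) (hf y) (hc4 y) (by
      unfold bw
      have : 0 ≤ (1 - ⟪f y, g⟫ / L)⁻¹ ^ 4 := by positivity
      linarith)
  have hsingle : ∀ (θ : W) i, ⟪c i, θ⟫ ^ 2 ≤ ∑ i, ⟪c i, θ⟫ ^ 2 := fun θ i =>
    single_le_sum (f := fun i => ⟪c i, θ⟫ ^ 2) (fun i _ => sq_nonneg _) (mem_univ i)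
  have hd : ∀ y i (z : ℝ), ∑ i, ⟪c i, f y⟫ ^ 2 ≤ L ^ 2 * z ^ 2 / 20 →
      (ρ * ⟪c i, f y⟫ / L) ^ 2 ≤ z ^ 2 / 100 := by
    intro y i z hz
    rw [div_pow, mul_pow, hρ2, div_le_iff₀ (by positivity)]
    have h1 := (hsingle (f y) i).trans hz
    have h2 : 0 ≤ L ^ 2 * z ^ 2 := by positivity
    have h3 := mul_le_mul hhn h1 (sq_nonneg _) (by norm_num)
    linarith
  refine ⟨K, ?_, ?_, ?_, ?_, ?_, ?_⟩
  · intro g' hg' y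
    obtain ⟨x, hx, -, -, rfl⟩ := (Dist.bind_S _ _ _ _).1 hg'
    have a1 := abs_le_of_sq_le_sq (a := ρ * ⟪c x.1, f y⟫ / L) (b := (1 - ⟪f y, g⟫ / L) / 10)
      (by have := hd y x.1 _ (hv1 y); linarith [show ((1 - ⟪f y, g⟫ / L) / 10) ^ 2 =
        (1 - ⟪f y, g⟫ / L) ^ 2 / 100 by ring]) (by have := hz1 y; positivity)
    have a2 := abs_le_of_sq_le_sq (a := ρ * ⟪c x.1, f y⟫ / L) (b := (1 + ⟪f y, g⟫ / L) / 10)
      (by have := hd y x.1 _ (hv2 y); linarith [show ((1 + ⟪f y, g⟫ / L) / 10) ^ 2 =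
        (1 + ⟪f y, g⟫ / L) ^ 2 / 100 by ring]) (by have := hz2 y; positivity)
    have b1 := abs_le.1 a1
    have b2 := abs_le.1 a2
    have c1 := hz1 y
    have c2 := hz2 y
    have key : |⟪f y, g + (x.2 * ρ) • c x.1⟫ / L| < 1 := by
      rw [inner_add_right, inner_smul_right, real_inner_comm (c x.1) (f y), add_div]
      rcases (Dist.pm_S _ _ _).1 hx with h1 | h1
      · rw [h1, one_mul, abs_lt]; constructor <;> linarith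
      · rw [h1, neg_mul, neg_mul, one_mul, neg_div, abs_lt]; constructor <;> linarith
    rwa [abs_div, abs_of_pos hL, div_lt_one hL] at key
  · intro y
    set z1 := 1 - ⟪f y, g⟫ / L with hz1'
    set z2 := 1 + ⟪f y, g⟫ / L with hz2'
    have p1 : 0 < z1 := hz1 y
    have p2 : 0 < z2 := hz2 y
    have := hle (fun g' => bw L ⟪f y, g'⟫) (bw L ⟪f y, g⟫) (h * bw L ⟪f y, g⟫)
      (fun i => (1 / 60000) * (20 * z1⁻¹ ^ 4 * ((ρ * ⟪c i, f y⟫ / L) ^ 2 / z1 ^ 2) +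
        20 * z2⁻¹ ^ 4 * ((ρ * ⟪c i, f y⟫ / L) ^ 2 / z2 ^ 2))) ?_ ?_
    · linarith
    · intro i
      have q1 := barrier_one z1 _ p1 (hd y i _ (hv1 y))
      have q2 := barrier_one z2 _ p2 (hd y i _ (hv2 y))
      simp only [hip, him, bw]
      have e1 : 1 - (⟪f y, g⟫ + ρ * ⟪c i, f y⟫) / L = z1 - ρ * ⟪c i, f y⟫ / L := by
        rw [hz1']; ring
      have e2 : 1 + (⟪f y, g⟫ + ρ * ⟪c i, f y⟫) / L = z2 + ρ * ⟪c i, f y⟫ / L := by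
        rw [hz2']; ring
      have e3 : 1 - (⟪f y, g⟫ - ρ * ⟪c i, f y⟫) / L = z1 + ρ * ⟪c i, f y⟫ / L := by
        rw [hz1']; ring
      have e4 : 1 + (⟪f y, g⟫ - ρ * ⟪c i, f y⟫) / L = z2 - ρ * ⟪c i, f y⟫ / L := by
        rw [hz2']; ring
      rw [e1, e2, e3, e4, ← hz1', ← hz2']
      linarith
    · have e : ∀ z : ℝ, 0 < z → ∑ i, ⟪c i, f y⟫ ^ 2 ≤ L ^ 2 * z ^ 2 / 20 →
          ∑ i, 20 * z⁻¹ ^ 4 * ((ρ * ⟪c i, f y⟫ / L) ^ 2 / z ^ 2) ≤ n * (h * z⁻¹ ^ 4) := by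
        intro z hz hv
        have : ∑ i, 20 * z⁻¹ ^ 4 * ((ρ * ⟪c i, f y⟫ / L) ^ 2 / z ^ 2) =
            (20 * z⁻¹ ^ 4 * (h * n) / (L ^ 2 * z ^ 2)) * ∑ i, ⟪c i, f y⟫ ^ 2 := by
          rw [mul_sum]; congr 1; funext i; rw [← hρ2]; field_simp
        rw [this]
        calc _ ≤ (20 * z⁻¹ ^ 4 * (h * n) / (L ^ 2 * z ^ 2)) * (L ^ 2 * z ^ 2 / 20) :=
              mul_le_mul_of_nonneg_left hv (by positivity)
          _ = _ := by field_simp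
      rw [← mul_sum, sum_add_distrib]
      have e1 := e z1 p1 (hv1 y)
      have e2 := e z2 p2 (hv2 y)
      unfold bw
      rw [← hz1', ← hz2']
      nlinarith
  · intro θ hθ
    have := hle (fun g' => Real.exp ⟪θ, g'⟫) (Real.exp ⟪θ, g⟫) (Real.exp ⟪θ, g⟫ * (h * ‖θ‖ ^ 2))
      (fun i => Real.exp ⟪θ, g⟫ * (ρ * ⟪c i, θ⟫) ^ 2) ?_ ?_
    · have h1 := Real.add_one_le_exp (h * ‖θ‖ ^ 2)
      have h2 := Real.exp_pos ⟪θ, g⟫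
      nlinarith
    · intro i
      simp only [hip, him]
      have h1 : (ρ * ⟪c i, θ⟫) ^ 2 ≤ 1 := by
        rw [mul_pow, hρ2]
        have h2 := (hsingle θ i).trans (hc2 θ)
        have h3 : ‖θ‖ ^ 2 ≤ n ^ 2 := pow_le_pow_left₀ (norm_nonneg _) hθ 2
        have h4 := mul_le_mul_of_nonneg_left (h2.trans h3) (by positivity : 0 ≤ h * n)
        nlinarith
      have h2 := cosh_ineq _ h1
      rw [sub_eq_add_neg, Real.exp_add, Real.exp_add]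
      have h3 := Real.exp_pos ⟪θ, g⟫
      nlinarith
    · rw [← mul_sum]
      have : ∑ i, (ρ * ⟪c i, θ⟫) ^ 2 = h * n * ∑ i, ⟪c i, θ⟫ ^ 2 := by
        rw [mul_sum]; congr 1; funext i; rw [mul_pow, hρ2]
      rw [this]
      have h3 := Real.exp_pos ⟪θ, g⟫
      have h4 := mul_le_mul_of_nonneg_left (hc2 θ) (by positivity : 0 ≤ Real.exp ⟪θ, g⟫ * (h * n))
      nlinarith
  · intro θ
    rw [hKE, le_div_iff₀ hnp]
    have : ∑ i : Fin n, (⟪θ, g + ρ • c i⟫ ^ 2 + ⟪θ, g - ρ • c i⟫ ^ 2) / 2 =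
        n * ⟪θ, g⟫ ^ 2 + h * n * ∑ i, ⟪c i, θ⟫ ^ 2 := by
      rw [mul_sum]
      have : (n : ℝ) * ⟪θ, g⟫ ^ 2 = ∑ _i : Fin n, ⟪θ, g⟫ ^ 2 := by simp
      rw [this, ← sum_add_distrib]; congr 1; funext i
      rw [hip, him, ← hρ2]; ring
    rw [this]
    have h4 := mul_le_mul_of_nonneg_left (hc3 θ) (by positivity : 0 ≤ h * n)
    nlinarith
  · have := hle (fun g' => ‖g'‖ ^ 2) (‖g‖ ^ 2 + h * n) 0 (fun _ => 0) ?_ (by simp)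
    · linarith
    · intro i
      rw [norm_add_sq_real, norm_sub_sq_real, norm_smul, mul_pow, Real.norm_eq_abs, sq_abs, hρ2]
      have := mul_le_mul_of_nonneg_left (hc1 i) (by positivity : 0 ≤ h * n)
      linarith
  · refine hle (fun g' => (‖g'‖ ^ 2) ^ 2) ((‖g‖ ^ 2 + h * n) ^ 2) (4 * h * ‖g‖ ^ 2)
      (fun i => 4 * (h * n) * ⟪c i, g⟫ ^ 2) ?_ ?_
    · intro i
      rw [norm_add_sq_real, norm_sub_sq_real, norm_smul, mul_pow, Real.norm_eq_abs, sq_abs, hρ2,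
        inner_smul_right, real_inner_comm (c i) g, ← hρ2]
      have h1 := mul_le_mul_of_nonneg_left (hc1 i) (by positivity : 0 ≤ ρ ^ 2)
      have h2 : (‖g‖ ^ 2 + ρ ^ 2 * ‖c i‖ ^ 2) ^ 2 ≤ (‖g‖ ^ 2 + ρ ^ 2) ^ 2 :=
        pow_le_pow_left₀ (by positivity) (by linarith) 2
      nlinarith
    · rw [← mul_sum]
      have h4 := mul_le_mul_of_nonneg_left (hc2 g) (by positivity : 0 ≤ 4 * (h * n))
      nlinarith

end Pool.Agent.H576Z.RIP
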