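import Pool.Agent.H576Z.RIP.Total

namespace Pool.Agent.H576Z.RIP

open Finset Function
open scoped RealInnerProductSpace

/-- The mixed matrix. -/
noncomputable def Umat (d : ℕ) (v : ℕ → EV d) : Matrix (Fin d) (Fin d) ℝ :=
  fun a y => mix (fun q => ⟪v q, ee d y⟫) d a

theorem inner_eq_sum {d : ℕ} (u θ : EV d) : ⟪u, θ⟫ = ∑ y, ⟪u, ee d y⟫ * θ y := by
  simp [ee, EuclideanSpace.inner_single_right, PiLp.inner_apply, mul_comm]

theorem Umat_mul {d : ℕ} (v : ℕ → EV d) (θ : EV d) (a : Fin d) :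
    ∑ y, Umat d v a y * θ y = mix (fun q => ⟪v q, θ⟫) d a := by
  simp only [inner_eq_sum _ θ]
  rw [mix_sum]; rfl

theorem Umat_iso {d : ℕ} {v : ℕ → EV d} (h : ON d v 0) (θ : EV d) :
    ∑ a : Fin d, mix (fun q => ⟪v q, θ⟫) d a ^ 2 = ‖θ‖ ^ 2 := by
  rw [Fin.sum_univ_eq_sum_range (fun a => mix (fun q => ⟪v q, θ⟫) d a ^ 2), mix_parseval,
    sum_range_eq_Rm h le_rfl]
  simp [Rm]

theorem norm_ee {d : ℕ} (y : Fin d) : ‖ee d y‖ ^ 2 ≤ 1 := by simp [ee]

theorem big_pow (n : ℕ) (hn : 50 ≤ n) : (44000 * (n + 1)) ^ 2 ≤ 2 ^ n := by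
  induction n, hn using Nat.le_induction with
  | base => norm_num
  | succ n hn ih => rw [pow_succ 2 n]; nlinarith

theorem abs_le_of_ex {y M c : ℝ} (hc : 0 ≤ c) (h : ex y M ^ 2 ≤ c ^ 2) : |y| ≤ M + c := by
  have h1 : ex y M ≤ c := le_trans (le_abs_self _) (abs_le_of_sq_le_sq h hc)
  have h2 : |y| - M ≤ ex y M := le_max_left _ _
  linarith

namespace Proc

variable {d : ℕ} (X : Proc d)

theorem sup_bound (hd : 2 ^ 50 ≤ d) : ∃ F : (ℕ → EV d) → ℝ, (∀ v, 0 ≤ F v) ∧
    (X.P 0).E F ≤ 1 / 4 ∧ ∀ v ∈ (X.P 0).S, F v < 1 → ∀ a y,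
      |Umat d v a y| ≤ 2 ^ 25 / Real.sqrt d := by
  classical
  obtain ⟨J', hJ'⟩ : ∃ J', J' = Nat.log 2 d := ⟨_, rfl⟩
  have hd0 : 0 < d := lt_of_lt_of_le (by positivity) hd
  have a1 : 2 ^ J' ≤ d := hJ' ▸ Nat.pow_log_le_self 2 hd0.ne'
  have a2 : d < 2 ^ (J' + 1) := hJ' ▸ Nat.lt_pow_succ_log_self (by norm_num) d
  have a3 : 50 ≤ J' := hJ' ▸ (Nat.le_log_iff_pow_le (by norm_num) hd0.ne').2 hd
  obtain ⟨T, hT⟩ : ∃ T, T = 44000 * (J' + 1) := ⟨_, rfl⟩
  have hT0 : 0 < T := by omega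
  have a4 : T ^ 2 ≤ d := hT ▸ (big_pow J' a3).trans a1
  have a5 : T ≤ d := le_trans (Nat.le_self_pow (by norm_num) T) a4
  obtain ⟨J, hJ⟩ : ∃ J, J = Nat.log 2 (d / T) := ⟨_, rfl⟩
  have b0 : 0 < d / T := Nat.div_pos a5 hT0
  have b1 : 2 ^ J ≤ d / T := hJ ▸ Nat.pow_log_le_self 2 b0.ne'
  have b2 : d / T < 2 ^ (J + 1) := hJ ▸ Nat.lt_pow_succ_log_self (by norm_num) _
  have b3 : T ≤ d / 2 ^ J := by
    rw [Nat.le_div_iff_mul_le (by positivity), mul_comm]
    exact (Nat.le_div_iff_mul_le hT0).1 b1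
  have b4 : d < 2 ^ (J + 1) * T := (Nat.div_lt_iff_lt_mul hT0).1 b2
  have b5 : J' + 1 ≤ 2 * (J + 1) := by
    have h1 : T < 2 ^ (J + 1) := by
      by_contra h
      push Not at h
      have : 2 ^ (J + 1) * T ≤ T * T := Nat.mul_le_mul_right T h
      nlinarith
    have h2 : 2 ^ J' < 2 ^ (2 * (J + 1)) := by
      rw [two_mul, pow_add]
      have := Nat.mul_lt_mul_of_le_of_lt (le_refl (2 ^ (J + 1))) h1 (by positivity)
      omega
    have := (Nat.pow_lt_pow_iff_right (by norm_num : 1 < 2)).1 h2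
    omega
  have b6 : J + 1 ≤ d := by
    have h1 : J < 2 ^ J := Nat.lt_two_pow_self
    have h2 := Nat.div_le_self d T
    omega
  have hd' : (0 : ℝ) < d := by exact_mod_cast hd0
  have hd2 : (2 : ℝ) ≤ d := by exact_mod_cast (le_trans (by norm_num) hd : 2 ≤ d)
  have hsg := sg_pos
  let A : Fin d → ℕ → (ℕ → EV d) → ℝ := fun y j v =>
    if 3 * sg ^ (4 * j) < Rm d v (d / 2 ^ j) (ee d y) then 1 else 0
  have hA0 : ∀ y j v, 0 ≤ A y j v := fun y j v => by simp only [A]; split_ifs <;> norm_num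
  refine ⟨fun v => ∑ y, ∑ j ∈ range (J + 1), A y j v,
    fun v => sum_nonneg fun y _ => sum_nonneg fun j _ => hA0 y j v, ?_, ?_⟩
  · rw [Dist.sum]
    have h1 : ∀ y, (X.P 0).E (fun v => ∑ j ∈ range (J + 1), A y j v) ≤
        d * Real.exp (-((4 * (J' + 1) : ℕ) : ℝ)) := by
      intro y
      rw [Dist.sum]
      refine (sum_le_sum fun j hj => X.decay_tail (ee d y) (norm_ee y) (p := 4 * (J' + 1)) (J := J)
        (by omega) (by omega) (by omega) j (Nat.lt_succ_iff.1 (mem_range.1 hj))).trans ?_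
      rw [sum_const, card_range, nsmul_eq_mul]
      exact mul_le_mul_of_nonneg_right (by exact_mod_cast b6) (Real.exp_pos _).le
    refine (sum_le_sum fun y _ => h1 y).trans ?_
    rw [sum_const, card_univ, Fintype.card_fin, nsmul_eq_mul]
    have h2 : (d : ℝ) ^ 4 ≤ Real.exp ((4 * (J' + 1) : ℕ) : ℝ) := by
      rw [Nat.cast_mul, Real.exp_nat_mul]
      refine pow_le_pow_left₀ hd'.le ?_ 4
      rw [← mul_one ((J' + 1 : ℕ) : ℝ), Real.exp_nat_mul]
      have h3 : (d : ℝ) ≤ 2 ^ (J' + 1) := by exact_mod_cast a2.le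
      exact h3.trans (pow_le_pow_left₀ (by norm_num) (by linarith [Real.add_one_le_exp 1]) _)
    rw [Real.exp_neg]
    have h3 := inv_anti₀ (by positivity) h2
    calc _ ≤ d * (d * ((d : ℝ) ^ 4)⁻¹) := by gcongr
      _ = 1 / (d * d) := by field_simp
      _ ≤ 1 / 4 := one_div_le_one_div_of_le (by norm_num) (by nlinarith)
  · intro v hv hF a y
    have c1 : ∀ y, ∀ j ≤ J, Rm d v (d / 2 ^ j) (ee d y) ≤ 3 * sg ^ (4 * j) := by
      intro y j hj
      by_contra h3
      push Not at h3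
      have h4 := single_le_sum (f := fun j => A y j v) (fun j _ => hA0 y j v)
        (mem_range.2 (Nat.lt_succ_of_le hj))
      have h5 := single_le_sum (f := fun y => ∑ j ∈ range (J + 1), A y j v)
        (fun y _ => sum_nonneg fun j _ => hA0 y j v) (mem_univ y)
      have h6 : A y j v = 1 := if_pos h3
      linarith
    have hsd : 0 < Real.sqrt d := Real.sqrt_pos.2 hd'
    have hsd2 : Real.sqrt d ^ 2 = d := Real.sq_sqrt hd'.le
    have key := det_total (fun q => ⟪v q, ee d y⟫) hd0 {a} (μ := 200 / Real.sqrt d) (Λ := 0)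
      (Λ' := 176000) (by positivity) le_rfl (by norm_num) J (fun j hj => ?_) ?_ ?_
    · rw [sum_singleton] at key
      have h1 : sg ^ J ≤ 1 := pow_le_one₀ hsg.le sg_lt.le
      have h2 := abs_le_of_ex (c := 6500 / Real.sqrt d) (by positivity) (key.trans (by
        rw [div_pow, hsd2]
        exact div_le_div_of_nonneg_right (by linarith) hd'.le))
      refine h2.trans ?_
      rw [mul_div_assoc', ← add_div]
      exact div_le_div_of_nonneg_right (by norm_num) hsd.le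
    · rw [mul_zero, zero_div]
      refine le_of_eq (sum_eq_zero fun q hq => ?_)
      rw [mem_Ico] at hq
      have hqd : q < d := lt_of_lt_of_le hq.2 (Nat.div_le_self _ _)
      obtain ⟨w, hw, hw1, hw2⟩ := X.bddS v hv q hqd
      have h0 := div_pow_anti d (show j + 1 ≤ J from hj)
      have h1 := (X.spec q hqd w hw).bdd (by omega) (100 * sg ^ j) (by positivity) (fun y' => by
        have e : Rm d w (q + 1) (ee d y') = Rm d v (q + 1) (ee d y') := by
          unfold Rm; congr 1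
          exact sum_congr rfl fun q' hq' => by rw [hw2 q' (mem_Ico.1 hq').1]
        have h2 := (Rm_mono v (ee d y') (show q + 1 ≤ d / 2 ^ j from hq.2)).trans (c1 y' j hj.le)
        have e2 : (100 * sg ^ j) ^ 4 = 100000000 * sg ^ (4 * j) := by
          rw [mul_pow, ← pow_mul, mul_comm j 4]; norm_num
        rw [e, e2]
        have : 0 < sg ^ (4 * j) := by positivity
        linarith) (v q) hw1 y
      have h2 : ⟪v q, ee d y⟫ ^ 2 ≤ (200 / Real.sqrt d * (Real.sqrt 2 * sg) ^ j) ^ 2 := by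
        refine h1.trans ?_
        have hs2 : Real.sqrt 2 ^ 2 = 2 := Real.sq_sqrt (by norm_num)
        have e1 : (200 / Real.sqrt d * (Real.sqrt 2 * sg) ^ j) ^ 2 =
            2 * (100 * sg ^ j) ^ 2 / (d / 2 ^ (j + 1)) := by
          rw [mul_pow, ← pow_mul, mul_comm j 2, pow_mul, mul_pow, hs2, mul_pow, ← pow_mul, div_pow,
            hsd2]
          field_simp; ring
        rw [e1]
        have h3 : (d : ℝ) / 2 ^ (j + 1) ≤ ((q + 1 : ℕ) : ℝ) := by
          refine (real_div_le d (j + 1)).trans ?_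
          push_cast
          have : ((d / 2 ^ (j + 1) : ℕ) : ℝ) ≤ q := by exact_mod_cast hq.1
          linarith
        gcongr
      have h3 := abs_le_of_sq_le_sq h2 (by positivity)
      have h4 : ex ⟪v q, ee d y⟫ (200 / Real.sqrt d * (Real.sqrt 2 * sg) ^ j) = 0 :=
        max_eq_right (by linarith)
      rw [h4]; simp
    · rw [sum_range_eq_Rm (X.onS 0 (Nat.zero_le d) v hv) (Nat.div_le_self _ _)]
      exact c1 y J le_rfl
    · intro i
      have h1 : cnt ({a} : Finset (Fin d)) J i ≤ 1 := by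
        unfold cnt
        exact (card_filter_le _ _).trans (by simp)
      have h2 : d ≤ 176000 * (J + 1) * 2 ^ J := by
        have : 2 ^ (J + 1) * T ≤ 2 ^ (J + 1) * (88000 * (J + 1)) := Nat.mul_le_mul_left _ (by omega)
        rw [pow_succ] at this b4
        nlinarith
      rw [le_div_iff₀ hd']
      have h3 : (cnt ({a} : Finset (Fin d)) J i : ℝ) ≤ 1 := by exact_mod_cast h1
      have h4 : (d : ℝ) ≤ 176000 * (J + 1) * 2 ^ J := by exact_mod_cast h2
      nlinarith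

end Proc

end Pool.Agent.H576Z.RIP
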