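import Pool.Agent.H576Z.RIP.Proc

namespace Pool.Agent.H576Z.RIP

open Finset Function
open scoped RealInnerProductSpace

noncomputable def sg : ℝ := 80 / 81

theorem sg_pos : 0 < sg := by unfold sg; norm_num
theorem sg_lt : sg < 1 := by unfold sg; norm_num

theorem exp_le_sg : Real.exp (-(1 / 20)) ≤ sg ^ 4 := by
  have h1 : Real.exp (-(1 / 80)) ≤ sg := by
    rw [Real.exp_neg, sg, inv_le_comm₀ (Real.exp_pos _) (by norm_num)]
    have := Real.add_one_le_exp (1 / 80)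
    linarith [show (80 / 81 : ℝ)⁻¹ = 1 / 80 + 1 by norm_num]
  have h2 : Real.exp (-(1 / 20)) = Real.exp (-(1 / 80)) ^ 4 := by
    rw [← Real.exp_nat_mul]; congr 1; norm_num
  rw [h2]
  exact pow_le_pow_left₀ (Real.exp_pos _).le h1 4

theorem div_pow_succ (d j : ℕ) : d / 2 ^ (j + 1) = d / 2 ^ j / 2 := by
  rw [pow_succ, Nat.div_div_eq_div_mul]

theorem div_pow_anti (d : ℕ) {j J : ℕ} (h : j ≤ J) : d / 2 ^ J ≤ d / 2 ^ j :=
  Nat.div_le_div_left (Nat.pow_le_pow_right (by norm_num) h) (by positivity)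

theorem ex_anti (y : ℝ) {M M' : ℝ} (h : M ≤ M') : ex y M' ≤ ex y M :=
  max_le_max (by linarith) le_rfl

namespace Proc

variable {d : ℕ} (X : Proc d)

theorem decay_level (θ : EV d) {p n : ℕ} (hn : n ≤ d) (hp : 1 ≤ p) (h1 : 20000 ≤ n / 2)
    (h2 : 6000 * p ≤ n / 2) :
    (X.P (n / 2)).E (fun v => Rm d v (n / 2) θ ^ p) ≤
      (sg ^ 4) ^ p * (X.P n).E (fun v => Rm d v n θ ^ p) := by
  have hn0 : (0 : ℝ) < n := by exact_mod_cast (by omega : 0 < n)
  have := X.chain (fun m v => Rm d v m θ ^ p) (fun _ => Real.exp (-(p / (10 * n))))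
    (fun _ => (Real.exp_pos _).le) (Nat.div_le_self n 2) hn (fun m hm1 hm2 v hv => by
      refine (X.decay_step θ (by omega) hp (by omega) (by omega) v hv).trans ?_
      refine mul_le_mul_of_nonneg_right (Real.exp_le_exp.2 ?_)
        (pow_nonneg (Rm_nonneg (X.onS _ (by omega) v hv) θ) p)
      have h3 : ((m + 1 : ℕ) : ℝ) ≤ n := by exact_mod_cast hm2
      have h4 : (0 : ℝ) < ((m + 1 : ℕ) : ℝ) := by positivity
      rw [neg_le_neg_iff]
      gcongr)
  refine this.trans (mul_le_mul_of_nonneg_right ?_ (Dist.pos _ _ fun v hv =>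
    pow_nonneg (Rm_nonneg (X.onS _ hn v hv) θ) p))
  rw [prod_const, Nat.card_Ico, ← Real.exp_nat_mul]
  refine le_trans ?_ (pow_le_pow_left₀ (Real.exp_pos _).le exp_le_sg p)
  rw [← Real.exp_nat_mul, Real.exp_le_exp]
  have h3 : (n : ℝ) ≤ 2 * ((n - n / 2 : ℕ) : ℝ) := by exact_mod_cast (by omega)
  have h4 : (p : ℝ) / 20 ≤ ((n - n / 2 : ℕ) : ℝ) * (p / (10 * n)) := by
    rw [mul_div_assoc', div_le_div_iff₀ (by norm_num) (by positivity)]
    have := mul_le_mul_of_nonneg_left h3 (by positivity : (0 : ℝ) ≤ 10 * p)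
    linarith
  linarith

theorem decay_all (θ : EV d) (hθ : ‖θ‖ ^ 2 ≤ 1) {p J : ℕ} (hp : 1 ≤ p) (h1 : 20000 ≤ d / 2 ^ J)
    (h2 : 6000 * p ≤ d / 2 ^ J) (j : ℕ) (hj : j ≤ J) :
    (X.P (d / 2 ^ j)).E (fun v => Rm d v (d / 2 ^ j) θ ^ p) ≤ (sg ^ (4 * j)) ^ p := by
  induction j with
  | zero =>
    simp only [pow_zero, Nat.div_one, mul_zero, one_pow]
    refine Dist.le_const _ fun v _ => ?_
    simp only [Rm, Ico_self, sum_empty, sub_zero]
    exact pow_le_one₀ (by positivity) hθ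
  | succ j ih =>
    have h3 := div_pow_anti d hj
    rw [div_pow_succ] at h3 ⊢
    refine (X.decay_level θ (Nat.div_le_self _ _) hp (by omega) (by omega)).trans ?_
    refine (mul_le_mul_of_nonneg_left (ih (by omega)) (by have := sg_pos; positivity)).trans ?_
    rw [← mul_pow, ← pow_add]
    apply le_of_eq; congr 2; ring

open Classical in
theorem decay_tail (θ : EV d) (hθ : ‖θ‖ ^ 2 ≤ 1) {p J : ℕ} (hp : 1 ≤ p) (h1 : 20000 ≤ d / 2 ^ J)
    (h2 : 6000 * p ≤ d / 2 ^ J) (j : ℕ) (hj : j ≤ J) :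
    (X.P 0).E (fun v => if 3 * sg ^ (4 * j) < Rm d v (d / 2 ^ j) θ then 1 else 0) ≤
      Real.exp (-p) := by
  refine (X.frozen _ (Nat.div_le_self d (2 ^ j)) fun q hq v u => by
    rw [Rm_update_lt _ _ _ hq]).trans ?_
  have hs : 0 < sg ^ (4 * j) := by have := sg_pos; positivity
  have h3 : (X.P (d / 2 ^ j)).E (fun v => if 3 * sg ^ (4 * j) < Rm d v (d / 2 ^ j) θ then 1 else 0)
      ≤ (X.P (d / 2 ^ j)).E (fun v => ((3 * sg ^ (4 * j)) ^ p)⁻¹ * Rm d v (d / 2 ^ j) θ ^ p) := by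
    refine Dist.mono _ fun v hv => ?_
    have h0 := Rm_nonneg (X.onS _ (Nat.div_le_self d (2 ^ j)) v hv) θ
    split_ifs with h
    · rw [le_inv_mul_iff₀ (by positivity), mul_one]
      exact pow_le_pow_left₀ (by positivity) h.le p
    · positivity
  refine h3.trans ?_
  rw [Dist.mul_left]
  refine (mul_le_mul_of_nonneg_left (X.decay_all θ hθ hp h1 h2 j hj) (by positivity)).trans ?_
  rw [mul_pow, mul_inv, mul_assoc, inv_mul_cancel₀ (by positivity), mul_one, Real.exp_neg]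
  refine inv_anti₀ (Real.exp_pos _) ?_
  rw [← mul_one (p : ℝ), Real.exp_nat_mul]
  exact pow_le_pow_left₀ (Real.exp_pos _).le (by linarith [Real.exp_one_lt_d9]) p

open Classical in
theorem exc_tail (θ : EV d) {n1 n2 : ℕ} (h12 : n1 ≤ n2) (h2 : n2 ≤ d) (h1 : 20000 ≤ n1)
    (N : ℕ → ℝ) {B ν s ρ M μ δ t : ℝ} (hB : 0 < B) (hN0 : ∀ q, 0 ≤ N q) (hN : ∀ q, N q ≤ B)
    (hν0 : 0 < ν) (hν : ν ≤ n1 + 1) (hs : (#((Ico n1 n2).filter fun q => N q ≠ 0) : ℝ) ≤ s)
    (hρ : 0 < ρ) (hM : 0 ≤ M) (hμ : 0 ≤ μ) (hMμ : 2 * ρ * M ^ 2 / ν ≤ μ ^ 2)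
    (hδ : 72 * Real.exp (-(M ^ 2 / 8)) ≤ δ) :
    (X.P 0).E (fun v => if Rm d v n2 θ ≤ ρ ∧ 16 * ρ * B * (δ * s + t) / ν <
      ∑ q ∈ Ico n1 n2, N q * ex ⟪v q, θ⟫ μ ^ 2 then 1 else 0) ≤ Real.exp (-t) := by
  have hδ0 : 0 ≤ δ := le_trans (by positivity) hδ
  refine (X.frozen _ (h12.trans h2) fun q hq v u => by
    rw [Rm_update_lt _ _ _ (by omega : q < n2)]
    have : ∑ q' ∈ Ico n1 n2, N q' * ex ⟪update v q u q', θ⟫ μ ^ 2 =
        ∑ q' ∈ Ico n1 n2, N q' * ex ⟪v q', θ⟫ μ ^ 2 := sum_congr rfl fun q' hq' => by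
      rw [update_of_ne (by have := (mem_Ico.1 hq').1; omega)]
    rw [this]).trans ?_
  set s0 := ν / (16 * ρ * B) with hs0
  have hs0p : 0 < s0 := by positivity
  let Φ : ℕ → (ℕ → EV d) → ℝ := fun n v => if Rm d v n2 θ ≤ ρ then
    Real.exp (s0 * ∑ q ∈ Ico n n2, N q * ex ⟪v q, θ⟫ μ ^ 2) else 0
  have hch := X.chain Φ (fun n => Real.exp (δ * if N n ≠ 0 then 1 else 0))
    (fun _ => (Real.exp_pos _).le) h12 h2 (fun n hn1 hn2 v hv => by
      have hnd : n < d := by omega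
      have e : ∀ u, Φ n (update v n u) = Φ (n + 1) v * Real.exp (s0 * (N n * ex ⟪u, θ⟫ μ ^ 2)) := by
        intro u
        simp only [Φ]
        rw [Rm_update_lt _ _ _ hn2, sum_eq_sum_Ico_succ_bot hn2, update_self]
        have : ∑ q' ∈ Ico (n + 1) n2, N q' * ex ⟪update v n u q', θ⟫ μ ^ 2 =
            ∑ q' ∈ Ico (n + 1) n2, N q' * ex ⟪v q', θ⟫ μ ^ 2 := sum_congr rfl fun q' hq' => by
          rw [update_of_ne (by have := (mem_Ico.1 hq').1; omega)]
        rw [this]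
        split_ifs
        · rw [← Real.exp_add]; congr 1; ring
        · simp
      simp only [e]
      rw [Dist.mul_left, mul_comm]
      by_cases hR : Rm d v n2 θ ≤ ρ
      swap
      · simp [Φ, hR]
      refine mul_le_mul_of_nonneg_right ?_ (by simp only [Φ]; split_ifs <;> positivity)
      by_cases hNn : N n = 0
      · simp [hNn, Dist.const]
      rw [if_pos hNn, mul_one]
      have hn' : ν ≤ ((n + 1 : ℕ) : ℝ) := by
        have : (n1 : ℝ) ≤ n := by exact_mod_cast hn1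
        push_cast; linarith
      have h3 := (X.spec n hnd v hv).exc (by omega) θ ρ M μ hρ
        ((Rm_mono v θ (by omega)).trans hR) hM hμ (le_trans (by gcongr) hMμ)
      refine le_trans (Dist.mono _ fun u _ => ?_) (h3.trans ?_)
      · rw [Real.exp_le_exp, ← mul_assoc]
        refine mul_le_mul_of_nonneg_right ?_ (sq_nonneg _)
        calc s0 * N n ≤ s0 * B := mul_le_mul_of_nonneg_left (hN n) hs0p.le
          _ = ν / (16 * ρ) := by rw [hs0]; field_simp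
          _ ≤ _ := by gcongr
      · linarith [Real.add_one_le_exp δ])
  have h3 : (X.P n2).E (Φ n2) ≤ 1 := Dist.le_const _ fun v _ => by
    simp only [Φ]; split_ifs <;> simp
  have h4 : ∏ n ∈ Ico n1 n2, Real.exp (δ * if N n ≠ 0 then 1 else 0) ≤ Real.exp (δ * s) := by
    rw [← Real.exp_sum, Real.exp_le_exp, ← mul_sum, sum_boole]
    exact mul_le_mul_of_nonneg_left hs hδ0
  have h5 : (X.P n1).E (Φ n1) ≤ Real.exp (δ * s) := by
    refine hch.trans ?_
    have h6 : 0 ≤ ∏ n ∈ Ico n1 n2, Real.exp (δ * if N n ≠ 0 then 1 else 0) :=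
      prod_nonneg fun _ _ => (Real.exp_pos _).le
    exact (mul_le_of_le_one_right h6 h3).trans h4
  have h6 : (X.P n1).E (fun v => if Rm d v n2 θ ≤ ρ ∧ 16 * ρ * B * (δ * s + t) / ν <
      ∑ q ∈ Ico n1 n2, N q * ex ⟪v q, θ⟫ μ ^ 2 then 1 else 0) ≤
      (X.P n1).E (fun v => Real.exp (-(δ * s + t)) * Φ n1 v) := by
    refine Dist.mono _ fun v _ => ?_
    split_ifs with h
    · simp only [Φ, if_pos h.1]
      rw [← Real.exp_add]
      refine Real.one_le_exp ?_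
      have h7 := mul_le_mul_of_nonneg_left h.2.le hs0p.le
      have e : s0 * (16 * ρ * B * (δ * s + t) / ν) = δ * s + t := by rw [hs0]; field_simp
      linarith
    · simp only [Φ]; split_ifs <;> positivity
  refine h6.trans ?_
  rw [Dist.mul_left]
  refine (mul_le_mul_of_nonneg_left h5 (Real.exp_pos _).le).trans (le_of_eq ?_)
  rw [← Real.exp_add]; congr 1; ring

end Proc

end Pool.Agent.H576Z.RIP
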