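import Pool.Agent.H576Z.RIP.Samp

namespace Pool.Agent.H576Z.RIP

open Finset Function
open scoped RealInnerProductSpace

theorem sg_lin (j : ℕ) : ((j : ℝ) + 1) * sg ^ j ≤ 80 := by
  have h1 := one_add_mul_le_pow (a := (1 / 80 : ℝ)) (by norm_num) j
  have h2 : (1 + 1 / 80 : ℝ) ^ j * sg ^ j = 1 := by
    rw [← mul_pow]; unfold sg; norm_num
  have h3 : 0 < sg ^ j := pow_pos sg_pos j
  have h4 := mul_le_mul_of_nonneg_right h1 h3.le
  nlinarith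

theorem sg_sum (J : ℕ) : ∑ j ∈ range J, sg ^ j ≤ 81 := by
  have h : ∀ J, ∑ j ∈ range J, sg ^ j = 81 * (1 - sg ^ J) := by
    intro J
    induction J with
    | zero => simp
    | succ J ih => rw [sum_range_succ, ih, pow_succ]; unfold sg; ring
  rw [h]; have := pow_pos sg_pos J; linarith

theorem sg_beta (j : ℕ) : (41 / 80 : ℝ) ^ j * (sg ^ (4 * j) * 2 ^ j) ≤ sg ^ j * sg ^ j := by
  have h1 : (41 / 80 * 2 * sg ^ 2 : ℝ) ^ j ≤ 1 :=
    pow_le_one₀ (by have := sg_pos; positivity) (by unfold sg; norm_num)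
  have h2 : 0 < sg ^ j := pow_pos sg_pos j
  have e : (41 / 80 : ℝ) ^ j * (sg ^ (4 * j) * 2 ^ j) =
      (41 / 80 * 2 * sg ^ 2 : ℝ) ^ j * (sg ^ j * sg ^ j) := by
    rw [mul_pow, mul_pow, ← pow_mul]; ring
  rw [e]
  exact mul_le_of_le_one_left (by positivity) h1

theorem det_total (z : ℕ → ℝ) {d : ℕ} (hd : 0 < d) (S : Finset (Fin d)) {μ Λ Λ' : ℝ} (hμ : 0 ≤ μ)
    (hΛ : 0 ≤ Λ) (hΛ' : 0 ≤ Λ') (J : ℕ)
    (hY : ∀ j < J, ∑ q ∈ Ico (d / 2 ^ (j + 1)) (d / 2 ^ j),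
      (cnt S (j + 1) (q - d / 2 ^ (j + 1)) : ℝ) * ex (z q) (μ * (Real.sqrt 2 * sg) ^ j) ^ 2 ≤
        96 * (sg ^ (4 * j) * 2 ^ j) * (j + 2) * Λ / d)
    (hR : ∑ q ∈ range (d / 2 ^ J), z q ^ 2 ≤ 3 * sg ^ (4 * J))
    (hB : ∀ i, (cnt S J i : ℝ) ≤ Λ' * (J + 1) * 2 ^ J / d) :
    ∑ a ∈ S, ex (mix z d a) (81 * μ) ^ 2 ≤ (52000000 * Λ + 240 * sg ^ J * Λ') / d := by
  have hd' : (0 : ℝ) < d := by exact_mod_cast hd
  refine (mix_total z S hμ J hB).trans ?_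
  rw [add_div]
  refine add_le_add ?_ ?_
  · have h1 : ∑ j ∈ range J, (41 / 80 : ℝ) ^ j *
        (∑ q ∈ Ico (d / 2 ^ (j + 1)) (d / 2 ^ j), (cnt S (j + 1) (q - d / 2 ^ (j + 1)) : ℝ) *
        ex (z q) (μ * (Real.sqrt 2 * sg) ^ j) ^ 2) ≤
        ∑ j ∈ range J, (96 * 160 * (Λ / d)) * sg ^ j := by
      refine sum_le_sum fun j hj => ?_
      refine (mul_le_mul_of_nonneg_left (hY j (mem_range.1 hj)) (by positivity)).trans ?_
      have h2 := sg_beta j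
      have h3 := sg_lin j
      have h4 : 0 < sg ^ j := pow_pos sg_pos j
      have h5 : ((j : ℝ) + 2) * sg ^ j ≤ 160 := by nlinarith [Nat.cast_nonneg (α := ℝ) j]
      have h6 : 0 ≤ Λ / d := by positivity
      calc _ = 96 * (Λ / d) * (j + 2) * ((41 / 80 : ℝ) ^ j * (sg ^ (4 * j) * 2 ^ j)) := by ring
        _ ≤ 96 * (Λ / d) * (j + 2) * (sg ^ j * sg ^ j) :=
          mul_le_mul_of_nonneg_left h2 (by positivity)
        _ = 96 * (Λ / d) * sg ^ j * ((j + 2) * sg ^ j) := by ring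
        _ ≤ 96 * (Λ / d) * sg ^ j * 160 := mul_le_mul_of_nonneg_left h5 (by positivity)
        _ = _ := by ring
    rw [← mul_sum] at h1
    have h2 := mul_le_mul_of_nonneg_left (sg_sum J) (by positivity : 0 ≤ 96 * 160 * (Λ / d))
    have h3 : 0 ≤ Λ / d := by positivity
    rw [mul_div_assoc]
    linarith
  · have h4 : 0 < sg ^ J := pow_pos sg_pos J
    calc _ ≤ (41 / 80 : ℝ) ^ J * (Λ' * (J + 1) * 2 ^ J / d * (3 * sg ^ (4 * J))) := by gcongr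
      _ = 3 * (Λ' / d) * (J + 1) * ((41 / 80 : ℝ) ^ J * (sg ^ (4 * J) * 2 ^ J)) := by ring
      _ ≤ 3 * (Λ' / d) * (J + 1) * (sg ^ J * sg ^ J) :=
          mul_le_mul_of_nonneg_left (sg_beta J) (by positivity)
      _ = 3 * (Λ' / d) * sg ^ J * ((J + 1) * sg ^ J) := by ring
      _ ≤ 3 * (Λ' / d) * sg ^ J * 80 := mul_le_mul_of_nonneg_left (sg_lin J) (by positivity)
      _ = _ := by ring

theorem sum_range_eq_Rm {d n : ℕ} {v : ℕ → EV d} (h : ON d v 0) (hn : n ≤ d) (θ : EV d) :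
    ∑ q ∈ range n, ⟪v q, θ⟫ ^ 2 = Rm d v n θ := by
  have h1 := Rm_zero h θ
  unfold Rm at h1 ⊢
  rw [← sum_Ico_consecutive _ (Nat.zero_le n) hn, ← range_eq_Ico] at h1
  linarith

theorem real_div_le (d j : ℕ) : (d : ℝ) / 2 ^ j ≤ ((d / 2 ^ j : ℕ) : ℝ) + 1 := by
  rw [div_le_iff₀ (by positivity)]
  have := Nat.lt_mul_div_succ d (show 0 < 2 ^ j by positivity)
  have h2 : (d : ℝ) ≤ 2 ^ j * (((d / 2 ^ j : ℕ) : ℝ) + 1) := by exact_mod_cast this.le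
  linarith

namespace Proc

variable {d : ℕ} (X : Proc d)

open Classical in
theorem exc_total (θ : EV d) (hθ : ‖θ‖ ^ 2 ≤ 1) (S : Finset (Fin d)) {p J : ℕ} (hp : 1 ≤ p)
    (h1 : 20000 ≤ d / 2 ^ J) (h2 : 6000 * p ≤ d / 2 ^ J) {t M μ δ Λ Λ' : ℝ} (ht : t ≤ p)
    (B s : ℕ → ℝ) (hB0 : ∀ j, 0 < B j) (hB : ∀ j ≤ J, ∀ i, (cnt S j i : ℝ) ≤ B j)
    (hs : ∀ j < J, (#((Ico (d / 2 ^ (j + 1)) (d / 2 ^ j)).filter
      fun q => (cnt S (j + 1) (q - d / 2 ^ (j + 1)) : ℝ) ≠ 0) : ℝ) ≤ s j)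
    (hM : 0 ≤ M) (hμ : 0 ≤ μ) (hMμ : 12 * M ^ 2 / d ≤ μ ^ 2)
    (hδ : 72 * Real.exp (-(M ^ 2 / 8)) ≤ δ) (hΛ : 0 ≤ Λ) (hΛ' : 0 ≤ Λ')
    (hΛ1 : ∀ j < J, B (j + 1) * (δ * s j + t) ≤ Λ * (j + 2))
    (hΛ2 : B J ≤ Λ' * (J + 1) * 2 ^ J / d) :
    (X.P 0).E (fun v => if (52000000 * Λ + 240 * sg ^ J * Λ') / d <
      ∑ a ∈ S, ex (mix (fun q => ⟪v q, θ⟫) d a) (81 * μ) ^ 2 then 1 else 0) ≤
      2 * (J + 1) * Real.exp (-t) := by
  have hd : 0 < d := by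
    have := Nat.div_le_self d (2 ^ J); omega
  have hd' : (0 : ℝ) < d := by exact_mod_cast hd
  have hsg := sg_pos
  let A : ℕ → (ℕ → EV d) → ℝ := fun j v =>
    if 3 * sg ^ (4 * j) < Rm d v (d / 2 ^ j) θ then 1 else 0
  let C : ℕ → (ℕ → EV d) → ℝ := fun j v =>
    if Rm d v (d / 2 ^ j) θ ≤ 3 * sg ^ (4 * j) ∧
      16 * (3 * sg ^ (4 * j)) * B (j + 1) * (δ * s j + t) / (d / 2 ^ (j + 1)) <
      ∑ q ∈ Ico (d / 2 ^ (j + 1)) (d / 2 ^ j), (cnt S (j + 1) (q - d / 2 ^ (j + 1)) : ℝ) *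
        ex ⟪v q, θ⟫ (μ * (Real.sqrt 2 * sg) ^ j) ^ 2 then 1 else 0
  have hA : ∀ j ≤ J, (X.P 0).E (A j) ≤ Real.exp (-t) := fun j hj =>
    (X.decay_tail θ hθ hp h1 h2 j hj).trans (Real.exp_le_exp.2 (by linarith))
  have hC : ∀ j < J, (X.P 0).E (C j) ≤ Real.exp (-t) := by
    intro j hj
    refine X.exc_tail θ (div_pow_anti d (Nat.le_succ j)) (Nat.div_le_self _ _)
      (h1.trans (div_pow_anti d hj)) (fun q => (cnt S (j + 1) (q - d / 2 ^ (j + 1)) : ℝ))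
      (hB0 _) (fun q => Nat.cast_nonneg _) (fun q => hB _ hj _) (by positivity)
      (real_div_le d (j + 1)) (hs j hj) (by positivity) hM (by positivity) ?_ hδ
    have hs2 : Real.sqrt 2 ^ 2 = 2 := Real.sq_sqrt (by norm_num)
    have e1 : (μ * (Real.sqrt 2 * sg) ^ j) ^ 2 = μ ^ 2 * (2 ^ j * sg ^ (2 * j)) := by
      rw [mul_pow, ← pow_mul, mul_comm j 2, pow_mul, mul_pow, hs2, mul_pow, ← pow_mul]
    have e2 : 2 * (3 * sg ^ (4 * j)) * M ^ 2 / (d / 2 ^ (j + 1)) =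
        12 * M ^ 2 / d * (2 ^ j * sg ^ (4 * j)) := by field_simp; ring
    rw [e1, e2]
    have h3 : sg ^ (4 * j) ≤ sg ^ (2 * j) := pow_le_pow_of_le_one hsg.le sg_lt.le (by omega)
    gcongr
  have hA0 : ∀ j v, 0 ≤ A j v := fun j v => by simp only [A]; split_ifs <;> norm_num
  have hC0 : ∀ j v, 0 ≤ C j v := fun j v => by simp only [C]; split_ifs <;> norm_num
  have key : (X.P 0).E (fun v => if (52000000 * Λ + 240 * sg ^ J * Λ') / d <
      ∑ a ∈ S, ex (mix (fun q => ⟪v q, θ⟫) d a) (81 * μ) ^ 2 then 1 else 0) ≤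
      (X.P 0).E (fun v => ∑ j ∈ range (J + 1), A j v + ∑ j ∈ range J, C j v) := by
    refine Dist.mono _ fun v hv => ?_
    have s1 : 0 ≤ ∑ j ∈ range (J + 1), A j v := sum_nonneg fun j _ => hA0 j v
    have s2 : 0 ≤ ∑ j ∈ range J, C j v := sum_nonneg fun j _ => hC0 j v
    split_ifs with h
    swap
    · linarith
    by_contra hcon
    push Not at hcon
    have a1 : ∀ j ≤ J, Rm d v (d / 2 ^ j) θ ≤ 3 * sg ^ (4 * j) := by
      intro j hj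
      by_contra h3
      push Not at h3
      have := single_le_sum (f := fun j => A j v) (fun j _ => hA0 j v)
        (mem_range.2 (Nat.lt_succ_of_le hj))
      simp only [A, if_pos h3] at this
      simp only [A] at hcon
      linarith
    refine absurd h (not_lt.2 (det_total _ hd S hμ hΛ hΛ' J (fun j hj => ?_) ?_
      (fun i => (hB J le_rfl i).trans hΛ2)))
    · by_contra h3
      push Not at h3
      have h4 : 16 * (3 * sg ^ (4 * j)) * B (j + 1) * (δ * s j + t) / (d / 2 ^ (j + 1)) ≤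
          96 * (sg ^ (4 * j) * 2 ^ j) * (j + 2) * Λ / d := by
        have := mul_le_mul_of_nonneg_left (hΛ1 j hj)
          (by positivity : 0 ≤ 96 * (sg ^ (4 * j) * 2 ^ j) / d)
        refine le_trans (le_of_eq ?_) (this.trans (le_of_eq ?_))
        · field_simp; ring
        · ring
      have := single_le_sum (f := fun j => C j v) (fun j _ => hC0 j v) (mem_range.2 hj)
      simp only [C, if_pos (And.intro (a1 j hj.le) (h4.trans_lt h3))] at this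
      simp only [C] at hcon
      linarith
    · rw [sum_range_eq_Rm (X.onS 0 (Nat.zero_le d) v hv) (Nat.div_le_self _ _)]
      exact a1 J le_rfl
  refine key.trans ?_
  rw [Dist.add, Dist.sum, Dist.sum]
  have b1 : ∑ j ∈ range (J + 1), (X.P 0).E (A j) ≤ ∑ _j ∈ range (J + 1), Real.exp (-t) :=
    sum_le_sum fun j hj => hA j (Nat.lt_succ_iff.1 (mem_range.1 hj))
  have b2 : ∑ j ∈ range J, (X.P 0).E (C j) ≤ ∑ _j ∈ range J, Real.exp (-t) :=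
    sum_le_sum fun j hj => hC j (mem_range.1 hj)
  simp only [sum_const, card_range, nsmul_eq_mul] at b1 b2
  push_cast at b1
  have := Real.exp_pos (-t)
  nlinarith

end Proc

end Pool.Agent.H576Z.RIP
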