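import Pool.Agent.H576Z.RIP.Gen

namespace Pool.Agent.H576Z.RIP

open Finset
open scoped RealInnerProductSpace

/-- Excess of the absolute value over a level. -/
noncomputable def ex (y M : ℝ) : ℝ := max (|y| - M) 0

theorem ex_nonneg (y M : ℝ) : 0 ≤ ex y M := le_max_right _ _

theorem pow_four_le (x : ℝ) : (x ^ 2) ^ 2 ≤ 24 * (Real.exp x + Real.exp (-x)) := by
  have h := Real.pow_div_factorial_le_exp |x| (abs_nonneg x) 4
  have e : |x| ^ 4 = (x ^ 2) ^ 2 := by rw [← sq_abs x]; ring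
  rw [e] at h
  norm_num [Nat.factorial] at h
  have h1 := Real.exp_pos x
  have h2 := Real.exp_pos (-x)
  rcases abs_choice x with h3 | h3 <;> rw [h3] at h <;> linarith

theorem exp_sq_le (x : ℝ) (n : ℕ) (hx : |x| ≤ 4 * n) :
    Real.exp (x ^ 2 / 8) ≤ 9 * ∑ j ∈ range (n + 1),
      (Real.exp (j * x) + Real.exp (-(j * x))) * Real.exp (-(2 * j ^ 2)) := by
  set j := ⌈|x| / 4⌉₊ with hj
  have hj1 : |x| / 4 ≤ j := Nat.le_ceil _
  have hj2 : (j : ℝ) < |x| / 4 + 1 := Nat.ceil_lt_add_one (by positivity)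
  have hj3 : j ≤ n := Nat.ceil_le.2 (by linarith)
  have h1 : (Real.exp (j * x) + Real.exp (-(j * x))) * Real.exp (-(2 * j ^ 2)) ≤
      ∑ j ∈ range (n + 1), (Real.exp (j * x) + Real.exp (-(j * x))) * Real.exp (-(2 * j ^ 2)) :=
    single_le_sum (f := fun j : ℕ =>
      (Real.exp (j * x) + Real.exp (-(j * x))) * Real.exp (-(2 * j ^ 2)))
      (fun i _ => by positivity) (mem_range.2 (by omega))
  have h2 : Real.exp (j * |x|) ≤ Real.exp (j * x) + Real.exp (-(j * x)) := by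
    have h1 := Real.exp_pos (j * x)
    have h2 := Real.exp_pos (-(j * x))
    rcases abs_choice x with h3 | h3 <;> rw [h3]
    · linarith
    · rw [mul_neg]; linarith
  have h3 : Real.exp (x ^ 2 / 8) ≤ Real.exp 1 * Real.exp 1 *
      (Real.exp (j * |x|) * Real.exp (-(2 * j ^ 2))) := by
    rw [← Real.exp_add, ← Real.exp_add, ← Real.exp_add, Real.exp_le_exp, ← sq_abs x]
    have : (j - |x| / 4) ^ 2 ≤ 1 := by nlinarith
    nlinarith
  have h4 : Real.exp 1 * Real.exp 1 ≤ 9 := by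
    have := Real.exp_one_lt_d9
    have := Real.exp_pos 1
    nlinarith
  have h5 := mul_le_mul_of_nonneg_right h2 (Real.exp_pos (-(2 * (j : ℝ) ^ 2))).le
  calc _ ≤ _ := h3
    _ ≤ 9 * (Real.exp (j * |x|) * Real.exp (-(2 * j ^ 2))) :=
        mul_le_mul_of_nonneg_right h4 (by positivity)
    _ ≤ _ := by linarith

theorem sum_exp_neg_sq (n : ℕ) : ∑ j ∈ range n, Real.exp (-(j : ℝ) ^ 2) ≤ 2 := by
  have h1 : ∀ j : ℕ, Real.exp (-(j : ℝ) ^ 2) ≤ (1 / 2) ^ j := by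
    intro j
    have h2 : Real.exp (-1) ≤ 1 / 2 := by
      rw [Real.exp_neg, one_div]
      exact inv_anti₀ (by norm_num) (by linarith [Real.add_one_le_exp 1])
    calc _ ≤ Real.exp (j * (-1)) := by
          rw [Real.exp_le_exp]
          have : (j : ℝ) ≤ j ^ 2 := by exact_mod_cast Nat.le_self_pow (by norm_num) j
          linarith
      _ = Real.exp (-1) ^ j := Real.exp_nat_mul _ _
      _ ≤ _ := pow_le_pow_left₀ (Real.exp_pos _).le h2 j
  refine (sum_le_sum fun j _ => h1 j).trans ?_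
  exact sum_geometric_two_le n

variable {W : Type*} [NormedAddCommGroup W] [InnerProductSpace ℝ W] [FiniteDimensional ℝ W]

theorem unitGen {Y : Type*} [Fintype Y] {n : ℕ} (hn : Module.finrank ℝ W = n) (hn0 : 20000 ≤ n)
    (f : Y → W) (hB : ∀ θ : W, ∑ y, ⟪f y, θ⟫ ^ 2 ≤ ‖θ‖ ^ 2)
    {L : ℝ} (hL : 0 < L) (hf : ∀ y, 24000000 * ‖f y‖ ^ 2 ≤ L ^ 4) :
    ∃ D : Dist W, (∀ u ∈ D.S, ‖u‖ = 1 ∧ ∀ y, ⟪f y, u⟫ ^ 2 ≤ 2 * L ^ 2 / n) ∧
      (∀ θ : W, ‖θ‖ ^ 2 / (5 * n) ≤ D.E (fun u => ⟪θ, u⟫ ^ 2)) ∧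
      (∀ θ : W, D.E (fun u => (⟪θ, u⟫ ^ 2) ^ 2) ≤ 1200 * (‖θ‖ ^ 2) ^ 2 / n ^ 2) ∧
      (∀ (θ : W) (ρ M μ : ℝ), 0 < ρ → ‖θ‖ ^ 2 ≤ ρ → 0 ≤ M → 0 ≤ μ → 2 * ρ * M ^ 2 / n ≤ μ ^ 2 →
        D.E (fun u => Real.exp (n / (16 * ρ) * ex ⟪θ, u⟫ μ ^ 2)) ≤
          1 + 72 * Real.exp (-(M ^ 2 / 8))) := by
  classical
  obtain ⟨D, d1, d2, d3, d4⟩ := gen hn (by omega) f hB hL hf
  have hnR : (20000 : ℝ) ≤ n := by exact_mod_cast hn0
  have hnp : (0 : ℝ) < n := by linarith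
  obtain ⟨p, hpd⟩ : ∃ p : W → Prop, ∀ g, p g ↔ (n : ℝ) / 2 ≤ ‖g‖ ^ 2 ∧ ‖g‖ ^ 2 ≤ 2 * n :=
    ⟨_, fun _ => Iff.rfl⟩
  have hbad : D.E (fun g => if p g then 0 else 1) ≤ 16 / 10000 := by
    have h1 : D.E (fun g => if p g then 0 else 1) ≤
        D.E (fun g => (4 / n ^ 2) * (‖g‖ ^ 2 - n) ^ 2) := by
      refine D.mono fun g _ => ?_
      split_ifs with h
      · positivity
      · rw [div_mul_eq_mul_div, le_div_iff₀ (by positivity)]
        simp only [hpd, not_and_or, not_le] at h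
        rcases h with h | h <;> nlinarith [sq_nonneg ‖g‖]
    rw [D.mul_left] at h1
    refine h1.trans ?_
    rw [div_mul_eq_mul_div, div_le_iff₀ (by positivity)]
    nlinarith
  have hsum : D.E (fun g => if p g then 1 else 0) + D.E (fun g => if p g then 0 else 1) = 1 := by
    rw [← D.add]; refine Eq.trans ?_ D.one; congr 1; funext g; split_ifs <;> simp
  have hbad0 : 0 ≤ D.E (fun g => if p g then 0 else 1) :=
    D.pos _ fun g _ => by split_ifs <;> norm_num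
  have hP : 0 < D.E (fun g => if p g then 1 else 0) := by linarith
  have hnorm : ∀ g, p g → 0 < ‖g‖ := by
    intro g hg
    have h1 : 0 < ‖g‖ ^ 2 := by linarith [((hpd g).1 hg).1]
    exact lt_of_le_of_ne (norm_nonneg _) (fun h => by rw [← h] at h1; simp at h1)
  have hin : ∀ (θ g : W), ⟪θ, ‖g‖⁻¹ • g⟫ ^ 2 = ⟪θ, g⟫ ^ 2 / ‖g‖ ^ 2 := by
    intro θ g; rw [inner_smul_right, mul_pow, inv_pow]; ring
  have hup : ∀ (θ g : W), p g → ⟪θ, ‖g‖⁻¹ • g⟫ ^ 2 ≤ 2 * ⟪θ, g⟫ ^ 2 / n := by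
    intro θ g hg
    rw [hin, div_le_div_iff₀ (by have := hnorm g hg; positivity) hnp]
    have := mul_le_mul_of_nonneg_left ((hpd g).1 hg).1 (sq_nonneg ⟪θ, g⟫)
    linarith
  have hcond : ∀ (F : W → ℝ) (G : W → ℝ) (c : ℝ), (∀ g ∈ D.S, 0 ≤ G g) →
      (∀ g ∈ D.S, p g → F (‖g‖⁻¹ • g) ≤ c + G g) →
      (D.cond p hP (fun g => ‖g‖⁻¹ • g)).E F ≤ c + 2 * D.E G := by
    intro F G c hG h
    rw [Dist.cond_E, div_le_iff₀ hP]
    have h1 : D.E (fun g => if p g then F (‖g‖⁻¹ • g) else 0) ≤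
        D.E (fun g => c * (if p g then 1 else 0) + G g) := by
      refine D.mono fun g hg => ?_
      have := hG g hg
      split_ifs with h2
      · have := h g hg h2; linarith
      · linarith
    rw [D.add, D.mul_left] at h1
    have h2 := D.pos G hG
    nlinarith
  have h4 : ∀ θ : W, D.E (fun g => (⟪θ, g⟫ ^ 2) ^ 2) ≤ 144 * (‖θ‖ ^ 2) ^ 2 := by
    have h5 : ∀ θ : W, ‖θ‖ ≤ 1 → D.E (fun g => Real.exp ⟪θ, g⟫) ≤ 3 := by
      intro θ hθ
      refine (d2 θ (by linarith)).trans ?_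
      have h1 : ‖θ‖ ^ 2 ≤ 1 := by nlinarith [norm_nonneg θ]
      have := Real.exp_le_exp.2 h1
      linarith [Real.exp_one_lt_d9]
    intro θ
    rcases eq_or_ne θ 0 with rfl | hθ
    · simp [D.const]
    · have hp : 0 < ‖θ‖ := norm_pos_iff.2 hθ
      have hu : ‖‖θ‖⁻¹ • θ‖ = 1 := by rw [norm_smul, norm_inv, norm_norm]; field_simp
      have h1 : D.E (fun g => (⟪θ, g⟫ ^ 2) ^ 2) ≤ D.E (fun g => (24 * (‖θ‖ ^ 2) ^ 2) *
          (Real.exp ⟪‖θ‖⁻¹ • θ, g⟫ + Real.exp ⟪-(‖θ‖⁻¹ • θ), g⟫)) := by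
        refine D.mono fun g _ => ?_
        have h2 := pow_four_le ⟪‖θ‖⁻¹ • θ, g⟫
        rw [inner_neg_left]
        have e : ⟪θ, g⟫ = ‖θ‖ * ⟪‖θ‖⁻¹ • θ, g⟫ := by
          rw [real_inner_smul_left]; field_simp
        have h3 := mul_le_mul_of_nonneg_left h2 (by positivity : 0 ≤ (‖θ‖ ^ 2) ^ 2)
        calc _ = (‖θ‖ ^ 2) ^ 2 * (⟪‖θ‖⁻¹ • θ, g⟫ ^ 2) ^ 2 := by
              conv_lhs => rw [e]
              ring
          _ ≤ _ := by linarith
      rw [D.mul_left, D.add] at h1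
      have h2 := h5 _ hu.le
      have h3 := h5 (-(‖θ‖⁻¹ • θ)) (by rw [norm_neg, hu])
      have : 0 ≤ (‖θ‖ ^ 2) ^ 2 := by positivity
      nlinarith
  refine ⟨D.cond p hP (fun g => ‖g‖⁻¹ • g), ?_, ?_, ?_, ?_⟩
  · intro u hu
    obtain ⟨g, hg, hpg, rfl⟩ := (Dist.cond_S _ _ _ _ _).1 hu
    refine ⟨?_, fun y => (hup _ g hpg).trans ?_⟩
    · rw [norm_smul, norm_inv, norm_norm]; have := hnorm g hpg; field_simp
    · have h1 := d1 g hg y
      have h2 : ⟪f y, g⟫ ^ 2 ≤ L ^ 2 := by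
        rw [← sq_abs]; exact pow_le_pow_left₀ (abs_nonneg _) h1.le 2
      gcongr
  · intro θ
    rcases eq_or_ne θ 0 with rfl | hθ
    · simp [Dist.const]
    have hp : 0 < ‖θ‖ ^ 2 := by have := norm_pos_iff.2 hθ; positivity
    set r := ‖θ‖ ^ 2 with hr
    rw [Dist.cond_E, le_div_iff₀ hP]
    have h1 : D.E (fun g => (1 / (2 * n)) * (⟪θ, g⟫ ^ 2 - ((1 / (500 * r)) * (⟪θ, g⟫ ^ 2) ^ 2 +
        125 * r * (if p g then 0 else 1)))) ≤
        D.E (fun g => if p g then ⟪θ, ‖g‖⁻¹ • g⟫ ^ 2 else 0) := by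
      refine D.mono fun g _ => ?_
      split_ifs with h2
      · rw [hin, le_div_iff₀ (by have := hnorm g h2; positivity)]
        have h3 : 0 ≤ (1 / (500 * r)) * (⟪θ, g⟫ ^ 2) ^ 2 := by positivity
        have h5 : 1 / (2 * n) * ‖g‖ ^ 2 ≤ 1 := by
          rw [div_mul_eq_mul_div, div_le_one (by positivity)]; linarith [((hpd g).1 h2).2]
        have h6 : 0 ≤ 1 / (2 * n) * ‖g‖ ^ 2 := by positivity
        have h7 := sq_nonneg ⟪θ, g⟫
        nlinarith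
      · refine mul_nonpos_of_nonneg_of_nonpos (by positivity) ?_
        have : 0 ≤ (⟪θ, g⟫ ^ 2 - 250 * r) ^ 2 / (500 * r) := by positivity
        have e : (⟪θ, g⟫ ^ 2 - 250 * r) ^ 2 / (500 * r) =
            (1 / (500 * r)) * (⟪θ, g⟫ ^ 2) ^ 2 + 125 * r * 1 - ⟪θ, g⟫ ^ 2 := by
          field_simp; ring
        linarith
    rw [D.mul_left, D.sub, D.add, D.mul_left, D.mul_left] at h1
    refine le_trans ?_ h1
    have h2 := d3 θ
    have h3 : (1 / (500 * r)) * D.E (fun g => (⟪θ, g⟫ ^ 2) ^ 2) ≤ 144 / 500 * r := by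
      have := mul_le_mul_of_nonneg_left (h4 θ) (by positivity : 0 ≤ 1 / (500 * r))
      refine this.trans (le_of_eq ?_)
      rw [← hr]; field_simp
    have h5 := mul_le_mul_of_nonneg_left hbad (by positivity : 0 ≤ 125 * r)
    have h6 : r / (5 * n) * D.E (fun g => if p g then 1 else 0) ≤ r / (5 * n) := by
      have : D.E (fun g => if p g then 1 else 0) ≤ 1 := by linarith
      exact mul_le_of_le_one_right (by positivity) this
    refine h6.trans ?_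
    have e : r / (5 * n) = 1 / (2 * n) * (2 / 5 * r) := by field_simp
    rw [e]
    refine mul_le_mul_of_nonneg_left ?_ (by positivity)
    linarith
  · intro θ
    have := hcond (fun u => (⟪θ, u⟫ ^ 2) ^ 2) (fun g => (4 / n ^ 2) * (⟪θ, g⟫ ^ 2) ^ 2) 0
      (fun g _ => by positivity) (fun g _ hg => by
        have h1 := pow_le_pow_left₀ (sq_nonneg _) (hup θ g hg) 2
        refine h1.trans (le_of_eq ?_)
        field_simp; ring)
    refine this.trans ?_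
    rw [D.mul_left]
    have h1 := mul_le_mul_of_nonneg_left (h4 θ) (by positivity : 0 ≤ 4 / (n : ℝ) ^ 2)
    have h2 : 2 * (4 / (n : ℝ) ^ 2 * (144 * (‖θ‖ ^ 2) ^ 2)) ≤ 1200 * (‖θ‖ ^ 2) ^ 2 / n ^ 2 := by
      rw [le_div_iff₀ (by positivity)]
      have : 2 * (4 / (n : ℝ) ^ 2 * (144 * (‖θ‖ ^ 2) ^ 2)) * n ^ 2 = 1152 * (‖θ‖ ^ 2) ^ 2 := by
        field_simp; ring
      rw [this]; nlinarith [sq_nonneg (‖θ‖ ^ 2)]
    linarith
  · intro θ ρ M μ hρ hθ hM hμ hMμ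
    set s := Real.sqrt ρ with hs
    have hs2 : s ^ 2 = ρ := Real.sq_sqrt hρ.le
    have hsp : 0 < s := Real.sqrt_pos.2 hρ
    set θ0 : W := s⁻¹ • θ with hθ0
    have hθ01 : ‖θ0‖ ^ 2 ≤ 1 := by
      rw [hθ0, norm_smul, mul_pow, Real.norm_eq_abs, sq_abs, inv_pow, hs2,
        inv_mul_le_iff₀ hρ]; linarith
    have hθ02 : ‖θ0‖ ≤ 1 := by nlinarith [norm_nonneg θ0]
    have hX : ∀ g : W, ⟪θ, g⟫ ^ 2 = ρ * ⟪θ0, g⟫ ^ 2 := by
      intro g; rw [hθ0, real_inner_smul_left, mul_pow, inv_pow, hs2]; field_simp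
    have := hcond (fun u => Real.exp (n / (16 * ρ) * ex ⟪θ, u⟫ μ ^ 2))
      (fun g => Real.exp (-(M ^ 2 / 8)) * (9 * ∑ j ∈ range (n + 1),
        (Real.exp ⟪(j : ℝ) • θ0, g⟫ + Real.exp ⟪-((j : ℝ) • θ0), g⟫) * Real.exp (-(2 * j ^ 2)))) 1
      (fun g _ => by positivity) (fun g _ hg => ?_)
    · refine this.trans ?_
      rw [D.mul_left, D.mul_left, D.sum]
      have h1 : ∑ j ∈ range (n + 1), D.E (fun g =>
          (Real.exp ⟪(j : ℝ) • θ0, g⟫ + Real.exp ⟪-((j : ℝ) • θ0), g⟫) * Real.exp (-(2 * j ^ 2)))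
          ≤ ∑ j ∈ range (n + 1), 2 * Real.exp (-(j : ℝ) ^ 2) := by
        refine sum_le_sum fun j hj => ?_
        have hj' : (j : ℝ) ≤ n := by exact_mod_cast Nat.lt_succ_iff.1 (mem_range.1 hj)
        have hn1 : ‖(j : ℝ) • θ0‖ ≤ j := by
          rw [norm_smul, Real.norm_eq_abs, abs_of_nonneg (Nat.cast_nonneg j)]
          exact mul_le_of_le_one_right (Nat.cast_nonneg j) hθ02
        have hn2 : Real.exp (‖(j : ℝ) • θ0‖ ^ 2) ≤ Real.exp ((j : ℝ) ^ 2) :=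
          Real.exp_le_exp.2 (pow_le_pow_left₀ (norm_nonneg _) hn1 2)
        have a1 := (d2 _ (hn1.trans hj')).trans hn2
        have a2 := d2 (-((j : ℝ) • θ0)) (by rw [norm_neg]; exact hn1.trans hj')
        rw [norm_neg] at a2
        have a3 := a2.trans hn2
        rw [D.mul_right, D.add]
        have e : Real.exp (-(j : ℝ) ^ 2) = Real.exp ((j : ℝ) ^ 2) * Real.exp (-(2 * j ^ 2)) := by
          rw [← Real.exp_add]; congr 1; ring
        rw [e]
        have := Real.exp_pos (-(2 * (j : ℝ) ^ 2))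
        nlinarith
      rw [← mul_sum] at h1
      have h2 := sum_exp_neg_sq (n + 1)
      have h3 := Real.exp_pos (-(M ^ 2 / 8))
      nlinarith
    · simp only [real_inner_smul_left, inner_neg_left]
      set X := ⟪θ0, g⟫ with hXdef
      have hXb : |X| ≤ 4 * n := by
        have h1 : |X| ≤ ‖θ0‖ * ‖g‖ := abs_real_inner_le_norm _ _
        have h2 : ‖g‖ ≤ 4 * n := by
          have := ((hpd g).1 hg).2
          nlinarith [norm_nonneg g]
        have h3 : ‖θ0‖ * ‖g‖ ≤ 1 * (4 * n) := mul_le_mul hθ02 h2 (norm_nonneg _) (by norm_num)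
        linarith
      have h1 := exp_sq_le X n hXb
      have h2 := hup θ g hg
      rw [hX g, ← hXdef] at h2
      set Z := ⟪θ, ‖g‖⁻¹ • g⟫ with hZ
      by_cases hc : |Z| ≤ μ
      · have : ex Z μ = 0 := by unfold ex; exact max_eq_right (by linarith)
        rw [this]
        simp only [ne_eq, OfNat.ofNat_ne_zero, not_false_eq_true, zero_pow, mul_zero,
          Real.exp_zero, le_add_iff_nonneg_right]
        positivity
      · push Not at hc
        have e1 : ex Z μ = |Z| - μ := by unfold ex; exact max_eq_left (by linarith)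
        have h3 : ex Z μ ^ 2 ≤ Z ^ 2 - μ ^ 2 := by
          rw [e1, ← sq_abs Z]; nlinarith
        have h5 : n / (16 * ρ) * ex Z μ ^ 2 ≤ -(M ^ 2 / 8) + X ^ 2 / 8 := by
          have h6 : ex Z μ ^ 2 ≤ 2 * ρ * (X ^ 2 - M ^ 2) / n := by
            have : 2 * ρ * (X ^ 2 - M ^ 2) / n = 2 * (ρ * X ^ 2) / n - 2 * ρ * M ^ 2 / n := by ring
            linarith
          refine (mul_le_mul_of_nonneg_left h6 (by positivity)).trans (le_of_eq ?_)
          field_simp; ring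
        have h6 := Real.exp_le_exp.2 h5
        rw [Real.exp_add] at h6
        have h7 := mul_le_mul_of_nonneg_left h1 (Real.exp_pos (-(M ^ 2 / 8))).le
        linarith

end Pool.Agent.H576Z.RIP
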